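import Mathlib

/-!
# Congruence of symmetric matrices
-/

namespace Pool.Agent.Lib.MP_12adaf_nt.TF

set_option linter.unusedSectionVars false
set_option linter.unusedVariables false

open Finset Polynomial Filter Topology Matrix

section Cong

variable {K : Type*} [CommRing K] {l m n p q : Type*} [Fintype l] [DecidableEq l] [Fintype m]
  [DecidableEq m] [Fintype n] [DecidableEq n] [Fintype p] [DecidableEq p] [Fintype q]
  [DecidableEq q]

/-- Congruence of square matrices (isometry of the bilinear forms given by them). -/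
def Cong (A : Matrix m m K) (B : Matrix n n K) : Prop :=
  ∃ (M : Matrix m n K) (M' : Matrix n m K), M * M' = 1 ∧ M' * M = 1 ∧ Mᵀ * A * M = B

/-- Orthogonal sum. -/
def osum (A : Matrix m m K) (B : Matrix n n K) : Matrix (m ⊕ n) (m ⊕ n) K :=
  fromBlocks A 0 0 B

/-- The form `c x ^ 2`. -/
def sq1 (c : K) : Matrix (Fin 1) (Fin 1) K := diagonal fun _ => c

lemma Cong.refl (A : Matrix m m K) : Cong A A := ⟨1, 1, by simp, by simp, by simp⟩

lemma Cong.symm {A : Matrix m m K} {B : Matrix n n K} (h : Cong A B) : Cong B A := by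
  obtain ⟨M, M', h1, h2, rfl⟩ := h
  refine ⟨M', M, h2, h1, ?_⟩
  have h3 : M'ᵀ * Mᵀ = 1 := by rw [← transpose_mul, h1, transpose_one]
  calc M'ᵀ * (Mᵀ * A * M) * M' = (M'ᵀ * Mᵀ) * A * (M * M') := by
        simp only [Matrix.mul_assoc]
    _ = A := by rw [h3, h1, Matrix.one_mul, Matrix.mul_one]

lemma Cong.trans {A : Matrix m m K} {B : Matrix n n K} {C : Matrix p p K} (h : Cong A B)
    (h' : Cong B C) : Cong A C := by
  obtain ⟨M, M', h1, h2, rfl⟩ := h
  obtain ⟨N, N', h3, h4, rfl⟩ := h'
  refine ⟨M * N, N' * M', ?_, ?_, ?_⟩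
  · calc M * N * (N' * M') = M * (N * N') * M' := by simp only [Matrix.mul_assoc]
      _ = 1 := by rw [h3, Matrix.mul_one, h1]
  · calc N' * M' * (M * N) = N' * (M' * M) * N := by simp only [Matrix.mul_assoc]
      _ = 1 := by rw [h2, Matrix.mul_one, h4]
  · rw [transpose_mul]
    simp only [Matrix.mul_assoc]

lemma Cong.of_eq {A B : Matrix m m K} (h : A = B) : Cong A B := h ▸ Cong.refl A

lemma Cong.map {L : Type*} [CommRing L] (φ : K →+* L) {A : Matrix m m K} {B : Matrix n n K}
    (h : Cong A B) : Cong (A.map φ) (B.map φ) := by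
  obtain ⟨M, M', h1, h2, rfl⟩ := h
  refine ⟨M.map φ, M'.map φ, ?_, ?_, ?_⟩
  · rw [← Matrix.map_mul, h1, Matrix.map_one _ (map_zero φ) (map_one φ)]
  · rw [← Matrix.map_mul, h2, Matrix.map_one _ (map_zero φ) (map_one φ)]
  · rw [Matrix.map_mul, Matrix.map_mul, transpose_map]

lemma Cong.symmetric {A : Matrix m m K} {B : Matrix n n K} (h : Cong A B) (hA : A.IsSymm) :
    B.IsSymm := by
  obtain ⟨M, M', h1, h2, rfl⟩ := h
  unfold Matrix.IsSymm
  rw [transpose_mul, transpose_mul, transpose_transpose, hA.eq, Matrix.mul_assoc]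

lemma Cong.submatrix (A : Matrix m m K) (e : n ≃ m) : Cong A (A.submatrix e e) := by
  refine ⟨(1 : Matrix m m K).submatrix id e, (1 : Matrix m m K).submatrix e id, ?_, ?_, ?_⟩
  · rw [submatrix_mul_equiv, Matrix.one_mul, submatrix_id_id]
  · rw [← submatrix_mul _ _ e id e Function.bijective_id, Matrix.one_mul, submatrix_one_equiv]
  · rw [transpose_submatrix, transpose_one]
    have h1 : A = A.submatrix id id := rfl
    conv_lhs => rw [h1]
    rw [← submatrix_mul _ _ e id id Function.bijective_id,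
      ← submatrix_mul _ _ e id e Function.bijective_id, Matrix.one_mul, Matrix.mul_one]

lemma Cong.diagonal_equiv (u : m → K) (e : n ≃ m) :
    Cong (diagonal u) (diagonal fun i => u (e i)) := by
  have h := Cong.submatrix (diagonal u) e
  rwa [submatrix_diagonal_equiv] at h

lemma osum_diagonal (u : m → K) (v : n → K) :
    osum (diagonal u) (diagonal v) = diagonal (Sum.elim u v) := by
  rw [osum, fromBlocks_diagonal]

lemma Cong.osum {A : Matrix m m K} {B : Matrix n n K} {A' : Matrix p p K} {B' : Matrix q q K}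
    (h : Cong A B) (h' : Cong A' B') : Cong (osum A A') (osum B B') := by
  obtain ⟨M, M', h1, h2, rfl⟩ := h
  obtain ⟨N, N', h3, h4, rfl⟩ := h'
  refine ⟨fromBlocks M 0 0 N, fromBlocks M' 0 0 N', ?_, ?_, ?_⟩
  · rw [fromBlocks_multiply]
    simp [h1, h3]
  · rw [fromBlocks_multiply]
    simp [h2, h4]
  · rw [TF.osum, TF.osum, fromBlocks_transpose, fromBlocks_multiply, fromBlocks_multiply]
    simp

lemma Cong.osum_comm (A : Matrix m m K) (B : Matrix n n K) :
    Cong (TF.osum A B) (TF.osum B A) := by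
  have h := Cong.submatrix (TF.osum A B) (Equiv.sumComm n m)
  have h1 : (TF.osum A B).submatrix (Equiv.sumComm n m) (Equiv.sumComm n m) = TF.osum B A := by
    rw [TF.osum, TF.osum]
    exact fromBlocks_submatrix_sum_swap_sum_swap _ _ _ _
  rwa [h1] at h

lemma Cong.osum_assoc (A : Matrix m m K) (B : Matrix n n K) (C : Matrix p p K) :
    Cong (TF.osum (TF.osum A B) C) (TF.osum A (TF.osum B C)) := by
  have h := Cong.submatrix (TF.osum (TF.osum A B) C) (Equiv.sumAssoc m n p).symm
  have h1 : (TF.osum (TF.osum A B) C).submatrix (Equiv.sumAssoc m n p).symm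
      (Equiv.sumAssoc m n p).symm = TF.osum A (TF.osum B C) := by
    ext (i | i | i) (j | j | j) <;> simp [TF.osum]
  rwa [h1] at h

lemma osum_isSymm {A : Matrix m m K} {B : Matrix n n K} (hA : A.IsSymm) (hB : B.IsSymm) :
    (osum A B).IsSymm := by
  unfold Matrix.IsSymm
  rw [osum, fromBlocks_transpose, hA.eq, hB.eq, transpose_zero, transpose_zero]

lemma det_osum (A : Matrix m m K) (B : Matrix n n K) : (osum A B).det = A.det * B.det := by
  rw [osum, det_fromBlocks_zero₂₁]

lemma map_osum {L : Type*} [CommRing L] (φ : K →+* L) (A : Matrix m m K) (B : Matrix n n K) :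
    (osum A B).map φ = osum (A.map φ) (B.map φ) := by
  rw [osum, osum, fromBlocks_map, Matrix.map_zero _ (map_zero φ), Matrix.map_zero _ (map_zero φ)]

lemma map_sq1 {L : Type*} [CommRing L] (φ : K →+* L) (c : K) : (sq1 c).map φ = sq1 (φ c) := by
  rw [sq1, sq1, diagonal_map (map_zero φ)]

@[simp] lemma det_sq1 (c : K) : (sq1 c).det = c := by
  rw [sq1, det_diagonal]
  simp

lemma sq1_isSymm (c : K) : (sq1 c).IsSymm := diagonal_transpose _

lemma osum_sq1_sq1 (a b : K) : Cong (osum (sq1 a) (sq1 b)) (diagonal ![a, b]) := by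
  rw [sq1, sq1, osum_diagonal]
  have h := Cong.diagonal_equiv (Sum.elim (fun _ : Fin 1 => a) fun _ : Fin 1 => b)
    (finSumFinEquiv (m := 1) (n := 1)).symm
  refine h.trans (Cong.of_eq ?_)
  congr 1
  ext i
  fin_cases i <;> rfl

end Cong

section Field

variable {K : Type*} [Field K] {m n : Type*} [Fintype m] [DecidableEq m] [Fintype n]
  [DecidableEq n]

lemma Cong.diagonal_mul_sq (u c : m → K) (hc : ∀ i, c i ≠ 0) :
    Cong (diagonal u) (diagonal fun i => u i * c i ^ 2) := by
  refine ⟨diagonal c, diagonal fun i => (c i)⁻¹, ?_, ?_, ?_⟩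
  · rw [diagonal_mul_diagonal, ← diagonal_one]
    congr 1; ext i; exact mul_inv_cancel₀ (hc i)
  · rw [diagonal_mul_diagonal, ← diagonal_one]
    congr 1; ext i; exact inv_mul_cancel₀ (hc i)
  · rw [diagonal_transpose, diagonal_mul_diagonal, diagonal_mul_diagonal]
    congr 1; ext i; ring

lemma Cong.sq1_mul_sq (a : K) {c : K} (hc : c ≠ 0) : Cong (sq1 a) (sq1 (a * c ^ 2)) :=
  Cong.diagonal_mul_sq (fun _ => a) (fun _ => c) fun _ => hc

lemma Cong.sq1_of_eq {a b c : K} (hc : c ≠ 0) (h : b = a * c ^ 2) : Cong (sq1 a) (sq1 b) :=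
  h ▸ Cong.sq1_mul_sq a hc

/-- Congruent matrices have the same determinant up to squares. -/
lemma Cong.det_eq {A : Matrix m m K} {B : Matrix n n K} (h : Cong A B) :
    ∃ c : K, c ≠ 0 ∧ B.det = A.det * c ^ 2 := by
  obtain ⟨M, M', h1, h2, rfl⟩ := h
  have hcard : Fintype.card m = Fintype.card n :=
    Matrix.square_of_invertible M M' h1 h2 
  let e : m ≃ n := Fintype.equivOfCardEq hcard
  let N : Matrix n n K := M.submatrix e.symm id
  have h3 : N * (M'.submatrix id e.symm) = 1 := by
    rw [show N = M.submatrix e.symm id from rfl,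
      ← submatrix_mul _ _ e.symm id e.symm Function.bijective_id, h1, submatrix_one_equiv]
  refine ⟨N.det, ?_, ?_⟩
  · intro h0
    have := congrArg det h3
    rw [det_mul, h0, zero_mul, det_one] at this
    exact zero_ne_one this
  · have h4 : Mᵀ * A * M = Nᵀ * (A.submatrix e.symm e.symm) * N := by
      rw [show N = M.submatrix e.symm id from rfl, transpose_submatrix,
        submatrix_mul_equiv, submatrix_mul_equiv, submatrix_id_id]
    rw [h4, det_mul, det_mul, det_transpose, det_submatrix_equiv_self]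
    ring

end Field

end Pool.Agent.Lib.MP_12adaf_nt.TF
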