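import Mathlib
import Pool.Agent.Lib.MP_12adaf_nt.TF.Cong

/-!
# Witt cancellation, diagonalisation, complements
-/

namespace Pool.Agent.Lib.MP_12adaf_nt.TF

set_option linter.unusedSectionVars false
set_option linter.unusedVariables false

open Finset Matrix

variable {K : Type*} [Field K] [CharZero K] {l m n : Type*} [Fintype l] [DecidableEq l]
  [Fintype m] [DecidableEq m] [Fintype n] [DecidableEq n]

private lemma wt_sq1_eq (a : K) : sq1 a = a • (1 : Matrix (Fin 1) (Fin 1) K) := by
  rw [sq1, smul_one_eq_diagonal]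

private lemma wt_fin1 (P : Matrix (Fin 1) (Fin 1) K) : P = P 0 0 • (1 : Matrix (Fin 1) (Fin 1) K) := by
  ext i j
  fin_cases i
  fin_cases j
  simp

/-- Witt cancellation of a one dimensional form. -/
theorem witt_sq1 {a : K} (ha : a ≠ 0) {A : Matrix m m K} {B : Matrix n n K} (hA : A.IsSymm)
    (hB : B.IsSymm) (h : Cong (osum (sq1 a) A) (osum (sq1 a) B)) : Cong A B := by
  obtain ⟨M, M', h1, h2, h3⟩ := h
  -- the blocks
  obtain ⟨p, R, C, N, hM⟩ : ∃ (p : K) (R : Matrix (Fin 1) n K) (C : Matrix m (Fin 1) K)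
      (N : Matrix m n K), M = fromBlocks (p • 1) R C N :=
    ⟨M.toBlocks₁₁ 0 0, M.toBlocks₁₂, M.toBlocks₂₁, M.toBlocks₂₂, by
      rw [← wt_fin1, fromBlocks_toBlocks]⟩
  obtain ⟨q, R', C', N', hM'⟩ : ∃ (p : K) (R : Matrix (Fin 1) m K) (C : Matrix n (Fin 1) K)
      (N : Matrix n m K), M' = fromBlocks (p • 1) R C N :=
    ⟨M'.toBlocks₁₁ 0 0, M'.toBlocks₁₂, M'.toBlocks₂₁, M'.toBlocks₂₂, by
      rw [← wt_fin1, fromBlocks_toBlocks]⟩
  subst hM
  subst hM'
  have h4 : osum (sq1 a) B * fromBlocks (q • 1) R' C' N' =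
      (fromBlocks (p • 1) R C N)ᵀ * osum (sq1 a) A := by
    rw [← h3, Matrix.mul_assoc, h1, Matrix.mul_one]
  rw [osum, osum, wt_sq1_eq, fromBlocks_transpose, fromBlocks_multiply, fromBlocks_multiply,
    fromBlocks_inj] at h4
  have hpq : q = p := by
    have h5 := congrFun (congrFun h4.1 0) 0
    have h6 : q * a = a * p := by simpa using h5
    exact mul_left_cancel₀ ha ((mul_comm a q).trans h6)
  subst hpq
  rw [osum, osum, wt_sq1_eq, fromBlocks_transpose, fromBlocks_multiply, fromBlocks_multiply,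
    fromBlocks_inj] at h3
  rw [fromBlocks_multiply, ← fromBlocks_one, fromBlocks_inj] at h1 h2
  simp only [Matrix.mul_zero, Matrix.zero_mul, add_zero, zero_add, transpose_smul, transpose_one,
    Matrix.smul_mul, Matrix.mul_smul, Matrix.one_mul, Matrix.mul_one, smul_smul] at h1 h2 h3
  obtain ⟨e11, e12, e21, e22⟩ := h3
  obtain ⟨f11, f12, f21, f22⟩ := h1
  obtain ⟨g11, g12, g21, g22⟩ := h2
  -- the scalar
  obtain ⟨t, ht1⟩ : ∃ t : K, t ^ 2 * (1 - q ^ 2) - 2 * q * t - 1 = 0 := by
    by_cases hq : q = 1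
    · refine ⟨-1 / (1 + q), ?_⟩
      rw [hq]
      norm_num
    · have hq' : 1 - q ≠ 0 := sub_ne_zero.2 (Ne.symm hq)
      refine ⟨1 / (1 - q), ?_⟩
      field_simp
      ring
  have key1 : Cᵀ * A * N = -((a * q) • R) := by
    rw [eq_neg_iff_add_eq_zero, add_comm]
    rw [← e12]
  have key2 : Nᵀ * A * C = -((a * q) • Rᵀ) := by
    have := congrArg transpose key1
    rw [transpose_mul, transpose_mul, transpose_transpose, hA.eq, transpose_neg,
      transpose_smul, ← Matrix.mul_assoc] at this
    exact this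
  have key3 : Cᵀ * A * C = (a - a * q ^ 2) • (1 : Matrix (Fin 1) (Fin 1) K) := by
    rw [sub_smul, eq_sub_iff_add_eq, ← e11, add_comm]
    congr 1
    congr 1
    ring
  have key4 : Nᵀ * A * N = B - a • (Rᵀ * R) := by
    rw [eq_sub_iff_add_eq, ← e22, add_comm]
  refine ⟨N + t • (C * R), N' + t • (C' * R'), ?_, ?_, ?_⟩
  · have k1 : N * C' = -(q • C) := by
      rw [eq_neg_iff_add_eq_zero, add_comm]
      exact f21
    have k2 : R * N' = -(q • R') := by
      rw [eq_neg_iff_add_eq_zero, add_comm]
      exact f12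
    have k3 : R * C' = (1 - q ^ 2) • (1 : Matrix (Fin 1) (Fin 1) K) := by
      rw [sub_smul, one_smul, eq_sub_iff_add_eq, ← f11, add_comm]
      congr 1
      congr 1
      ring
    have k4 : N * N' = 1 - C * R' := by
      rw [eq_sub_iff_add_eq, ← f22, add_comm]
    calc (N + t • (C * R)) * (N' + t • (C' * R'))
        = N * N' + t • ((N * C') * R') + t • (C * (R * N')) +
            (t * t) • (C * (R * C') * R') := by
          simp only [Matrix.add_mul, Matrix.mul_add, Matrix.smul_mul, Matrix.mul_smul,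
            Matrix.mul_assoc]
          module
      _ = 1 + (t ^ 2 * (1 - q ^ 2) - 2 * q * t - 1) • (C * R') := by
          rw [k1, k2, k3, k4]
          simp only [Matrix.neg_mul, Matrix.mul_neg, Matrix.smul_mul, Matrix.mul_smul,
            Matrix.mul_one, smul_smul, smul_neg]
          module
      _ = 1 := by rw [ht1, zero_smul, add_zero]
  · have k1 : N' * C = -(q • C') := by
      rw [eq_neg_iff_add_eq_zero, add_comm]
      exact g21
    have k2 : R' * N = -(q • R) := by
      rw [eq_neg_iff_add_eq_zero, add_comm]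
      exact g12
    have k3 : R' * C = (1 - q ^ 2) • (1 : Matrix (Fin 1) (Fin 1) K) := by
      rw [sub_smul, one_smul, eq_sub_iff_add_eq, ← g11, add_comm]
      congr 1
      congr 1
      ring
    have k4 : N' * N = 1 - C' * R := by
      rw [eq_sub_iff_add_eq, ← g22, add_comm]
    calc (N' + t • (C' * R')) * (N + t • (C * R))
        = N' * N + t • ((N' * C) * R) + t • (C' * (R' * N)) +
            (t * t) • (C' * (R' * C) * R) := by
          simp only [Matrix.add_mul, Matrix.mul_add, Matrix.smul_mul, Matrix.mul_smul,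
            Matrix.mul_assoc]
          module
      _ = 1 + (t ^ 2 * (1 - q ^ 2) - 2 * q * t - 1) • (C' * R) := by
          rw [k1, k2, k3, k4]
          simp only [Matrix.neg_mul, Matrix.mul_neg, Matrix.smul_mul, Matrix.mul_smul,
            Matrix.mul_one, smul_smul, smul_neg]
          module
      _ = 1 := by rw [ht1, zero_smul, add_zero]
  · calc (N + t • (C * R))ᵀ * A * (N + t • (C * R))
        = Nᵀ * A * N + t • ((Nᵀ * A * C) * R) + t • (Rᵀ * (Cᵀ * A * N)) +
            (t * t) • (Rᵀ * (Cᵀ * A * C) * R) := by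
          simp only [transpose_add, transpose_smul, transpose_mul, Matrix.add_mul, Matrix.mul_add,
            Matrix.smul_mul, Matrix.mul_smul, Matrix.mul_assoc]
          module
      _ = B + (a * (t ^ 2 * (1 - q ^ 2) - 2 * q * t - 1)) • (Rᵀ * R) := by
          rw [key1, key2, key3, key4]
          simp only [Matrix.neg_mul, Matrix.mul_neg, Matrix.smul_mul, Matrix.mul_smul,
            Matrix.mul_one, smul_smul, smul_neg]
          module
      _ = B := by rw [ht1, mul_zero, zero_smul, add_zero]

private lemma wt_diag_succ {r : ℕ} (u : Fin (r + 1) → K) :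
    Cong (diagonal u) (osum (sq1 (u 0)) (diagonal fun i : Fin r => u i.succ)) := by
  rw [sq1, osum_diagonal]
  have h := Cong.diagonal_equiv u ((Equiv.sumCongr (Equiv.refl (Fin 1)) (Equiv.refl (Fin r))).trans
    (finSumFinEquiv.trans (finCongr (Nat.add_comm 1 r))))
  refine h.trans (Cong.of_eq ?_)
  congr 1
  ext i
  rcases i with i | i
  · have hi : i = 0 := Subsingleton.elim _ _
    subst hi
    simp only [Equiv.trans_apply, Equiv.sumCongr_apply, Sum.map_inl, Equiv.refl_apply,
      finSumFinEquiv_apply_left, Sum.elim_inl]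
    congr 1
  · simp only [Equiv.trans_apply, Equiv.sumCongr_apply, Sum.map_inr, Equiv.refl_apply,
      finSumFinEquiv_apply_right, Sum.elim_inr]
    congr 1
    ext
    simp [Nat.add_comm]

private lemma wt_fin {r : ℕ} : ∀ {u : Fin r → K} (hu : ∀ i, u i ≠ 0) {A : Matrix m m K}
    {B : Matrix n n K} (hA : A.IsSymm) (hB : B.IsSymm)
    (h : Cong (osum (diagonal u) A) (osum (diagonal u) B)), Cong A B := by
  induction r with
  | zero =>
    intro u hu A B hA hB h
    have e1 : ∀ {k : Type _} [Fintype k] [DecidableEq k] (D : Matrix k k K),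
        Cong (osum (diagonal u) D) D := by
      intro k _ _ D
      have h1 := Cong.submatrix (osum (diagonal u) D) (Equiv.emptySum (Fin 0) k).symm
      have h2 : (osum (diagonal u) D).submatrix (Equiv.emptySum (Fin 0) k).symm
          (Equiv.emptySum (Fin 0) k).symm = D := by
        ext i j
        simp [osum]
      rwa [h2] at h1
    have e2 : ∀ {k : Type _} [Fintype k] [DecidableEq k] (D : Matrix k k K),
        Cong (osum (diagonal u) D) D := by
      intro k _ _ D
      have h1 := Cong.submatrix (osum (diagonal u) D) (Equiv.emptySum (Fin 0) k).symm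
      have h2 : (osum (diagonal u) D).submatrix (Equiv.emptySum (Fin 0) k).symm
          (Equiv.emptySum (Fin 0) k).symm = D := by
        ext i j
        simp [osum]
      rwa [h2] at h1
    exact (e1 A).symm.trans (h.trans (e2 B))
  | succ r ih =>
    intro u hu A B hA hB h
    have h1 : Cong (osum (osum (sq1 (u 0)) (diagonal fun i : Fin r => u i.succ)) A)
        (osum (osum (sq1 (u 0)) (diagonal fun i : Fin r => u i.succ)) B) :=
      ((wt_diag_succ u).osum (Cong.refl A)).symm.trans
        (h.trans ((wt_diag_succ u).osum (Cong.refl B)))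
    have h2 := ((Cong.osum_assoc _ _ _).symm.trans h1).trans (Cong.osum_assoc _ _ _)
    have h3 := witt_sq1 (hu 0) (osum_isSymm (diagonal_transpose _) hA)
      (osum_isSymm (diagonal_transpose _) hB) h2
    exact ih (fun i => hu i.succ) hA hB h3

/-- Witt cancellation of a diagonal form. -/
theorem witt_diagonal {u : l → K} (hu : ∀ i, u i ≠ 0) {A : Matrix m m K} {B : Matrix n n K}
    (hA : A.IsSymm) (hB : B.IsSymm) (h : Cong (osum (diagonal u) A) (osum (diagonal u) B)) :
    Cong A B := by
  let e : Fin (Fintype.card l) ≃ l := (Fintype.equivFin l).symm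
  have h1 := Cong.diagonal_equiv u e
  exact wt_fin (fun i => hu (e i)) hA hB
    ((h1.osum (Cong.refl A)).symm.trans (h.trans (h1.osum (Cong.refl B))))

/-- An injective matrix with as many rows as columns is invertible. -/
private lemma wt_inv (hcard : Fintype.card n = Fintype.card m) (M : Matrix n m K)
    (hinj : ∀ x, M *ᵥ x = 0 → x = 0) : ∃ M' : Matrix m n K, M * M' = 1 ∧ M' * M = 1 := by
  let e : n ≃ m := Fintype.equivOfCardEq hcard
  let N : Matrix m m K := M.submatrix e.symm id
  have hN : N.det ≠ 0 := by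
    intro h0
    obtain ⟨x, hx, hx0⟩ := Matrix.exists_mulVec_eq_zero_iff.2 h0
    apply hx
    apply hinj
    funext i
    have := congrFun hx0 (e i)
    simpa [N, Matrix.mulVec, dotProduct] using this
  have h1 : N * N⁻¹ = 1 := Matrix.mul_nonsing_inv N (Ne.isUnit hN)
  have h2 : N⁻¹ * N = 1 := Matrix.nonsing_inv_mul N (Ne.isUnit hN)
  have h3 : M = N.submatrix e id := by
    ext i j
    simp [N]
  refine ⟨N⁻¹.submatrix id e, ?_, ?_⟩
  · rw [h3, ← Matrix.submatrix_mul _ _ e id e Function.bijective_id, h1, submatrix_one_equiv]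
  · rw [h3, submatrix_mul_equiv, h2, submatrix_id_id]

/-- Completion of a partial isometry of codimension one. -/
theorem cong_of_partial (hcard : Fintype.card n = Fintype.card m + 1) {S : Matrix n n K}
    (hS : S.IsSymm) (hdet : S.det ≠ 0) {E : Matrix n m K} {D : Matrix m m K}
    (hE : Eᵀ * S * E = D) (hD : D.det ≠ 0) : Cong S (osum D (sq1 (S.det * D.det))) := by
  -- a vector orthogonal to the columns of E
  obtain ⟨c, hc0, hc⟩ : ∃ c : n → K, c ≠ 0 ∧ (Eᵀ * S) *ᵥ c = 0 := by
    have h1 : LinearMap.ker (Matrix.toLin' (Eᵀ * S)) ≠ ⊥ := by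
      apply LinearMap.ker_ne_bot_of_finrank_lt
      rw [Module.finrank_fintype_fun_eq_card, Module.finrank_fintype_fun_eq_card, hcard]
      omega
    obtain ⟨c, hc, hc0⟩ := Submodule.exists_mem_ne_zero_of_ne_bot h1
    exact ⟨c, hc0, by simpa using hc⟩
  let Cm : Matrix n (Fin 1) K := Matrix.of fun i _ => c i
  have hCm : Eᵀ * S * Cm = 0 := by
    ext i j
    have := congrFun hc i
    simpa [Cm, Matrix.mul_apply, Matrix.mulVec, dotProduct] using this
  have hCm' : Cmᵀ * S * E = 0 := by
    have h1 := congrArg transpose hCm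
    rw [transpose_mul, transpose_mul, transpose_transpose, hS.eq, transpose_zero,
      ← Matrix.mul_assoc] at h1
    exact h1
  set γ : K := (Cmᵀ * S * Cm) 0 0 with hγ
  let M : Matrix n (m ⊕ Fin 1) K := Matrix.fromCols E Cm
  have hMSM : Mᵀ * S * M = osum D (sq1 γ) := by
    change (Matrix.fromCols E Cm)ᵀ * S * Matrix.fromCols E Cm = _
    rw [transpose_fromCols, fromRows_mul, fromRows_mul_fromCols, hE, hCm, hCm', osum]
    congr 1
    rw [wt_sq1_eq]
    exact wt_fin1 _
  have hinj : ∀ x, M *ᵥ x = 0 → x = 0 := by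
    intro x hx
    have h1 : E *ᵥ (fun i => x (Sum.inl i)) + Cm *ᵥ (fun i => x (Sum.inr i)) = 0 := by
      rw [← hx]
      change _ = (Matrix.fromCols E Cm) *ᵥ x
      rw [fromCols_mulVec]
      rfl
    have h2 : D *ᵥ (fun i => x (Sum.inl i)) = 0 := by
      have h3 := congrArg (fun z => (Eᵀ * S) *ᵥ z) h1
      simp only [mulVec_add, mulVec_mulVec, mulVec_zero] at h3
      rw [hE, hCm, zero_mulVec, add_zero] at h3
      exact h3
    have h3 : (fun i => x (Sum.inl i)) = 0 := by
      by_contra hne
      exact hD (Matrix.exists_mulVec_eq_zero_iff.1 ⟨_, hne, h2⟩)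
    rw [h3, mulVec_zero, zero_add] at h1
    have h4 : x (Sum.inr 0) = 0 := by
      obtain ⟨i, hi⟩ := Function.ne_iff.1 hc0
      have h5 := congrFun h1 i
      simp [Cm, Matrix.mulVec, dotProduct] at h5
      rcases h5 with h5 | h5
      · exact absurd h5 hi
      · exact h5
    funext i
    rcases i with i | i
    · exact congrFun h3 i
    · have hi : i = 0 := Subsingleton.elim _ _
      rw [hi]
      exact h4
  obtain ⟨M', hM1, hM2⟩ := wt_inv (by simp [hcard]) M hinj
  have hcong : Cong S (osum D (sq1 γ)) := ⟨M, M', hM1, hM2, hMSM⟩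
  obtain ⟨k, hk0, hk⟩ := hcong.det_eq
  rw [det_osum, det_sq1] at hk
  refine hcong.trans ((Cong.refl D).osum (Cong.sq1_of_eq (c := k / D.det) (div_ne_zero hk0 hD)
    ?_).symm)
  field_simp
  linear_combination hk

/-- Diagonalisation. -/
theorem exists_diagonal {S : Matrix n n K} (hS : S.IsSymm) (hdet : S.det ≠ 0) :
    ∃ u : n → K, (∀ i, u i ≠ 0) ∧ Cong S (diagonal u) := by
  have : Invertible (2 : K) := invertibleOfNonzero two_ne_zero
  obtain ⟨v, hv⟩ := LinearMap.BilinForm.exists_orthogonal_basis (V := n → K)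
    (B := Matrix.toBilin' S) (by
      refine ⟨fun x y => ?_⟩
      rw [Matrix.toBilin'_apply', Matrix.toBilin'_apply', dotProduct_comm, ← hS.eq,
        mulVec_transpose, ← dotProduct_mulVec, hS.eq]
      rfl)
  let e : Fin (Module.finrank K (n → K)) ≃ n :=
    (finCongr (Module.finrank_fintype_fun_eq_card K)).trans (Fintype.equivFin n).symm
  let w := v.reindex e
  let M : Matrix n n K := Matrix.of fun i j => w j i
  have hinj : ∀ x, M *ᵥ x = 0 → x = 0 := by
    intro x hx
    have h1 : ∑ j, x j • w j = 0 := by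
      funext i
      have h2 := congrFun hx i
      rw [Finset.sum_apply]
      simp only [Pi.smul_apply, smul_eq_mul, Pi.zero_apply]
      simp only [M, Matrix.mulVec, dotProduct, of_apply, Pi.zero_apply] at h2
      rw [← h2]
      exact Finset.sum_congr rfl fun j _ => mul_comm _ _
    have h3 := Fintype.linearIndependent_iff.1 w.linearIndependent x h1
    exact funext h3
  obtain ⟨M', hM1, hM2⟩ := wt_inv rfl M hinj
  have hoff : ∀ i j, i ≠ j → (Mᵀ * S * M) i j = 0 := by
    intro i j hij
    have h1 : (Mᵀ * S * M) i j = Matrix.toBilin' S (w i) (w j) := by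
      rw [Matrix.toBilin'_apply', Matrix.mul_assoc]
      rfl
    rw [h1]
    change Matrix.toBilin' S (v.reindex e i) (v.reindex e j) = 0
    rw [Module.Basis.reindex_apply, Module.Basis.reindex_apply]
    exact hv (fun h => hij (e.symm.injective h))
  have hd : Mᵀ * S * M = diagonal fun i => (Mᵀ * S * M) i i := by
    ext i j
    by_cases hij : i = j
    · rw [hij, diagonal_apply_eq]
    · rw [diagonal_apply_ne _ hij, hoff i j hij]
  have hcong : Cong S (diagonal fun i => (Mᵀ * S * M) i i) := ⟨M, M', hM1, hM2, hd⟩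
  refine ⟨_, ?_, hcong⟩
  obtain ⟨k, hk0, hk⟩ := hcong.det_eq
  rw [det_diagonal] at hk
  have h1 : ∏ i, (Mᵀ * S * M) i i ≠ 0 := by
    rw [hk]
    exact mul_ne_zero hdet (pow_ne_zero 2 hk0)
  intro i
  exact Finset.prod_ne_zero_iff.1 h1 i (Finset.mem_univ i)

/-- A form representing `a ≠ 0` splits off `a x ^ 2`. -/
theorem exists_split {r : ℕ} {S : Matrix (Fin (r + 1)) (Fin (r + 1)) K} (hS : S.IsSymm)
    (hdet : S.det ≠ 0) {v : Fin (r + 1) → K} {a : K} (ha : a ≠ 0) (hv : v ⬝ᵥ S *ᵥ v = a) :
    ∃ u : Fin r → K, (∀ i, u i ≠ 0) ∧ Cong S (osum (sq1 a) (diagonal u)) := by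
  let φ : (Fin (r + 1) → K) →ₗ[K] K :=
    { toFun := fun x => v ⬝ᵥ S *ᵥ x
      map_add' := fun x y => by rw [mulVec_add, dotProduct_add]
      map_smul' := fun c x => by rw [mulVec_smul, dotProduct_smul]; rfl }
  have hφ : φ v = a := hv
  have hrank : Module.finrank K (LinearMap.ker φ) = r := by
    have h1 := LinearMap.finrank_range_add_finrank_ker φ
    have h2 : LinearMap.range φ = ⊤ := by
      rw [LinearMap.range_eq_top]
      intro z
      refine ⟨(z / a) • v, ?_⟩
      rw [map_smul, hφ, smul_eq_mul, div_mul_cancel₀ _ ha]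
    rw [h2, finrank_top, Module.finrank_self, Module.finrank_fintype_fun_eq_card,
      Fintype.card_fin] at h1
    omega
  let b := Module.finBasisOfFinrankEq K (LinearMap.ker φ) hrank
  let W : Matrix (Fin (r + 1)) (Fin r) K := Matrix.of fun i j => (b j : Fin (r + 1) → K) i
  let V : Matrix (Fin (r + 1)) (Fin 1) K := Matrix.of fun i _ => v i
  have hVW : Vᵀ * S * W = 0 := by
    ext i j
    have h1 : φ (b j) = 0 := (b j).2
    rw [Matrix.mul_assoc]
    exact h1
  have hWV : Wᵀ * S * V = 0 := by
    have h1 := congrArg transpose hVW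
    rw [transpose_mul, transpose_mul, transpose_transpose, hS.eq, transpose_zero,
      ← Matrix.mul_assoc] at h1
    exact h1
  have hVV : Vᵀ * S * V = sq1 a := by
    rw [wt_sq1_eq]
    have h1 : (Vᵀ * S * V) 0 0 = a := by
      rw [Matrix.mul_assoc]
      exact hv
    rw [wt_fin1 (Vᵀ * S * V), h1]
  let M : Matrix (Fin (r + 1)) (Fin 1 ⊕ Fin r) K := Matrix.fromCols V W
  have hMSM : Mᵀ * S * M = osum (sq1 a) (Wᵀ * S * W) := by
    change (Matrix.fromCols V W)ᵀ * S * Matrix.fromCols V W = _
    rw [transpose_fromCols, fromRows_mul, fromRows_mul_fromCols, hVV, hVW, hWV, osum]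
  have hinj : ∀ x, M *ᵥ x = 0 → x = 0 := by
    intro x hx
    have h1 : V *ᵥ (fun i => x (Sum.inl i)) + W *ᵥ (fun i => x (Sum.inr i)) = 0 := by
      rw [← hx]
      change _ = (Matrix.fromCols V W) *ᵥ x
      rw [fromCols_mulVec]
      rfl
    have hW : W *ᵥ (fun i => x (Sum.inr i)) =
        ((∑ j, x (Sum.inr j) • b j : LinearMap.ker φ) : Fin (r + 1) → K) := by
      rw [Submodule.coe_sum]
      funext i
      rw [Finset.sum_apply]
      simp only [W, Matrix.mulVec, dotProduct, of_apply, Submodule.coe_smul, Pi.smul_apply,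
        smul_eq_mul]
      exact Finset.sum_congr rfl fun j _ => mul_comm _ _
    have hV : V *ᵥ (fun i => x (Sum.inl i)) = x (Sum.inl 0) • v := by
      funext i
      simp [V, Matrix.mulVec, dotProduct, mul_comm]
    rw [hV, hW] at h1
    have h2 : x (Sum.inl 0) = 0 := by
      have h3 := congrArg φ h1
      rw [map_add, map_smul, hφ, map_zero, (∑ j, x (Sum.inr j) • b j : LinearMap.ker φ).2,
        add_zero, smul_eq_mul] at h3
      rcases mul_eq_zero.1 h3 with h3 | h3
      · exact h3
      · exact absurd h3 ha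
    rw [h2, zero_smul, zero_add] at h1
    have h3 : ∑ j, x (Sum.inr j) • b j = 0 := Subtype.ext h1
    have h4 := Fintype.linearIndependent_iff.1 b.linearIndependent _ h3
    funext i
    rcases i with i | i
    · have hi : i = 0 := Subsingleton.elim _ _
      rw [hi]
      exact h2
    · exact h4 i
  obtain ⟨M', hM1, hM2⟩ := wt_inv (by simp [Nat.add_comm]) M hinj
  have hcong : Cong S (osum (sq1 a) (Wᵀ * S * W)) := ⟨M, M', hM1, hM2, hMSM⟩
  have hS' : (Wᵀ * S * W).IsSymm := by
    unfold Matrix.IsSymm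
    rw [transpose_mul, transpose_mul, transpose_transpose, hS.eq, Matrix.mul_assoc]
  have hdet' : (Wᵀ * S * W).det ≠ 0 := by
    obtain ⟨k, hk0, hk⟩ := hcong.det_eq
    rw [det_osum, det_sq1] at hk
    intro h0
    rw [h0, mul_zero] at hk
    exact mul_ne_zero hdet (pow_ne_zero 2 hk0) hk.symm
  obtain ⟨u, hu, hcu⟩ := exists_diagonal hS' hdet'
  exact ⟨u, hu, hcong.trans ((Cong.refl _).osum hcu)⟩

/-- Binary forms. -/
theorem cong_binary {x x' δ r s c : K} (hx : x ≠ 0) (hx' : x' ≠ 0) (hc : c ≠ 0)
    (h : x * x' * c ^ 2 = r ^ 2 + δ * s ^ 2) :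
    Cong (diagonal ![x, δ * x]) (diagonal ![x', δ * x']) := by
  refine ⟨(x * c)⁻¹ • !![r, -(δ * s); s, r], (x' * c)⁻¹ • !![r, δ * s; -s, r], ?_, ?_, ?_⟩
  · ext i j
    fin_cases i <;> fin_cases j <;>
      simp [Matrix.mul_apply, Fin.sum_univ_two] <;> field_simp <;>
      first | linear_combination (-1) * h | ring
  · ext i j
    fin_cases i <;> fin_cases j <;>
      simp [Matrix.mul_apply, Fin.sum_univ_two] <;> field_simp <;>
      first | linear_combination (-1) * h | ring
  · ext i j
    fin_cases i <;> fin_cases j <;>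
      simp [Matrix.mul_apply, Fin.sum_univ_two, Matrix.diagonal] <;> field_simp <;>
      first | linear_combination (-1) * h | linear_combination (-δ) * h | ring

end Pool.Agent.Lib.MP_12adaf_nt.TF
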