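import Mathlib
import Pool.Agent.Lib.MP_12adaf_nt.HM.Basic
import Pool.Agent.Lib.MP_12adaf_nt.TF.Witt

section

/-!
# Quadratic extensions: definitions
-/

namespace Pool.Agent.Lib.MP_12adaf_nt.HM

open NumberField IsDedekindDomain IsDedekindDomain.HeightOneSpectrum

/-- `E` is the quadratic extension `k(√x)`. -/
structure QExt (k E : Type*) [Field k] [Field E] [Algebra k E] (x : k) where
  /-- The square root of `x`. -/
  θ : E
  /-- The conjugation. -/
  σ : E ≃ₐ[k] E
  θ_sq : θ ^ 2 = algebraMap k E x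
  σθ : σ θ = -θ
  gen : ∀ z : E, ∃ a b : k, z = algebraMap k E a + algebraMap k E b * θ

/-- The place under a place. -/
noncomputable def plUnder (k : Type*) {E : Type*} [Field k] [NumberField k] [Field E]
    [NumberField E] [Algebra k E] : Pl E → Pl k
  | .inl w => .inl (w.comap (algebraMap k E))
  | .inr w => .inr (w.under (𝓞 k))

end Pool.Agent.Lib.MP_12adaf_nt.HM
end

section

/-!
# Squares and surjections onto the integers
-/

namespace Pool.Agent.Lib.MP_12adaf_nt.HM

private lemma sqI_congr {G H : Type*} [CommGroup G] [CommGroup H] (e : G ≃* H) :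
    sqI G = sqI H := by
  have h1 : (powMonoidHom 2 : G →* G).range = ((powMonoidHom 2 : H →* H).range).comap
      (e : G →* H) := by
    ext x
    rw [Subgroup.mem_comap]
    constructor
    · rintro ⟨y, rfl⟩
      exact ⟨e y, by simp [powMonoidHom_apply]⟩
    · rintro ⟨y, hy⟩
      refine ⟨e.symm y, ?_⟩
      rw [powMonoidHom_apply] at hy ⊢
      rw [← map_pow, hy]
      simp
  unfold sqI
  rw [h1]
  exact Subgroup.index_comap_of_surjective _ e.surjective

private lemma sqI_prod (G H : Type*) [CommGroup G] [CommGroup H] :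
    sqI (G × H) = sqI G * sqI H := by
  have h1 : (powMonoidHom 2 : G × H →* G × H).range =
      ((powMonoidHom 2 : G →* G).range).prod ((powMonoidHom 2 : H →* H).range) := by
    ext x
    rw [Subgroup.mem_prod]
    constructor
    · rintro ⟨y, rfl⟩
      exact ⟨⟨y.1, rfl⟩, ⟨y.2, rfl⟩⟩
    · rintro ⟨⟨y, hy⟩, ⟨z, hz⟩⟩
      exact ⟨(y, z), Prod.ext hy hz⟩
  unfold sqI
  rw [h1, Subgroup.index_prod]

private lemma sqI_int : sqI (Multiplicative ℤ) = 2 := by
  unfold sqI
  rw [Subgroup.index_eq_two_iff]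
  refine ⟨Multiplicative.ofAdd 1, fun b => ?_⟩
  have h1 : ∀ c : Multiplicative ℤ,
      c ∈ (powMonoidHom 2 : Multiplicative ℤ →* Multiplicative ℤ).range ↔
        Even (Multiplicative.toAdd c) := by
    intro c
    constructor
    · rintro ⟨d, rfl⟩
      exact ⟨Multiplicative.toAdd d, by rw [powMonoidHom_apply, sq, toAdd_mul]⟩
    · rintro ⟨d, hd⟩
      refine ⟨Multiplicative.ofAdd d, ?_⟩
      rw [powMonoidHom_apply, sq, ← ofAdd_add, ← hd, ofAdd_toAdd]
  rw [h1, h1, toAdd_mul, toAdd_ofAdd]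
  rcases Int.even_or_odd (Multiplicative.toAdd b) with h | h
  · right
    refine ⟨h, ?_⟩
    rw [Int.not_even_iff_odd]
    exact h.add_one
  · left
    refine ⟨h.add_one, ?_⟩
    rw [Int.not_even_iff_odd]
    exact h

/-- **Job HM-02.** The index of the squares, for a surjection onto the integers.

Proof. Choose `t ∈ G` with `f t = ofAdd 1`. Then `G = ker f × ⟨t⟩` (internal direct product, `t` of
infinite order modulo the kernel). `x ∈ G` is a square iff `f x` is even and `x t^(-f x)` is the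
square of an element of `ker f`. So `[G : G²] = 2 [H : H²]` with `H = ker f`. One way: the map
`G → (H ⧸ H²) × ZMod 2`, `x ↦ (x t^(-f x), f x mod 2)` is a surjective homomorphism with kernel the
squares of `G`. -/
theorem sqI_of_surj {G : Type*} [CommGroup G] (f : G →* Multiplicative ℤ)
    (hf : Function.Surjective f) : sqI G = 2 * sqI f.ker := by
  obtain ⟨t, ht⟩ := hf (Multiplicative.ofAdd 1)
  have hft : ∀ n : ℤ, f (t ^ n) = Multiplicative.ofAdd n := by
    intro n
    rw [map_zpow, ht, ← ofAdd_zsmul, smul_eq_mul, mul_one]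
  let e : f.ker × Multiplicative ℤ ≃* G :=
    { toFun := fun x => (x.1 : G) * t ^ (Multiplicative.toAdd x.2)
      invFun := fun g => (⟨g * t ^ (-(Multiplicative.toAdd (f g))), by
        rw [MonoidHom.mem_ker, map_mul, hft, ofAdd_neg, ofAdd_toAdd, mul_inv_cancel]⟩, f g)
      left_inv := by
        rintro ⟨⟨h, hh⟩, n⟩
        rw [MonoidHom.mem_ker] at hh
        have h1 : f (h * t ^ (Multiplicative.toAdd n)) = n := by
          rw [map_mul, hh, hft, one_mul, ofAdd_toAdd]
        refine Prod.ext (Subtype.ext ?_) h1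
        show h * t ^ (Multiplicative.toAdd n) *
          t ^ (-(Multiplicative.toAdd (f (h * t ^ (Multiplicative.toAdd n))))) = h
        rw [h1, mul_assoc, ← zpow_add, add_neg_cancel, zpow_zero, mul_one]
      right_inv := by
        intro g
        show g * t ^ (-(Multiplicative.toAdd (f g))) * t ^ (Multiplicative.toAdd (f g)) = g
        rw [mul_assoc, ← zpow_add, neg_add_cancel, zpow_zero, mul_one]
      map_mul' := by
        rintro ⟨⟨h, hh⟩, n⟩ ⟨⟨h', hh'⟩, n'⟩
        show h * h' * t ^ (Multiplicative.toAdd (n * n')) =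
          h * t ^ (Multiplicative.toAdd n) * (h' * t ^ (Multiplicative.toAdd n'))
        rw [toAdd_mul, zpow_add]
        exact mul_mul_mul_comm _ _ _ _ }
  rw [← sqI_congr e, sqI_prod, sqI_int, mul_comm]

end Pool.Agent.Lib.MP_12adaf_nt.HM
end

section

/-!
# Almost all valuations are trivial
-/

namespace Pool.Agent.Lib.MP_12adaf_nt.HM

open NumberField IsDedekindDomain

variable {k : Type*} [Field k] [NumberField k]

/-- **Job HM-08.** Almost all valuations of a nonzero element are trivial. -/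
theorem finite_valuation_ne_one {x : k} (hx : x ≠ 0) :
    {v : HeightOneSpectrum (𝓞 k) | v.valuation k x ≠ 1}.Finite := by
  have h1 := HeightOneSpectrum.Support.finite (𝓞 k) x
  have h2 := HeightOneSpectrum.Support.finite (𝓞 k) x⁻¹
  refine (h1.union h2).subset ?_
  intro v hv
  rw [Set.mem_setOf_eq] at hv
  rcases lt_or_gt_of_ne hv with h | h
  · right
    show 1 < v.valuation k x⁻¹
    rw [map_inv₀]
    have h0 : 0 < v.valuation k x := by
      rw [zero_lt_iff]
      exact (Valuation.ne_zero_iff _).mpr hx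
    exact (one_lt_inv₀ h0).mpr h
  · left
    exact h

end Pool.Agent.Lib.MP_12adaf_nt.HM
end

section

/-!
# Squares and residues
-/

namespace Pool.Agent.Lib.MP_12adaf_nt.HM

open IsLocalRing

section DVR

variable {O K : Type*} [CommRing O] [IsDomain O] [IsDiscreteValuationRing O]
  [HenselianLocalRing O] [Finite (ResidueField O)] [Field K] [Algebra O K] [IsFractionRing O K]

/-- **Job HM-11.** Units which are squares modulo the maximal ideal, odd residue characteristic:
Hensel's lemma for `X ^ 2 - u`. -/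
theorem isSquare_of_residue (h2 : IsUnit (2 : O)) (u : Oˣ) (h : IsSquare (residue O (u : O))) :
    IsSquare (u : O) := by
  obtain ⟨r, hr⟩ := h
  obtain ⟨a₀, rfl⟩ := residue_surjective (R := O) r
  have hu : residue O (u : O) ≠ 0 := by
    rw [Ne, residue_eq_zero_iff, mem_maximalIdeal, mem_nonunits_iff, not_not]
    exact u.isUnit
  have ha : IsUnit a₀ := by
    by_contra hna
    have h1 : residue O a₀ = 0 := by
      rw [residue_eq_zero_iff, mem_maximalIdeal]
      exact hna
    apply hu
    rw [hr, h1, mul_zero]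
  obtain ⟨a, ha1, -⟩ := HenselianLocalRing.is_henselian (Polynomial.X ^ 2 - Polynomial.C (u : O))
    (Polynomial.monic_X_pow_sub_C (u : O) (by norm_num)) a₀ (by
      rw [← residue_eq_zero_iff]
      simp only [Polynomial.eval_sub, Polynomial.eval_pow, Polynomial.eval_X, Polynomial.eval_C,
        map_sub, map_pow]
      rw [hr]
      ring) (by
      simp only [Polynomial.derivative_sub, Polynomial.derivative_X_pow, Polynomial.derivative_C,
        sub_zero, Polynomial.eval_mul, Polynomial.eval_C, Polynomial.eval_pow, Polynomial.eval_X,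
        Polynomial.eval_natCast, Polynomial.map_natCast]
      norm_num
      exact ⟨h2, ha⟩)
  refine ⟨a, ?_⟩
  rw [Polynomial.IsRoot, Polynomial.eval_sub, Polynomial.eval_pow, Polynomial.eval_X,
    Polynomial.eval_C, sub_eq_zero] at ha1
  rw [← ha1]
  ring

end DVR

end Pool.Agent.Lib.MP_12adaf_nt.HM
end

section

/-!
# Valuations
-/

namespace Pool.Agent.Lib.MP_12adaf_nt.HM

open IsLocalRing

section DVR

variable {O K : Type*} [CommRing O] [Field K] [Algebra O K]

/-- `x` has valuation `n` with respect to the uniformizer `p`. -/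
def HasOrd (p : O) (x : K) (n : ℤ) : Prop :=
  ∃ u : Oˣ, x = algebraMap O K p ^ n * algebraMap O K (u : O)

end DVR

end Pool.Agent.Lib.MP_12adaf_nt.HM
end

section

section

/-!
# The integers of the completions are Henselian
-/

namespace Pool.Agent.Lib.MP_12adaf_nt.HM

open NumberField IsDedekindDomain IsDedekindDomain.HeightOneSpectrum IsLocalRing

variable {k : Type*} [Field k] [NumberField k]

private lemma compact_fin (w : HeightOneSpectrum (𝓞 k)) :
    CompactSpace (w.adicCompletionIntegers k) :=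
  Valued.integer.properSpace_iff_compactSpace_integer.1 (proper_fin w)

open scoped Pointwise in
private lemma adicComplete_fin (w : HeightOneSpectrum (𝓞 k)) :
    IsAdicComplete (maximalIdeal (w.adicCompletionIntegers k)) (w.adicCompletionIntegers k) := by
  have hc := compact_fin w
  have hH : IsHausdorff (maximalIdeal (w.adicCompletionIntegers k))
      (w.adicCompletionIntegers k) := inferInstance
  refine { toIsHausdorff := hH, toIsPrecomplete := ⟨?_⟩ }
  intro f hf
  set I := maximalIdeal (w.adicCompletionIntegers k) with hI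
  let S : ℕ → Set (w.adicCompletionIntegers k) :=
    fun n => f n +ᵥ ((I ^ n : Ideal (w.adicCompletionIntegers k)) : Set (w.adicCompletionIntegers k))
  have hS n : S (n + 1) ⊆ S n := by
    apply (Set.vadd_set_subset_vadd_set_iff.mpr (Ideal.pow_le_pow_right n.le_succ)).trans
    simpa [S] using (hf n.le_succ).symm
  have h n : IsClosed (S n) := (IsNoetherianRing.isClosed_ideal (I ^ n)).vadd (f n)
  obtain ⟨L, hL⟩ := (h 0).isCompact.nonempty_iInter_of_sequence_nonempty_isCompact_isClosed S hS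
    (by intro n; simp [S]) h
  refine ⟨L, fun n ↦ ?_⟩
  obtain ⟨y, hy, hyL⟩ := Set.mem_iInter.mp hL n
  rw [← hyL]
  simpa [SModEq.sub_mem] using hy

/-- **Job HM-21.** The integers of the completions are Henselian.

Proof. The integers form a compact ring (`w.adicCompletion k` is a proper space, `proper_fin`), a
discrete valuation ring, complete for the valuation. Show that it is adically complete for its
maximal ideal (compare `Mathlib/NumberTheory/LocalField/Basic.lean`, instance `IsAdicComplete`,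
whose proof works verbatim: a decreasing sequence of nonempty closed sets
`f n + 𝔪 ^ n` in a compact space; or use completeness of the norm), and use
`IsAdicComplete.henselianRing`. -/
theorem henselian_fin (w : HeightOneSpectrum (𝓞 k)) :
    HenselianLocalRing (w.adicCompletionIntegers k) := by
  have h := adicComplete_fin w
  have h2 : HenselianRing (w.adicCompletionIntegers k)
    (maximalIdeal (w.adicCompletionIntegers k)) := inferInstance
  refine { is_henselian := ?_ }
  intro f hf a₀ h₁ h₂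
  exact h2.is_henselian f hf a₀ h₁ (h₂.map _)

end Pool.Agent.Lib.MP_12adaf_nt.HM
end

section

/-!
# Instances for the completions
-/

namespace Pool.Agent.Lib.MP_12adaf_nt.HM

open NumberField IsDedekindDomain IsDedekindDomain.HeightOneSpectrum IsLocalRing

variable {k : Type*} [Field k] [NumberField k]

noncomputable instance (w : HeightOneSpectrum (𝓞 k)) :
    HenselianLocalRing (w.adicCompletionIntegers k) := henselian_fin w

instance (w : HeightOneSpectrum (𝓞 k)) :
    Finite (ResidueField (w.adicCompletionIntegers k)) := finite_residue_fin w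

end Pool.Agent.Lib.MP_12adaf_nt.HM
end
end

section

/-!
# Dictionary for the completions
-/

namespace Pool.Agent.Lib.MP_12adaf_nt.HM

open NumberField IsDedekindDomain IsDedekindDomain.HeightOneSpectrum IsLocalRing

variable {k : Type*} [Field k] [NumberField k]

private lemma v_le_one_aux (w : HeightOneSpectrum (𝓞 k)) (x : w.adicCompletion k) :
    ‖x‖ ≤ 1 ↔ Valued.v x ≤ 1 := Valued.toNormedField.norm_le_one_iff

private lemma v_lt_one_aux (w : HeightOneSpectrum (𝓞 k)) (x : w.adicCompletion k) :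
    ‖x‖ < 1 ↔ Valued.v x < 1 := Valued.toNormedField.norm_lt_one_iff

private lemma v_eq_one_aux (w : HeightOneSpectrum (𝓞 k)) (x : w.adicCompletion k) :
    ‖x‖ = 1 ↔ Valued.v x = 1 := by
  constructor
  · intro h
    refine le_antisymm ((v_le_one_aux w x).1 h.le) (not_lt.1 fun h' => ?_)
    exact absurd ((v_lt_one_aux w x).2 h') (by rw [h]; exact lt_irrefl _)
  · intro h
    refine le_antisymm ((v_le_one_aux w x).2 h.le) (not_lt.1 fun h' => ?_)
    exact absurd ((v_lt_one_aux w x).1 h') (by rw [h]; exact lt_irrefl _)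

/-- **Job HM-23.** Dictionary: the integers of the completion. -/
theorem norm_le_one_iff (w : HeightOneSpectrum (𝓞 k)) (x : w.adicCompletion k) :
    ‖x‖ ≤ 1 ↔ x ∈ (algebraMap (w.adicCompletionIntegers k) (w.adicCompletion k)).range := by
  rw [v_le_one_aux]
  constructor
  · intro h
    exact ⟨⟨x, h⟩, rfl⟩
  · rintro ⟨y, rfl⟩
    exact y.2

/-- Dictionary: units of the completion. (Same job, HM-23.) -/
theorem norm_eq_one_iff (w : HeightOneSpectrum (𝓞 k)) (x : w.adicCompletion k) :
    ‖x‖ = 1 ↔ ∃ u : (w.adicCompletionIntegers k)ˣ,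
      x = algebraMap (w.adicCompletionIntegers k) (w.adicCompletion k) u := by
  rw [v_eq_one_aux]
  constructor
  · intro h
    have hu : IsUnit (⟨x, h.le⟩ : w.adicCompletionIntegers k) :=
      adicCompletionIntegers.isUnit_iff_valued_eq_one.2 h
    obtain ⟨u, hu⟩ := hu
    exact ⟨u, by rw [hu]; rfl⟩
  · rintro ⟨u, rfl⟩
    exact adicCompletionIntegers.isUnit_iff_valued_eq_one.1 u.isUnit

/-- Dictionary: the norm and the valuation. (Same job, HM-23.) -/
theorem valuation_eq_one_iff (w : HeightOneSpectrum (𝓞 k)) (x : k) :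
    w.valuation k x = 1 ↔ ‖algebraMap k (w.adicCompletion k) x‖ = 1 := by
  rw [v_eq_one_aux]
  have := valuedAdicCompletion_eq_valuation' (v := w) x
  change Valued.v (algebraMap k (w.adicCompletion k) x) = _ at this
  rw [this]

/-- Dictionary: if `2` has valuation one then it is a unit. (Same job, HM-23.) -/
theorem isUnit_two_fin {w : HeightOneSpectrum (𝓞 k)} (h2 : w.valuation k 2 = 1) :
    IsUnit (2 : w.adicCompletionIntegers k) := by
  rw [adicCompletionIntegers.isUnit_iff_valued_eq_one]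
  have := valuedAdicCompletion_eq_valuation' (v := w) (2 : k)
  change Valued.v (algebraMap k (w.adicCompletion k) 2) = _ at this
  rw [map_ofNat] at this
  rw [← h2, ← this]
  rfl

end Pool.Agent.Lib.MP_12adaf_nt.HM
end

section

/-!
# Diagonal forms: definitions
-/

namespace Pool.Agent.Lib.MP_12adaf_nt.HM

open TF Matrix

/-- The diagonal form `∑ a i * x i ^ 2` is isotropic. -/
def Isot {ι K : Type*} [Fintype ι] [Field K] (a : ι → K) : Prop :=
  ∃ x : ι → K, x ≠ 0 ∧ ∑ i, a i * x i ^ 2 = 0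

/-- The diagonal form `∑ a i * x i ^ 2` represents `c`. -/
def Reps {ι K : Type*} [Fintype ι] [Field K] (a : ι → K) (c : K) : Prop :=
  ∃ x : ι → K, ∑ i, a i * x i ^ 2 = c

/-- Isometry of diagonal forms. -/
def CD {ι κ K : Type*} [Fintype ι] [DecidableEq ι] [Fintype κ] [DecidableEq κ] [Field K]
    (a : ι → K) (b : κ → K) : Prop := Cong (diagonal a) (diagonal b)

/-- The hyperbolic form of rank `2 r`. -/
def hy {K : Type*} [Field K] (r : ℕ) : Fin r ⊕ Fin r → K :=
  Sum.elim (fun _ => 1) fun _ => -1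

section

variable {ι κ μ ν K : Type*} [Fintype ι] [DecidableEq ι] [Fintype κ] [DecidableEq κ] [Fintype μ]
  [DecidableEq μ] [Fintype ν] [DecidableEq ν] [Field K]

lemma CD.refl (a : ι → K) : CD a a := Cong.refl _

lemma CD.symm {a : ι → K} {b : κ → K} (h : CD a b) : CD b a := Cong.symm h

lemma CD.trans {a : ι → K} {b : κ → K} {c : μ → K} (h : CD a b) (h' : CD b c) : CD a c :=
  Cong.trans h h'

lemma CD.map {L : Type*} [Field L] (φ : K →+* L) {a : ι → K} {b : κ → K} (h : CD a b) :
    CD (fun i => φ (a i)) (fun i => φ (b i)) := by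
  have h1 := Cong.map φ h
  rwa [diagonal_map (map_zero φ), diagonal_map (map_zero φ)] at h1

lemma CD.add {a : ι → K} {b : κ → K} {a' : μ → K} {b' : ν → K} (h : CD a b) (h' : CD a' b') :
    CD (Sum.elim a a') (Sum.elim b b') := by
  have h1 := Cong.osum h h'
  rwa [osum_diagonal, osum_diagonal] at h1

lemma CD.reindex (a : ι → K) (e : κ ≃ ι) : CD a (fun i => a (e i)) := Cong.diagonal_equiv a e

lemma CD.mul_sq (a c : ι → K) (hc : ∀ i, c i ≠ 0) : CD a (fun i => a i * c i ^ 2) :=
  Cong.diagonal_mul_sq a c hc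

lemma CD.cancel [CharZero K] {u : ι → K} (hu : ∀ i, u i ≠ 0) {a : κ → K} {b : μ → K}
    (h : CD (Sum.elim u a) (Sum.elim u b)) : CD a b := by
  have h1 : Cong (osum (diagonal u) (diagonal a)) (osum (diagonal u) (diagonal b)) := by
    rw [osum_diagonal, osum_diagonal]
    exact h
  exact witt_diagonal hu (diagonal_transpose _) (diagonal_transpose _) h1

lemma CD.comm (a : ι → K) (b : κ → K) : CD (Sum.elim a b) (Sum.elim b a) := by
  have h := CD.reindex (Sum.elim a b) (Equiv.sumComm κ ι)
  refine h.trans ?_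
  have : (fun i => Sum.elim a b (Equiv.sumComm κ ι i)) = Sum.elim b a := by
    ext i; rcases i with i | i <;> rfl
  rw [this]
  exact CD.refl _

lemma CD.assoc (a : ι → K) (b : κ → K) (c : μ → K) :
    CD (Sum.elim (Sum.elim a b) c) (Sum.elim a (Sum.elim b c)) := by
  have h := CD.reindex (Sum.elim (Sum.elim a b) c) (Equiv.sumAssoc ι κ μ).symm
  refine h.trans ?_
  have : (fun i => Sum.elim (Sum.elim a b) c ((Equiv.sumAssoc ι κ μ).symm i)) =
      Sum.elim a (Sum.elim b c) := by
    ext i; rcases i with i | i | i <;> rfl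
  rw [this]
  exact CD.refl _

end

end Pool.Agent.Lib.MP_12adaf_nt.HM
end

section

/-!
# Weak approximation for special orthogonal groups
-/

namespace Pool.Agent.Lib.MP_12adaf_nt.TF

set_option linter.unusedSectionVars false
set_option linter.unusedVariables false

open Finset Filter Topology Matrix

section Refl

variable {K : Type*} [Field K] {n : ℕ}

/-- The value of the quadratic form with matrix `Q`. -/
def owQ (Q : Matrix (Fin n) (Fin n) K) (w : Fin n → K) : K := w ⬝ᵥ (Q *ᵥ w)

/-- The reflection in `w` (the identity when `w` is isotropic). -/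
def owRefl (Q : Matrix (Fin n) (Fin n) K) (w : Fin n → K) : Matrix (Fin n) (Fin n) K :=
  1 - (2 / owQ Q w) • vecMulVec w (Q *ᵥ w)

lemma owRefl_mulVec (Q : Matrix (Fin n) (Fin n) K) (w x : Fin n → K) :
    owRefl Q w *ᵥ x = x - (2 / owQ Q w * ((Q *ᵥ w) ⬝ᵥ x)) • w := by
  rw [owRefl, sub_mulVec, one_mulVec, smul_mulVec, vecMulVec_mulVec]
  ext i
  simp only [Pi.sub_apply, Pi.smul_apply, MulOpposite.smul_eq_mul_unop, smul_eq_mul,
    MulOpposite.unop_op]
  ring

lemma owRefl_orth {Q : Matrix (Fin n) (Fin n) K} (hQ : Q.IsSymm) (w : Fin n → K) :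
    (owRefl Q w)ᵀ * Q * owRefl Q w = Q := by
  set v := Q *ᵥ w with hv
  have hv2 : w ᵥ* Q = v := by
    rw [hv, ← vecMul_transpose, hQ.eq]
  have hq : owQ Q w = w ⬝ᵥ v := rfl
  rw [owRefl, transpose_sub, transpose_one, transpose_smul, transpose_vecMulVec]
  have e1 : vecMulVec v w * Q = vecMulVec v v := by rw [vecMulVec_mul, hv2]
  have e2 : Q * vecMulVec w v = vecMulVec v v := by rw [mul_vecMulVec]
  have e3 : vecMulVec v v * vecMulVec w v = (owQ Q w) • vecMulVec v v := by
    rw [vecMulVec_mul_vecMulVec, hq, dotProduct_comm v w]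
    ext i j
    simp only [vecMulVec_apply, Pi.smul_apply, smul_eq_mul, Matrix.smul_apply]
    ring
  rw [← hv]
  have e4 : (1 - (2 / owQ Q w) • vecMulVec v w) * Q * (1 - (2 / owQ Q w) • vecMulVec w v)
      = Q - (2 / owQ Q w) • vecMulVec v v - ((2 / owQ Q w) • vecMulVec v v
        - (2 / owQ Q w) • ((2 / owQ Q w) • (owQ Q w • vecMulVec v v))) := by
    rw [sub_mul, one_mul, smul_mul_assoc, e1, mul_sub, mul_one, sub_mul, mul_smul_comm, e2,
      mul_smul_comm, smul_mul_assoc, e3]
  rw [e4]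
  by_cases h0 : owQ Q w = 0
  · rw [h0]; simp
  · rw [smul_smul, smul_smul]
    have : 2 / owQ Q w * (2 / owQ Q w * owQ Q w) = 2 / owQ Q w + 2 / owQ Q w := by
      field_simp; ring
    rw [mul_assoc, this, add_smul]
    abel

lemma owRefl_sq {Q : Matrix (Fin n) (Fin n) K} (hQ : Q.IsSymm) (w : Fin n → K) :
    owRefl Q w * owRefl Q w = 1 := by
  set v := Q *ᵥ w with hv
  have e3 : vecMulVec w v * vecMulVec w v = (owQ Q w) • vecMulVec w v := by
    have hq : owQ Q w = w ⬝ᵥ v := rfl
    rw [vecMulVec_mul_vecMulVec, hq, dotProduct_comm v w]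
    ext i j
    simp only [vecMulVec_apply, Pi.smul_apply, smul_eq_mul, Matrix.smul_apply]
    ring
  have e4 : owRefl Q w * owRefl Q w
      = 1 - (2 / owQ Q w) • vecMulVec w v - ((2 / owQ Q w) • vecMulVec w v
        - (2 / owQ Q w) • ((2 / owQ Q w) • (owQ Q w • vecMulVec w v))) := by
    rw [owRefl, ← hv, sub_mul, one_mul, mul_sub, mul_one, smul_mul_assoc, mul_smul_comm, e3]
  rw [e4]
  by_cases h0 : owQ Q w = 0
  · rw [h0]; simp
  · rw [smul_smul, smul_smul]
    have : 2 / owQ Q w * (2 / owQ Q w * owQ Q w) = 2 / owQ Q w + 2 / owQ Q w := by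
      field_simp; ring
    rw [mul_assoc, this, add_smul]
    abel

lemma owRefl_det {Q : Matrix (Fin n) (Fin n) K} {w : Fin n → K} (hw : owQ Q w ≠ 0) :
    (owRefl Q w).det = -1 := by
  have e : owRefl Q w = 1 + replicateCol Unit (-(2 / owQ Q w) • w) * replicateRow Unit (Q *ᵥ w) := by
    rw [← vecMulVec_eq]
    ext i j
    simp only [owRefl, vecMulVec_apply, Matrix.sub_apply, Matrix.add_apply, Matrix.smul_apply,
      Pi.smul_apply, smul_eq_mul]
    ring
  rw [e, det_one_add_replicateCol_mul_replicateRow, dotProduct_smul, smul_eq_mul,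
    dotProduct_comm]
  have : w ⬝ᵥ (Q *ᵥ w) = owQ Q w := rfl
  rw [this]
  field_simp
  ring

lemma owQ_map {L : Type*} [Field L] (φ : K →+* L) (Q : Matrix (Fin n) (Fin n) K)
    (w : Fin n → K) : φ (owQ Q w) = owQ (Q.map φ) (fun a => φ (w a)) := by
  rw [owQ, owQ, RingHom.map_dotProduct]
  congr 1
  ext i
  exact RingHom.map_mulVec φ Q w i

lemma owRefl_map {L : Type*} [Field L] (φ : K →+* L) (Q : Matrix (Fin n) (Fin n) K)
    (w : Fin n → K) : (owRefl Q w).map φ = owRefl (Q.map φ) (fun a => φ (w a)) := by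
  ext i j
  have h1 : φ ((Q *ᵥ w) j) = (Q.map φ *ᵥ fun a => φ (w a)) j := RingHom.map_mulVec φ Q w j
  rw [Matrix.map_apply]
  simp only [owRefl, Matrix.sub_apply, Matrix.smul_apply, vecMulVec_apply, smul_eq_mul, map_sub,
    map_mul, map_div₀, owQ_map, h1, map_ofNat]
  congr 1
  by_cases hij : i = j
  · rw [hij, one_apply_eq, one_apply_eq, map_one]
  · rw [one_apply_ne hij, one_apply_ne hij, map_zero]

/-- Products of `N` reflections. -/
def owPr (Q : Matrix (Fin n) (Fin n) K) : ℕ → Matrix (Fin n) (Fin n) K → Prop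
  | 0, R => R = 1
  | N + 1, R => ∃ w R', owQ Q w ≠ 0 ∧ owPr Q N R' ∧ R = owRefl Q w * R'

lemma owPr_det {Q : Matrix (Fin n) (Fin n) K} : ∀ (N : ℕ) (R : Matrix (Fin n) (Fin n) K),
    owPr Q N R → R.det = (-1) ^ N
  | 0, R, h => by
    have h' : R = 1 := h
    rw [h', det_one, pow_zero]
  | N + 1, R, ⟨w, R', hw, hR', h⟩ => by
    rw [h, det_mul, owRefl_det hw, owPr_det N R' hR', pow_succ]
    ring

lemma owPr_pad {Q : Matrix (Fin n) (Fin n) K} (hQ : Q.IsSymm) {w : Fin n → K}
    (hw : owQ Q w ≠ 0) {N : ℕ} {R : Matrix (Fin n) (Fin n) K} (h : owPr Q N R) :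
    ∀ c : ℕ, owPr Q (N + 2 * c) R
  | 0 => h
  | c + 1 => by
    have h1 := owPr_pad hQ hw h c
    refine ⟨w, owRefl Q w * R, hw, ⟨w, R, hw, h1, rfl⟩, ?_⟩
    rw [← Matrix.mul_assoc, owRefl_sq hQ, Matrix.one_mul]

lemma owPr_conj {Q : Matrix (Fin n) (Fin n) K} {M M' : Matrix (Fin n) (Fin n) K}
    (h1 : M * M' = 1) (h2 : M' * M = 1) : ∀ (N : ℕ) (R : Matrix (Fin n) (Fin n) K),
    owPr (Mᵀ * Q * M) N R → owPr Q N (M * R * M')
  | 0, R, h => by
    have h' : R = 1 := h
    change M * R * M' = 1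
    rw [h', Matrix.mul_one, h1]
  | N + 1, R, ⟨w, R', hw, hR', h⟩ => by
    have hv : (Mᵀ * Q * M) *ᵥ w = Mᵀ *ᵥ (Q *ᵥ (M *ᵥ w)) := by
      rw [mulVec_mulVec, mulVec_mulVec, Matrix.mul_assoc]
    have hq : owQ (Mᵀ * Q * M) w = owQ Q (M *ᵥ w) := by
      rw [owQ, owQ, hv, dotProduct_mulVec w, vecMul_transpose]
    refine ⟨M *ᵥ w, M * R' * M', by rwa [← hq], owPr_conj h1 h2 N R' hR', ?_⟩
    have h3 : owRefl Q (M *ᵥ w) = M * owRefl (Mᵀ * Q * M) w * M' := by
      have e1 : M * vecMulVec w ((Mᵀ * Q * M) *ᵥ w) * M' = vecMulVec (M *ᵥ w) (Q *ᵥ (M *ᵥ w)) := by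
        rw [mul_vecMulVec, vecMulVec_mul, hv]
        congr 1
        rw [← vecMul_transpose, transpose_transpose, vecMul_vecMul, h1, vecMul_one]
      rw [owRefl, owRefl, mul_sub, sub_mul, Matrix.mul_one, h1, Matrix.mul_smul,
        Matrix.smul_mul, e1, hq]
    rw [h, h3]
    calc M * (owRefl (Mᵀ * Q * M) w * R') * M'
        = M * owRefl (Mᵀ * Q * M) w * 1 * R' * M' := by
          simp only [Matrix.mul_assoc, Matrix.one_mul]
      _ = M * owRefl (Mᵀ * Q * M) w * (M' * M) * R' * M' := by rw [h2]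
      _ = M * owRefl (Mᵀ * Q * M) w * M' * (M * R' * M') := by
          simp only [Matrix.mul_assoc]

/-- The bilinear form. -/
def owB (Q : Matrix (Fin n) (Fin n) K) (x y : Fin n → K) : K := x ⬝ᵥ (Q *ᵥ y)

lemma owB_self (Q : Matrix (Fin n) (Fin n) K) (x : Fin n → K) : owB Q x x = owQ Q x := rfl

lemma owB_comm {Q : Matrix (Fin n) (Fin n) K} (hQ : Q.IsSymm) (x y : Fin n → K) :
    owB Q x y = owB Q y x := by
  rw [owB, owB, dotProduct_mulVec, dotProduct_comm, ← vecMul_transpose Q x, hQ.eq]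

lemma owB_add (Q : Matrix (Fin n) (Fin n) K) (x y z : Fin n → K) :
    owB Q x (y + z) = owB Q x y + owB Q x z := by
  rw [owB, mulVec_add, dotProduct_add]; rfl

lemma owB_sub (Q : Matrix (Fin n) (Fin n) K) (x y z : Fin n → K) :
    owB Q x (y - z) = owB Q x y - owB Q x z := by
  rw [owB, mulVec_sub, dotProduct_sub]; rfl

lemma owB_orth {Q R : Matrix (Fin n) (Fin n) K} (hR : Rᵀ * Q * R = Q) (x y : Fin n → K) :
    owB Q (R *ᵥ x) (R *ᵥ y) = owB Q x y := by
  have h1 : Rᵀ *ᵥ (Q *ᵥ (R *ᵥ y)) = Q *ᵥ y := by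
    rw [mulVec_mulVec, mulVec_mulVec, hR]
  calc owB Q (R *ᵥ x) (R *ᵥ y) = (R *ᵥ x) ⬝ᵥ (Q *ᵥ (R *ᵥ y)) := rfl
    _ = x ⬝ᵥ (Rᵀ *ᵥ (Q *ᵥ (R *ᵥ y))) := by rw [dotProduct_mulVec x, vecMul_transpose]
    _ = owB Q x y := by rw [h1]; rfl

lemma owQ_add {Q : Matrix (Fin n) (Fin n) K} (hQ : Q.IsSymm) (x y : Fin n → K) :
    owQ Q (x + y) = owQ Q x + 2 * owB Q x y + owQ Q y := by
  rw [← owB_self, owB_add, owB_comm hQ (x + y) x, owB_comm hQ (x + y) y, owB_add, owB_add,
    owB_comm hQ y x, owB_self, owB_self]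
  ring

lemma owQ_sub {Q : Matrix (Fin n) (Fin n) K} (hQ : Q.IsSymm) (x y : Fin n → K) :
    owQ Q (x - y) = owQ Q x - 2 * owB Q x y + owQ Q y := by
  rw [← owB_self, owB_sub, owB_comm hQ (x - y) x, owB_comm hQ (x - y) y, owB_sub, owB_sub,
    owB_comm hQ y x, owB_self, owB_self]
  ring

lemma owRefl_mulVec' {Q : Matrix (Fin n) (Fin n) K} (w x : Fin n → K) :
    owRefl Q w *ᵥ x = x - (2 / owQ Q w * owB Q x w) • w := by
  rw [owRefl_mulVec, dotProduct_comm]; rfl

lemma owRefl_mulVec_of_zero {Q : Matrix (Fin n) (Fin n) K} {w x : Fin n → K}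
    (h : owB Q x w = 0) : owRefl Q w *ᵥ x = x := by
  rw [owRefl_mulVec', h, mul_zero, zero_smul, sub_zero]

lemma owRefl_mulVec_self {Q : Matrix (Fin n) (Fin n) K} {w : Fin n → K}
    (h : owQ Q w ≠ 0) : owRefl Q w *ᵥ w = -w := by
  rw [owRefl_mulVec', owB_self, div_mul_cancel₀ _ h, two_smul]
  abel

lemma owRefl_mulVec_half {Q : Matrix (Fin n) (Fin n) K} {w x : Fin n → K}
    (hw : owQ Q w ≠ 0) (h : 2 * owB Q x w = owQ Q w) : owRefl Q w *ᵥ x = x - w := by
  have : 2 / owQ Q w * owB Q x w = 1 := by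
    rw [div_mul_eq_mul_div, h, div_self hw]
  rw [owRefl_mulVec', this, one_smul]

/-- A reflection moving one vector to another or to its negative. -/
lemma owCD [CharZero K] {u : Fin n → K} (hu : ∀ i, u i ≠ 0) : ∀ (d m : ℕ), m + d = n →
    ∀ R : Matrix (Fin n) (Fin n) K, Rᵀ * diagonal u * R = diagonal u →
      (∀ i : Fin n, (i : ℕ) < m → R *ᵥ Pi.single i 1 = Pi.single i 1) →
      ∃ N, owPr (diagonal u) N R := by
  intro d
  induction d with
  | zero =>
    intro m hm R hR hfix
    refine ⟨0, ?_⟩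
    change R = 1
    ext a b
    have h1 := congrFun (hfix b (by have := b.isLt; omega)) a
    rw [mulVec_single_one] at h1
    rw [col_apply] at h1
    rw [h1, one_apply, Pi.single_apply]
  | succ d ih =>
    intro m hm R hR hfix
    have hmn : m < n := by omega
    let e : Fin n → (Fin n → K) := fun i => Pi.single i 1
    let m' : Fin n := ⟨m, hmn⟩
    have hQ : (diagonal u).IsSymm := diagonal_transpose u
    have hBe : ∀ i j, i ≠ j → owB (diagonal u) (e i) (e j) = 0 := by
      intro i j hij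
      simp only [owB, e, mulVec_single_one, single_one_dotProduct, col_apply]
      exact diagonal_apply_ne u hij
    have hQe : ∀ i, owQ (diagonal u) (e i) = u i := by
      intro i
      simp only [owQ, e, mulVec_single_one, single_one_dotProduct, col_apply,
        diagonal_apply_eq]
    set e' : Fin n → K := R *ᵥ e m' with he'
    have hQe' : owQ (diagonal u) e' = u m' := by
      rw [← owB_self, he', owB_orth hR, owB_self, hQe]
    have hBe' : ∀ i : Fin n, (i : ℕ) < m → owB (diagonal u) (e i) e' = 0 := by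
      intro i hi
      have h1 : R *ᵥ e i = e i := hfix i hi
      rw [← h1, he', owB_orth hR]
      exact hBe _ _ (fun h => by rw [h] at hi; exact lt_irrefl _ hi)
    have hBem : ∀ i : Fin n, (i : ℕ) < m → owB (diagonal u) (e i) (e m') = 0 := fun i hi =>
      hBe _ _ (fun h => by rw [h] at hi; exact lt_irrefl _ hi)
    have horth : ∀ S : Matrix (Fin n) (Fin n) K, Sᵀ * diagonal u * S = diagonal u →
        (S * R)ᵀ * diagonal u * (S * R) = diagonal u := by
      intro S hS
      calc (S * R)ᵀ * diagonal u * (S * R) = Rᵀ * (Sᵀ * diagonal u * S) * R := by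
            rw [transpose_mul]; simp only [Matrix.mul_assoc]
        _ = diagonal u := by rw [hS, hR]
    by_cases h1 : owQ (diagonal u) (e' - e m') = 0
    · have h2 : owQ (diagonal u) (e' + e m') ≠ 0 := by
        rw [owQ_sub hQ, hQe', hQe] at h1
        rw [owQ_add hQ, hQe', hQe]
        intro h3
        have h4 : (4 : K) * u m' = 0 := by linear_combination h1 + h3
        exact hu m' ((mul_eq_zero.mp h4).resolve_left (by norm_num))
      have h3 : owQ (diagonal u) (e m') ≠ 0 := by rw [hQe]; exact hu m'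
      set S := owRefl (diagonal u) (e m') * owRefl (diagonal u) (e' + e m') with hS
      have hSo : Sᵀ * diagonal u * S = diagonal u := by
        calc Sᵀ * diagonal u * S = (owRefl (diagonal u) (e' + e m'))ᵀ *
            ((owRefl (diagonal u) (e m'))ᵀ * diagonal u * owRefl (diagonal u) (e m')) *
            owRefl (diagonal u) (e' + e m') := by
              rw [hS, transpose_mul]; simp only [Matrix.mul_assoc]
          _ = diagonal u := by rw [owRefl_orth hQ, owRefl_orth hQ]
      obtain ⟨N, hN⟩ := ih (m + 1) (by omega) (S * R) (horth S hSo) (by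
        intro i hi
        rcases Nat.lt_succ_iff_lt_or_eq.mp hi with hi' | hi'
        · have hA : owRefl (diagonal u) (e' + e m') *ᵥ e i = e i := by
            apply owRefl_mulVec_of_zero
            rw [owB_add, hBe' i hi', hBem i hi', add_zero]
          rw [← mulVec_mulVec, hfix i hi', hS, ← mulVec_mulVec]
          change owRefl (diagonal u) (e m') *ᵥ (owRefl (diagonal u) (e' + e m') *ᵥ e i) = e i
          rw [hA, owRefl_mulVec_of_zero (hBem i hi')]
        · have hi2 : i = m' := Fin.ext hi'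
          rw [hi2, ← mulVec_mulVec]
          change S *ᵥ e' = e m'
          rw [hS, ← mulVec_mulVec, owRefl_mulVec_half h2, sub_add_cancel_left, mulVec_neg,
            owRefl_mulVec_self h3, neg_neg]
          rw [owB_add, owQ_add hQ, hQe', hQe, owB_self, hQe']
          ring)
      refine ⟨N + 1 + 1, e' + e m', owRefl (diagonal u) (e m') * (S * R), h2,
        ⟨e m', S * R, h3, hN, rfl⟩, ?_⟩
      rw [hS]
      calc R = (owRefl (diagonal u) (e' + e m') * ((owRefl (diagonal u) (e m') *
          owRefl (diagonal u) (e m')) * owRefl (diagonal u) (e' + e m'))) * R := by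
            rw [owRefl_sq hQ, Matrix.one_mul, owRefl_sq hQ, Matrix.one_mul]
        _ = _ := by simp only [Matrix.mul_assoc]
    · obtain ⟨N, hN⟩ := ih (m + 1) (by omega) (owRefl (diagonal u) (e' - e m') * R)
        (horth _ (owRefl_orth hQ _)) (by
        intro i hi
        rcases Nat.lt_succ_iff_lt_or_eq.mp hi with hi' | hi'
        · rw [← mulVec_mulVec, hfix i hi', owRefl_mulVec_of_zero]
          rw [owB_sub]
          change owB (diagonal u) (e i) e' - owB (diagonal u) (e i) (e m') = 0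
          rw [hBe' i hi', hBem i hi', sub_zero]
        · have hi2 : i = m' := Fin.ext hi'
          rw [hi2, ← mulVec_mulVec]
          change owRefl (diagonal u) (e' - e m') *ᵥ e' = e m'
          rw [owRefl_mulVec_half h1, sub_sub_cancel]
          rw [owB_sub, owQ_sub hQ, hQe', hQe, owB_self, hQe']
          ring)
      refine ⟨N + 1, e' - e m', owRefl (diagonal u) (e' - e m') * R, h1, hN, ?_⟩
      rw [← Matrix.mul_assoc, owRefl_sq hQ, Matrix.one_mul]

/-- Weak Cartan-Dieudonne. -/
lemma owCD' [CharZero K] {Q : Matrix (Fin n) (Fin n) K} (hQ : Q.IsSymm) (hdet : Q.det ≠ 0)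
    {R : Matrix (Fin n) (Fin n) K} (hR : Rᵀ * Q * R = Q) : ∃ N, owPr Q N R := by
  obtain ⟨u, hu, M, M', h1, h2, h3⟩ := exists_diagonal hQ hdet
  have h4 : (M' * R * M)ᵀ * diagonal u * (M' * R * M) = diagonal u := by
    rw [← h3, transpose_mul, transpose_mul]
    have h5 : M'ᵀ * Mᵀ = 1 := by rw [← transpose_mul, h1, transpose_one]
    calc Mᵀ * (Rᵀ * M'ᵀ) * (Mᵀ * Q * M) * (M' * R * M)
        = Mᵀ * Rᵀ * (M'ᵀ * Mᵀ) * Q * (M * M') * R * M := by simp only [Matrix.mul_assoc]
      _ = Mᵀ * (Rᵀ * Q * R) * M := by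
          rw [h5, h1, Matrix.mul_one, Matrix.mul_one]; simp only [Matrix.mul_assoc]
      _ = _ := by rw [hR]
  obtain ⟨N, hN⟩ := owCD hu n 0 (by omega) (M' * R * M) h4 (fun i hi => absurd hi (Nat.not_lt_zero _))
  rw [← h3] at hN
  refine ⟨N, ?_⟩
  have h5 := owPr_conj h1 h2 N _ hN
  have h6 : M * (M' * R * M) * M' = R := by
    calc M * (M' * R * M) * M' = (M * M') * R * (M * M') := by simp only [Matrix.mul_assoc]
      _ = R := by rw [h1, Matrix.one_mul, Matrix.mul_one]
  rwa [h6] at h5

lemma owExists [CharZero K] (hn : n ≠ 0) {Q : Matrix (Fin n) (Fin n) K} (hQ : Q.IsSymm)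
    (hdet : Q.det ≠ 0) : ∃ w, owQ Q w ≠ 0 := by
  obtain ⟨u, hu, M, M', h1, h2, h3⟩ := exists_diagonal hQ hdet
  let i : Fin n := ⟨0, Nat.pos_of_ne_zero hn⟩
  refine ⟨M *ᵥ Pi.single i 1, ?_⟩
  have h4 : owQ Q (M *ᵥ Pi.single i 1) = owQ (diagonal u) (Pi.single i 1) := by
    rw [← h3, owQ, owQ, ← mulVec_mulVec, ← mulVec_mulVec, dotProduct_mulVec (Pi.single i 1),
      vecMul_transpose]
  rw [h4]
  simp only [owQ, mulVec_single_one, single_one_dotProduct, col_apply, diagonal_apply_eq]
  exact hu i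

end Refl

section Approx

lemma owQ_tendsto {K : Type*} [NormedField K] {n : ℕ} (Q : Matrix (Fin n) (Fin n) K)
    {w : ℕ → Fin n → K} {w0 : Fin n → K} (h : Tendsto w atTop (𝓝 w0)) :
    Tendsto (fun j => owQ Q (w j)) atTop (𝓝 (owQ Q w0)) := by
  have hc : Continuous fun x : Fin n → K => owQ Q x :=
    Continuous.dotProduct continuous_id (Continuous.matrix_mulVec continuous_const continuous_id)
  exact (hc.tendsto w0).comp h

lemma owRefl_tendsto {K : Type*} [NormedField K] {n : ℕ} (Q : Matrix (Fin n) (Fin n) K)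
    {w : ℕ → Fin n → K} {w0 : Fin n → K} (h : Tendsto w atTop (𝓝 w0)) (h0 : owQ Q w0 ≠ 0) :
    Tendsto (fun j => owRefl Q (w j)) atTop (𝓝 (owRefl Q w0)) := by
  have h1 : Tendsto (fun j => 2 / owQ Q (w j)) atTop (𝓝 (2 / owQ Q w0)) :=
    (tendsto_const_nhds).div (owQ_tendsto Q h) h0
  have hc : Continuous fun x : Fin n → K => vecMulVec x (Q *ᵥ x) :=
    Continuous.matrix_vecMulVec continuous_id
      (Continuous.matrix_mulVec continuous_const continuous_id)
  exact tendsto_const_nhds.sub (h1.smul ((hc.tendsto w0).comp h))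

lemma owApprox {k : Type*} [Field k] [CharZero k] {ι : Type*} [Fintype ι]
    {K : ι → Type*} [∀ i, NormedField (K i)] [∀ i, CharZero (K i)] {φ : ∀ i, k →+* K i}
    (hdense : DenseRange (fun (q : k) (i : ι) => φ i q)) {n : ℕ}
    {Q : Matrix (Fin n) (Fin n) k} (hQ : Q.IsSymm) : ∀ (N : ℕ)
    (R : ∀ i, Matrix (Fin n) (Fin n) (K i)), (∀ i, owPr (Q.map (φ i)) N (R i)) →
    ∃ Rs : ℕ → Matrix (Fin n) (Fin n) k, (∀ j, (Rs j)ᵀ * Q * Rs j = Q) ∧
      ∀ i, Tendsto (fun j => (Rs j).map (φ i)) atTop (𝓝 (R i)) := by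
  intro N
  induction N with
  | zero =>
    intro R hR
    refine ⟨fun _ => 1, fun j => by simp, fun i => ?_⟩
    have h1 : R i = 1 := hR i
    rw [h1]
    refine tendsto_const_nhds.congr fun j => ?_
    exact (Matrix.map_one _ (map_zero (φ i)) (map_one (φ i))).symm
  | succ N ih =>
    intro R hR
    choose w R' hw hR' hRR using hR
    obtain ⟨Rs, hRs, hlim⟩ := ih R' hR'
    have h1 : ∀ a : Fin n, ∃ x : ℕ → k, ∀ i, Tendsto (fun j => φ i (x j)) atTop (𝓝 (w i a)) := by
      intro a
      have h2 : (fun i => w i a) ∈ closure (Set.range fun (q : k) (i : ι) => φ i q) :=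
        hdense _
      obtain ⟨y, hy, hy2⟩ := mem_closure_iff_seq_limit.mp h2
      choose x hx using hy
      refine ⟨x, fun i => ?_⟩
      have h3 := (tendsto_pi_nhds.mp hy2) i
      refine h3.congr fun j => ?_
      rw [← hx j]
    choose x hx using h1
    refine ⟨fun j => owRefl Q (fun a => x a j) * Rs j, fun j => ?_, fun i => ?_⟩
    · calc (owRefl Q (fun a => x a j) * Rs j)ᵀ * Q * (owRefl Q (fun a => x a j) * Rs j)
          = (Rs j)ᵀ * ((owRefl Q (fun a => x a j))ᵀ * Q * owRefl Q (fun a => x a j)) * Rs j := by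
            rw [transpose_mul]; simp only [Matrix.mul_assoc]
        _ = Q := by rw [owRefl_orth hQ, hRs]
    · have h4 : Tendsto (fun j => owRefl (Q.map (φ i)) (fun a => φ i (x a j))) atTop
          (𝓝 (owRefl (Q.map (φ i)) (w i))) :=
        owRefl_tendsto _ (tendsto_pi_nhds.mpr fun a => hx a i) (hw i)
      rw [hRR i]
      refine (h4.mul (hlim i)).congr fun j => ?_
      rw [Matrix.map_mul, owRefl_map]

end Approx

/-- Weak approximation for the special orthogonal group of a nondegenerate form. -/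
theorem orth_approx {k : Type*} [Field k] [CharZero k] {ι : Type*} [Fintype ι]
    {K : ι → Type*} [∀ i, NormedField (K i)] [∀ i, CharZero (K i)] {φ : ∀ i, k →+* K i}
    (hdense : DenseRange (fun (q : k) (i : ι) => φ i q)) {n : ℕ}
    {Q : Matrix (Fin n) (Fin n) k} (hQ : Q.IsSymm) (hdet : Q.det ≠ 0)
    (R : ∀ i, Matrix (Fin n) (Fin n) (K i)) (hR : ∀ i, (R i)ᵀ * Q.map (φ i) * R i = Q.map (φ i))
    (hR1 : ∀ i, (R i).det = 1) :
    ∃ Rs : ℕ → Matrix (Fin n) (Fin n) k, (∀ j, (Rs j)ᵀ * Q * Rs j = Q) ∧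
      ∀ i a b, Tendsto (fun j => φ i (Rs j a b)) atTop (𝓝 (R i a b)) := by
  rcases Nat.eq_zero_or_pos n with hn | hn
  · subst hn
    exact ⟨fun _ => 1, fun j => by simp, fun i a => a.elim0⟩
  obtain ⟨w, hw⟩ := owExists hn.ne' hQ hdet
  have hQi : ∀ i, (Q.map (φ i)).IsSymm := fun i => by
    unfold Matrix.IsSymm
    rw [← transpose_map, hQ.eq]
  have hdi : ∀ i, (Q.map (φ i)).det ≠ 0 := fun i => by
    have h1 : (Q.map (φ i)).det = φ i Q.det := ((φ i).map_det Q).symm
    rw [h1]
    exact (map_ne_zero _).mpr hdet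
  have hwi : ∀ i, owQ (Q.map (φ i)) (fun a => φ i (w a)) ≠ 0 := fun i => by
    rw [← owQ_map]
    exact (map_ne_zero _).mpr hw
  choose N hN using fun i => owCD' (hQi i) (hdi i) (hR i)
  have heven : ∀ i, Even (N i) := by
    intro i
    have h1 := owPr_det (N i) (R i) (hN i)
    rw [hR1 i] at h1
    rcases Nat.even_or_odd (N i) with h | h
    · exact h
    · exfalso
      rw [h.neg_one_pow] at h1
      have h2 : (2 : K i) = 0 := by linear_combination h1
      exact two_ne_zero h2
  have hpr : ∀ i, owPr (Q.map (φ i)) (∑ i, N i) (R i) := by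
    intro i
    have h1 : N i ≤ ∑ i, N i := Finset.single_le_sum (f := N) (fun _ _ => Nat.zero_le _) (mem_univ i)
    have h2 : Even (∑ i, N i) := Finset.even_sum _ fun i _ => heven i
    obtain ⟨c, hc⟩ := (Nat.even_sub h1).mpr (iff_of_true h2 (heven i))
    have h3 : ∑ i, N i = N i + 2 * c := by omega
    rw [h3]
    exact owPr_pad (hQi i) (hwi i) (hN i) c
  obtain ⟨Rs, hRs, hlim⟩ := owApprox hdense hQ _ R hpr
  refine ⟨Rs, hRs, fun i a b => ?_⟩
  have h1 := (tendsto_pi_nhds.mp ((tendsto_pi_nhds.mp (hlim i)) a)) b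
  exact h1

/-- A reflection. -/
theorem exists_reflection {k : Type*} [Field k] [CharZero k] {n : ℕ} (hn : n ≠ 0)
    {Q : Matrix (Fin n) (Fin n) k} (hQ : Q.IsSymm) (hdet : Q.det ≠ 0) :
    ∃ R : Matrix (Fin n) (Fin n) k, Rᵀ * Q * R = Q ∧ R.det = -1 := by
  obtain ⟨w, hw⟩ := owExists hn hQ hdet
  exact ⟨owRefl Q w, owRefl_orth hQ w, owRefl_det hw⟩

end Pool.Agent.Lib.MP_12adaf_nt.TF
end
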