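import Mathlib
import Pool.Agent.Lib.MP_12adaf_nt.OddNF
import Pool.Agent.Lib.MP_12adaf_nt.TF.Cong

/-!
# Trace forms: the matrix of traces
-/

namespace Pool.Agent.Lib.MP_12adaf_nt.TF

set_option linter.unusedSectionVars false
set_option linter.unusedVariables false

open Finset Polynomial Filter Topology Matrix

section Trace

variable {R : Type*} [CommRing R]

/-- The trace of `p` on `R[X]/f`. -/
noncomputable def tr (n : ℕ) (f p : R[X]) : R := (Mmat n f p).trace

/-- The matrix of the trace form of `R[X]/f` in the basis of powers of `X`. -/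
noncomputable def HH (n : ℕ) (f : R[X]) : Matrix (Fin n) (Fin n) R :=
  Matrix.of fun i j => tr n f (X ^ ((i : ℕ) + (j : ℕ)))

/-- The coefficients of a family of polynomials, reduced modulo `f`. -/
noncomputable def cm {m : Type*} (n : ℕ) (f : R[X]) (w : m → R[X]) : Matrix (Fin n) m R :=
  Matrix.of fun i j => (w j %ₘ f).coeff i

end Trace

end Pool.Agent.Lib.MP_12adaf_nt.TF
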