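import Mathlib
import Pool.Agent.Lib.MP_12adaf_nt.HM.Q10
import Pool.Agent.Lib.MP_12adaf_nt.TF.Witt

section

section

/-!
# Depressed quartics and translations
-/

namespace Pool.Agent.Lib.MP_12adaf_nt.TF

set_option linter.unusedSectionVars false
set_option linter.unusedVariables false

open Finset Polynomial Filter Topology Matrix

/-- The quartic polynomial `X ^ 4 + p X ^ 2 + q X + r`. -/
noncomputable def dq {K : Type*} [Field K] (p q r : K) : K[X] :=
  X ^ 4 + C p * X ^ 2 + C q * X + C r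

variable {K : Type*} [Field K] [CharZero K]

lemma dq_monic (p q r : K) : (dq p q r).Monic := by
  unfold dq
  monicity!

lemma natDegree_dq (p q r : K) : (dq p q r).natDegree = 4 := by
  unfold dq
  compute_degree!

/-- A monic polynomial over an algebraically closed field is a product over its roots. -/
private lemma qb_exists_nod {L : Type*} [Field L] [IsAlgClosed L] {n : ℕ} {f : L[X]} (hf : f.Monic)
    (hn : f.natDegree = n) : ∃ θ : Fin n → L, f = nod θ := by
  have hs : f.Splits := IsAlgClosed.splits f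
  have h1 : f = (f.roots.map (fun a => X - C a)).prod := hs.eq_prod_roots_of_monic hf
  have h2 : Multiset.card f.roots = n := by rw [← hs.natDegree_eq_card_roots, hn]
  obtain ⟨l, hl⟩ := Quot.exists_rep f.roots
  have hl' : f.roots = (l : Multiset L) := hl.symm
  have hlen : l.length = n := by rw [← h2, hl']; rfl
  subst hlen
  refine ⟨l.get, ?_⟩
  rw [h1, nod, hl', Multiset.map_coe, Multiset.prod_coe, ← List.prod_ofFn]
  congr 1
  apply List.ext_get
  · simp
  · intro i h3 h4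
    simp

/-- Comparison of coefficients. -/
private lemma qb_coeffs {L : Type*} [Field L] {a3 a2 a1 a0 b3 b2 b1 b0 : L}
    (h : (X ^ 4 + C a3 * X ^ 3 + C a2 * X ^ 2 + C a1 * X + C a0 : L[X]) =
      X ^ 4 + C b3 * X ^ 3 + C b2 * X ^ 2 + C b1 * X + C b0) :
    a3 = b3 ∧ a2 = b2 ∧ a1 = b1 ∧ a0 = b0 := by
  have c3 := congrArg (fun f => coeff f 3) h
  have c2 := congrArg (fun f => coeff f 2) h
  have c1 := congrArg (fun f => coeff f 1) h
  have c0 := congrArg (fun f => coeff f 0) h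
  simp [coeff_X_pow, coeff_C, coeff_X] at c3 c2 c1 c0
  exact ⟨c3, c2, c1, c0⟩

/-- Vieta for depressed quartics. -/
private lemma qb_vieta {L : Type*} [Field L] {p q r : L} {θ : Fin 4 → L}
    (h : dq p q r = nod θ) :
    θ 3 = -(θ 0 + θ 1 + θ 2) ∧
    p = θ 0 * θ 1 + θ 0 * θ 2 + θ 1 * θ 2 + (θ 0 + θ 1 + θ 2) * θ 3 ∧
    q = -(θ 0 * θ 1 * θ 2 + (θ 0 * θ 1 + θ 0 * θ 2 + θ 1 * θ 2) * θ 3) ∧
    r = θ 0 * θ 1 * θ 2 * θ 3 := by
  have h1 : nod θ = X ^ 4 + C (-(θ 0 + θ 1 + θ 2 + θ 3)) * X ^ 3 +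
      C (θ 0 * θ 1 + θ 0 * θ 2 + θ 1 * θ 2 + (θ 0 + θ 1 + θ 2) * θ 3) * X ^ 2 +
      C (-(θ 0 * θ 1 * θ 2 + (θ 0 * θ 1 + θ 0 * θ 2 + θ 1 * θ 2) * θ 3)) * X +
      C (θ 0 * θ 1 * θ 2 * θ 3) := by
    rw [nod, Fin.prod_univ_four]
    simp only [C_add, C_mul, C_neg]
    ring
  have h2 : dq p q r = X ^ 4 + C 0 * X ^ 3 + C p * X ^ 2 + C q * X + C r := by
    rw [dq, C_0]; ring
  rw [h1, h2] at h
  obtain ⟨c3, c2, c1, c0⟩ := qb_coeffs h
  exact ⟨by linear_combination c3, c2, c1, c0⟩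

private lemma qb_map_dq {L : Type*} [Field L] (φ : K →+* L) (p q r : K) :
    (dq p q r).map φ = dq (φ p) (φ q) (φ r) := by
  simp [dq]

/-- The matrix of traces of a quartic. -/
theorem HH_dq {p q r : K} (hsep : (dq p q r).Separable) :
    HH 4 (dq p q r) = !![4, 0, -2 * p, -3 * q; 0, -2 * p, -3 * q, 2 * p ^ 2 - 4 * r;
      -2 * p, -3 * q, 2 * p ^ 2 - 4 * r, 5 * p * q;
      -3 * q, 2 * p ^ 2 - 4 * r, 5 * p * q, -2 * p ^ 3 + 6 * p * r + 3 * q ^ 2] := by
  let L := AlgebraicClosure K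
  let φ : K →+* L := algebraMap K L
  obtain ⟨θ, hθ, h1⟩ := exists_nod φ (dq_monic p q r) (natDegree_dq p q r) hsep
  have hv := h1
  rw [qb_map_dq] at hv
  obtain ⟨e3, ep, eq, er⟩ := qb_vieta hv
  rw [e3] at ep eq er
  have key : ∀ m : ℕ, φ (tr 4 (dq p q r) (X ^ m)) = θ 0 ^ m + θ 1 ^ m + θ 2 ^ m + θ 3 ^ m := by
    intro m
    rw [map_tr φ (dq_monic p q r), h1, tr_nod hθ, Fin.sum_univ_four]
    simp
  rw [e3] at key
  have t0 : tr 4 (dq p q r) (X ^ 0) = 4 := by
    apply φ.injective; rw [key, map_ofNat]; ring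
  have t1 : tr 4 (dq p q r) (X ^ 1) = 0 := by
    apply φ.injective; rw [key, map_zero]; ring
  have t2 : tr 4 (dq p q r) (X ^ 2) = -2 * p := by
    apply φ.injective
    rw [key, map_mul, map_neg, map_ofNat, ep]; ring
  have t3 : tr 4 (dq p q r) (X ^ 3) = -3 * q := by
    apply φ.injective
    rw [key, map_mul, map_neg, map_ofNat, eq]; ring
  have t4 : tr 4 (dq p q r) (X ^ 4) = 2 * p ^ 2 - 4 * r := by
    apply φ.injective
    rw [key, map_sub, map_mul, map_mul, map_pow, map_ofNat, map_ofNat, ep, er]; ring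
  have t5 : tr 4 (dq p q r) (X ^ 5) = 5 * p * q := by
    apply φ.injective
    rw [key, map_mul, map_mul, map_ofNat, ep, eq]; ring
  have t6 : tr 4 (dq p q r) (X ^ 6) = -2 * p ^ 3 + 6 * p * r + 3 * q ^ 2 := by
    apply φ.injective
    rw [key]
    simp only [map_add, map_mul, map_neg, map_pow, map_ofNat, ep, eq, er]; ring
  rw [pow_zero] at t0
  rw [pow_one] at t1
  ext i j
  rw [HH, Matrix.of_apply]
  fin_cases i <;> fin_cases j <;> simp [t0, t1, t2, t3, t4, t5, t6]

/-- `27 disc = 4 I ^ 3 - J ^ 2`. -/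
theorem discr_dq (p q r : K) : 27 * (dq p q r).discr =
    4 * (12 * r + p ^ 2) ^ 3 - (72 * p * r - 27 * q ^ 2 - 2 * p ^ 3) ^ 2 := by
  let L := AlgebraicClosure K
  let φ : K →+* L := algebraMap K L
  obtain ⟨θ, h1⟩ := qb_exists_nod (f := (dq p q r).map φ) (n := 4) ((dq_monic p q r).map φ)
    (by rw [natDegree_map, natDegree_dq])
  have hv := h1
  rw [qb_map_dq] at hv
  obtain ⟨e3, ep, eq, er⟩ := qb_vieta hv
  have hV : (Matrix.vandermonde θ).det = (θ 1 - θ 0) * (θ 2 - θ 0) * (θ 3 - θ 0) *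
      ((θ 2 - θ 1) * (θ 3 - θ 1)) * (θ 3 - θ 2) := by
    simp [Matrix.det_succ_row_zero, Fin.sum_univ_succ, Matrix.vandermonde_apply,
      Fin.succAbove]
    ring
  rw [e3] at ep eq er hV
  apply φ.injective
  rw [map_mul, ← discr_map_monic φ (dq_monic p q r), h1, discr_nod, hV]
  simp only [map_sub, map_add, map_mul, map_pow, map_ofNat, ep, eq, er]
  ring

/-- Each monic quartic is a translate of a depressed one. -/
theorem exists_dq {g : K[X]} (hg : g.Monic) (hn : g.natDegree = 4) :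
    g = (dq (g.coeff 2 - 3 * g.coeff 3 ^ 2 / 8)
      (g.coeff 1 - g.coeff 2 * g.coeff 3 / 2 + g.coeff 3 ^ 3 / 8)
      (g.coeff 0 - g.coeff 1 * g.coeff 3 / 4 + g.coeff 2 * g.coeff 3 ^ 2 / 16 -
        3 * g.coeff 3 ^ 4 / 256)).comp (X - C (-(g.coeff 3 / 4))) := by
  have h4 : g.coeff 4 = 1 := by
    have := hg.coeff_natDegree
    rwa [hn] at this
  have hg4 : g = X ^ 4 + C (g.coeff 3) * X ^ 3 + C (g.coeff 2) * X ^ 2 + C (g.coeff 1) * X +
      C (g.coeff 0) := by
    conv_lhs => rw [g.as_sum_range_C_mul_X_pow, hn]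
    simp only [Finset.sum_range_succ, Finset.sum_range_zero, h4]
    simp
    ring
  obtain ⟨t, ht⟩ : ∃ t : K, g.coeff 3 = 4 * t := ⟨g.coeff 3 / 4, by ring⟩
  conv_lhs => rw [hg4]
  rw [ht]
  generalize g.coeff 2 = b
  generalize g.coeff 1 = c
  generalize g.coeff 0 = d
  have e1 : b - 3 * (4 * t) ^ 2 / 8 = b - 6 * t ^ 2 := by ring
  have e2 : c - b * (4 * t) / 2 + (4 * t) ^ 3 / 8 = c - 2 * b * t + 8 * t ^ 3 := by ring
  have e3 : d - c * (4 * t) / 4 + b * (4 * t) ^ 2 / 16 - 3 * (4 * t) ^ 4 / 256 =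
      d - c * t + b * t ^ 2 - 3 * t ^ 4 := by ring
  have e4 : -(4 * t / 4) = -t := by ring
  rw [e1, e2, e3, e4, dq]
  simp only [add_comp, mul_comp, pow_comp, X_comp, C_comp]
  simp only [C_neg, C_sub, C_add, C_mul, C_pow, map_ofNat]
  ring

/-- Translations. -/
theorem comp_info {n : ℕ} {f : K[X]} (hf : f.Monic) (hn : f.natDegree = n) (hsep : f.Separable)
    (c : K) : (f.comp (X - C c)).Monic ∧ (f.comp (X - C c)).natDegree = n ∧
      (f.comp (X - C c)).Separable ∧ (f.comp (X - C c)).discr = f.discr ∧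
      Cong (HH n f) (HH n (f.comp (X - C c))) := by
  let L := AlgebraicClosure K
  let φ : K →+* L := algebraMap K L
  obtain ⟨θ, hθ, h1⟩ := exists_nod φ hf hn hsep
  have h2 : (f.comp (X - C c)).map φ = nod fun i => θ i + φ c := by
    rw [Polynomial.map_comp, h1, nod, nod, Polynomial.prod_comp]
    refine Finset.prod_congr rfl fun i _ => ?_
    simp
    ring
  have h3 : charT n f (X + C c) = f.comp (X - C c) := by
    apply Polynomial.map_injective φ φ.injective
    rw [map_charT φ hf, h1, charT_nod hθ, h2]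
    simp
  have hm : (f.comp (X - C c)).Monic := by rw [← h3]; exact charT_monic _ _ _
  have hd : (f.comp (X - C c)).discr = f.discr := by
    apply φ.injective
    rw [← discr_map_monic φ hf, ← discr_map_monic φ hm, h1, h2, discr_nod, discr_nod,
      Matrix.det_vandermonde_add]
  have hs : (f.comp (X - C c)).Separable := by
    apply separable_of_discr_ne_zero hm
    rw [hd]
    exact discr_ne_zero_of_separable hf hsep
  refine ⟨hm, ?_, hs, hd, ?_⟩
  · rw [← h3]; exact natDegree_charT _ _ _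
  · have := cong_charT hf hn hsep (T := X + C c) (by rw [h3]; exact hs)
    rwa [h3] at this

end Pool.Agent.Lib.MP_12adaf_nt.TF
end

section

/-!
# Quartic polynomials and their trace forms
-/

namespace Pool.Agent.Lib.MP_12adaf_nt.TF

set_option linter.unusedSectionVars false
set_option linter.unusedVariables false

open Finset Polynomial Filter Topology Matrix

section Defs

variable {K : Type*} [Field K]

/-- The quantity `A`. -/
def Aq (τ μ β : K) : K := β ^ 2 / τ ^ 2 - τ + μ / τ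

/-- The quantity `M`. -/
def Mq (τ μ : K) : K := τ ^ 2 + 3 * μ

/-- The quantity `G`. -/
def Gq (τ μ β : K) : K := (3 * Aq τ μ β + 2 * τ) ^ 2 + 12 * μ

/-- The quartic polynomial with parameters `τ`, `μ`, `β`. -/
noncomputable def gq (τ μ β : K) : K[X] :=
  dq (-(τ / 2)) (-(τ * Aq τ μ β * β / (2 * Mq τ μ)))
    (τ ^ 2 * (3 * Aq τ μ β ^ 2 + 4 * τ * Aq τ μ β + Mq τ μ) / (16 * Mq τ μ))

/-- Good parameters. -/
structure GoodQ (τ μ β : K) : Prop where
  t : τ ≠ 0
  m : μ ≠ 0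
  A : Aq τ μ β ≠ 0
  M : Mq τ μ ≠ 0
  G : Gq τ μ β ≠ 0
  At : Aq τ μ β + τ ≠ 0

/-- A translate of a good quartic. -/
def GenQ (g : K[X]) : Prop := ∃ τ μ β c : K, GoodQ τ μ β ∧ g = (gq τ μ β).comp (X - C c)

end Defs

variable {K : Type*} [Field K] [CharZero K]

lemma beta_sq {τ μ β : K} (ht : τ ≠ 0) :
    β ^ 2 = τ ^ 2 * (Aq τ μ β + τ) - τ * μ := by
  rw [Aq]
  field_simp
  ring

/-- The discriminant of the quartic is `μ` up to squares. -/
theorem discr_gq {τ μ β : K} (h : GoodQ τ μ β) :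
    (gq τ μ β).discr = μ * (τ ^ 3 * Aq τ μ β * Gq τ μ β / (4 * Mq τ μ ^ 2)) ^ 2 := by
  have h27 : (27 : K) ≠ 0 := by norm_num
  apply mul_left_cancel₀ h27
  rw [gq, discr_dq]
  have hb := beta_sq (μ := μ) (β := β) h.t
  have hM := h.M
  have ht := h.t
  unfold Gq
  generalize Aq τ μ β = A at *
  unfold Mq at *
  have h2 : (-(τ * A * β / (2 * (τ ^ 2 + 3 * μ)))) ^ 2 =
      τ ^ 2 * A ^ 2 * (τ ^ 2 * (A + τ) - τ * μ) / (4 * (τ ^ 2 + 3 * μ) ^ 2) := by
    rw [← hb]
    field_simp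
    ring
  rw [h2]
  field_simp
  ring


lemma cong_diag4_22 (a b c d : K) :
    Cong (diagonal ![a, b, c, d]) (osum (diagonal ![a, b]) (diagonal ![c, d])) := by
  rw [osum_diagonal]
  refine (Cong.diagonal_equiv ![a, b, c, d] (finSumFinEquiv (m := 2) (n := 2))).trans
    (Cong.of_eq ?_)
  congr 1
  ext i
  rcases i with i | i <;> fin_cases i <;> rfl

lemma cong_diag4_31 (a b c d : K) :
    Cong (diagonal ![a, b, c, d]) (osum (diagonal ![a, b, c]) (sq1 d)) := by
  rw [sq1, osum_diagonal]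
  refine (Cong.diagonal_equiv ![a, b, c, d] (finSumFinEquiv (m := 3) (n := 1))).trans
    (Cong.of_eq ?_)
  congr 1
  ext i
  rcases i with i | i <;> fin_cases i <;> rfl

lemma gq_monic (τ μ β : K) : (gq τ μ β).Monic := dq_monic _ _ _

lemma natDegree_gq (τ μ β : K) : (gq τ μ β).natDegree = 4 := natDegree_dq _ _ _

lemma discr_gq_ne {τ μ β : K} (h : GoodQ τ μ β) :
    τ ^ 3 * Aq τ μ β * Gq τ μ β / (4 * Mq τ μ ^ 2) ≠ 0 := by
  have h4 : (4 : K) ≠ 0 := by norm_num
  exact div_ne_zero (mul_ne_zero (mul_ne_zero (pow_ne_zero _ h.t) h.A) h.G)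
    (mul_ne_zero h4 (pow_ne_zero _ h.M))

lemma separable_gq {τ μ β : K} (h : GoodQ τ μ β) : (gq τ μ β).Separable := by
  apply separable_of_discr_ne_zero (gq_monic _ _ _)
  rw [discr_gq h]
  exact mul_ne_zero h.m (pow_ne_zero _ (discr_gq_ne h))

/-- The trace form of the quartic. -/
theorem cong_gq {τ μ β : K} (h : GoodQ τ μ β) :
    Cong (HH 4 (gq τ μ β)) (diagonal ![1, τ, -(τ * Aq τ μ β), -(μ * Aq τ μ β)]) := by
  have hsep := separable_gq h
  have hS := HH_isSymm 4 (gq τ μ β)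
  have hdet := det_HH_ne_zero (gq_monic τ μ β) (natDegree_gq τ μ β) hsep
  have hdisc := det_HH (gq_monic τ μ β) (natDegree_gq τ μ β) hsep
  have ht := h.t
  have hM := h.M
  have hA := h.A
  have h2 : (2 : K) ≠ 0 := by norm_num
  have h4 : (4 : K) ≠ 0 := by norm_num
  have h16 : (16 : K) ≠ 0 := by norm_num
  set q : K := -(τ * Aq τ μ β * β / (2 * Mq τ μ)) with hq
  set n0 : K := -(τ * Aq τ μ β) * Gq τ μ β / (2 * Mq τ μ / τ) ^ 2 with hn0
  let E : Matrix (Fin 4) (Fin 3) K := !![1 / 2, 0, -τ / 4; 0, 1, 3 * q / τ; 0, 0, 1; 0, 0, 0]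
  have hE : Eᵀ * HH 4 (gq τ μ β) * E = diagonal ![1, τ, n0] := by
    have hb := beta_sq (μ := μ) (β := β) h.t
    have hHH : HH 4 (gq τ μ β) = _ := HH_dq (p := -(τ / 2)) (q := q)
      (r := τ ^ 2 * (3 * Aq τ μ β ^ 2 + 4 * τ * Aq τ μ β + Mq τ μ) / (16 * Mq τ μ)) hsep
    rw [hHH]
    have hq2 : q ^ 2 = τ ^ 2 * Aq τ μ β ^ 2 * (τ ^ 2 * (Aq τ μ β + τ) - τ * μ) /
        (4 * Mq τ μ ^ 2) := by
      rw [hq, ← hb]
      field_simp
      ring
    have hkey : 2 * (τ / 2) ^ 2 - 4 * (τ ^ 2 * (3 * Aq τ μ β ^ 2 + 4 * τ * Aq τ μ β + Mq τ μ) /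
        (16 * Mq τ μ)) - τ ^ 2 / 4 - 9 * q ^ 2 / τ = n0 := by
      rw [hq2, hn0]
      unfold Gq
      generalize Aq τ μ β = A at *
      unfold Mq at *
      field_simp
      ring
    clear_value q n0
    ext i j
    fin_cases i <;> fin_cases j <;>
      simp [E, Matrix.mul_apply, Fin.sum_univ_succ, Matrix.transpose_apply]
    · norm_num
    · ring
    · ring
    · field_simp
      ring
    · ring
    · field_simp
      ring
    · rw [← hkey]
      field_simp
      ring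
  have hn00 : n0 ≠ 0 := by
    rw [hn0]
    exact div_ne_zero (mul_ne_zero (neg_ne_zero.mpr (mul_ne_zero ht hA)) h.G)
      (pow_ne_zero _ (div_ne_zero (mul_ne_zero h2 hM) ht))
  have hDdet : (diagonal ![1, τ, n0]).det = τ * n0 := by
    rw [det_diagonal, Fin.prod_univ_three]
    simp
  have c1 := cong_of_partial (by simp) hS hdet hE (by rw [hDdet]; exact mul_ne_zero ht hn00)
  have c2 : Cong (sq1 (μ * τ * n0)) (sq1 ((HH 4 (gq τ μ β)).det * (diagonal ![1, τ, n0]).det)) := by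
    refine Cong.sq1_of_eq (discr_gq_ne h) ?_
    rw [hdisc, hDdet, discr_gq h]
    ring
  have c3 := (c1.trans ((Cong.refl _).osum c2.symm)).trans (cong_diag4_31 1 τ n0 (μ * τ * n0)).symm
  have c4 : Cong (diagonal ![n0, μ * τ * n0])
      (diagonal ![-(τ * Aq τ μ β), μ * τ * -(τ * Aq τ μ β)]) := by
    refine cong_binary (c := 6 * (Aq τ μ β + τ) * (2 * Mq τ μ / τ) / (τ * Aq τ μ β))
      (r := Gq τ μ β + (3 * Aq τ μ β + 2 * τ) * (3 * Aq τ μ β + 4 * τ)) (s := 12 * β / τ)
      hn00 (neg_ne_zero.mpr (mul_ne_zero ht hA)) ?_ ?_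
    · have h6 : (6 : K) ≠ 0 := by norm_num
      exact div_ne_zero (mul_ne_zero (mul_ne_zero h6 h.At) (div_ne_zero (mul_ne_zero h2 hM) ht))
        (mul_ne_zero ht hA)
    · have hb := beta_sq (μ := μ) (β := β) h.t
      have hs : (12 * β / τ) ^ 2 = 144 * (τ ^ 2 * (Aq τ μ β + τ) - τ * μ) / τ ^ 2 := by
        rw [← hb]
        ring
      rw [hs, hn0]
      unfold Gq
      generalize Aq τ μ β = A at *
      unfold Mq at *
      field_simp
      ring
  have c5 : Cong (diagonal ![-(τ * Aq τ μ β), μ * τ * -(τ * Aq τ μ β)])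
      (diagonal ![-(τ * Aq τ μ β), -(μ * Aq τ μ β)]) := by
    have := Cong.diagonal_mul_sq ![-(τ * Aq τ μ β), -(μ * Aq τ μ β)] ![1, τ] (by
      intro i
      fin_cases i
      · exact one_ne_zero
      · exact ht)
    refine Cong.symm (this.trans (Cong.of_eq ?_))
    congr 1
    ext i
    fin_cases i
    · simp
    · simp
      ring
  exact ((c3.trans (cong_diag4_22 _ _ _ _)).trans ((Cong.refl _).osum (c4.trans c5))).trans
    (cong_diag4_22 _ _ _ _).symm

private lemma exists_gq_aux {p q r w N : K} (hr : r = (N + 4 * p * w + 3 * p ^ 2) / 12)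
    (hw : w ≠ 0) (hN : N ≠ 0) (h0 : p ≠ 0) (hI : N + 4 * p * w + 4 * p ^ 2 ≠ 0)
    (hB : N + 3 * p * w ≠ 0) (hm : N - w ^ 2 ≠ 0)
    (h27 : 27 * q ^ 2 = 6 * p * (N + 4 * p * w + 4 * p ^ 2) - 8 * p ^ 3 -
      2 * (N + 4 * p * w + 4 * p ^ 2) * (w + 2 * p)) :
    ∃ τ μ β : K, GoodQ τ μ β ∧ gq τ μ β = dq p q r := by
  have t2 : (2 : K) ≠ 0 := by norm_num
  have t3 : (3 : K) ≠ 0 := by norm_num
  have t4 : (4 : K) ≠ 0 := by norm_num
  have ht : (-(2 * p) : K) ≠ 0 := neg_ne_zero.mpr (mul_ne_zero t2 h0)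
  have hA : Aq (-(2 * p)) (4 * p ^ 2 * (N - w ^ 2) / (3 * w ^ 2)) (-(6 * p * q / w)) =
      -(2 * N / (3 * w)) := by
    have hq : q ^ 2 = (6 * p * (N + 4 * p * w + 4 * p ^ 2) - 8 * p ^ 3 -
      2 * (N + 4 * p * w + 4 * p ^ 2) * (w + 2 * p)) / 27 := by
      rw [← h27]
      ring
    have e1 : (-(6 * p * q / w)) ^ 2 = 36 * p ^ 2 * ((6 * p * (N + 4 * p * w + 4 * p ^ 2) -
      8 * p ^ 3 - 2 * (N + 4 * p * w + 4 * p ^ 2) * (w + 2 * p)) / 27) / w ^ 2 := by
      rw [← hq]
      ring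
    unfold Aq
    rw [e1]
    field_simp
    ring
  have hM : Mq (-(2 * p)) (4 * p ^ 2 * (N - w ^ 2) / (3 * w ^ 2)) = 4 * p ^ 2 * N / w ^ 2 := by
    unfold Mq
    field_simp
    ring
  have hG : Gq (-(2 * p)) (4 * p ^ 2 * (N - w ^ 2) / (3 * w ^ 2)) (-(6 * p * q / w)) =
      4 * (N + 4 * p * w + 4 * p ^ 2) * N / w ^ 2 := by
    unfold Gq
    rw [hA]
    field_simp
    ring
  refine ⟨-(2 * p), 4 * p ^ 2 * (N - w ^ 2) / (3 * w ^ 2), -(6 * p * q / w),
    ⟨ht, ?_, ?_, ?_, ?_, ?_⟩, ?_⟩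
  · exact div_ne_zero (mul_ne_zero (mul_ne_zero t4 (pow_ne_zero _ h0)) hm)
      (mul_ne_zero t3 (pow_ne_zero _ hw))
  · rw [hA]
    exact neg_ne_zero.mpr (div_ne_zero (mul_ne_zero t2 hN) (mul_ne_zero t3 hw))
  · rw [hM]
    exact div_ne_zero (mul_ne_zero (mul_ne_zero t4 (pow_ne_zero _ h0)) hN) (pow_ne_zero _ hw)
  · rw [hG]
    exact div_ne_zero (mul_ne_zero (mul_ne_zero t4 hI) hN) (pow_ne_zero _ hw)
  · rw [hA]
    intro h
    apply hB
    have h5 : -(2 * N / (3 * w)) + -(2 * p) = -(2 * (N + 3 * p * w)) / (3 * w) := by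
      field_simp
      ring
    rw [h5, div_eq_zero_iff] at h
    rcases h with h | h
    · have h6 : (2 : K) * (N + 3 * p * w) = 0 := neg_eq_zero.mp h
      exact (mul_eq_zero.mp h6).resolve_left t2
    · exact absurd h (mul_ne_zero t3 hw)
  · unfold gq
    rw [hA, hM]
    have e1 : -(-(2 * p) / 2) = p := by ring
    have e2 : -(-(2 * p) * -(2 * N / (3 * w)) * -(6 * p * q / w) /
        (2 * (4 * p ^ 2 * N / w ^ 2))) = q := by
      field_simp
      ring
    have e3 : (-(2 * p)) ^ 2 * (3 * (-(2 * N / (3 * w))) ^ 2 +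
        4 * -(2 * p) * -(2 * N / (3 * w)) + 4 * p ^ 2 * N / w ^ 2) /
        (16 * (4 * p ^ 2 * N / w ^ 2)) = r := by
      rw [hr]
      field_simp
      ring
    rw [e1, e2, e3]

/-- The generic quartic has this form (`I = 12 r + p ^ 2`, `J = 72 p r - 27 q ^ 2 - 2 p ^ 3`). -/
theorem exists_gq {p q r I J : K} (hI : I = 12 * r + p ^ 2)
    (hJ : J = 72 * p * r - 27 * q ^ 2 - 2 * p ^ 3) (hsep : 4 * I ^ 3 ≠ J ^ 2) (h0 : p ≠ 0)
    (h1 : I ≠ 0) (h2 : J - 4 * p * I ≠ 0) (h3 : I ^ 2 - 2 * p * J + 4 * p ^ 2 * I ≠ 0)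
    (h4 : 2 * I ^ 2 - p * J - 4 * p ^ 2 * I ≠ 0) :
    ∃ τ μ β : K, GoodQ τ μ β ∧ gq τ μ β = dq p q r := by
  obtain ⟨u, hu⟩ : ∃ u : K, J = 2 * I * u := ⟨J / (2 * I), by field_simp⟩
  obtain ⟨w, rfl⟩ : ∃ w : K, u = w + 2 * p := ⟨u - 2 * p, by ring⟩
  obtain ⟨N, rfl⟩ : ∃ N : K, I = N + 4 * p * w + 4 * p ^ 2 :=
    ⟨I - 4 * p * w - 4 * p ^ 2, by ring⟩
  subst hu
  refine exists_gq_aux (w := w) (N := N) ?_ ?_ ?_ h0 h1 ?_ ?_ ?_
  · linear_combination (-1 / 12 : K) * hI
  · intro h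
    apply h2
    rw [h]
    ring
  · intro h
    apply h3
    rw [h]
    ring
  · intro h
    apply h4
    have h5 : N = -(3 * p * w) := by linear_combination h
    rw [h5]
    ring
  · intro h
    apply hsep
    have h5 : N = w ^ 2 := by linear_combination h
    rw [h5]
    ring
  · linear_combination (-6 * p) * hI + hJ

/-- Summary for translates of good quartics. -/
theorem gq_comp_info {τ μ β : K} (h : GoodQ τ μ β) (c : K) :
    ((gq τ μ β).comp (X - C c)).Monic ∧ ((gq τ μ β).comp (X - C c)).natDegree = 4 ∧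
      ((gq τ μ β).comp (X - C c)).Separable ∧
      (∃ e : K, e ≠ 0 ∧ ((gq τ μ β).comp (X - C c)).discr = μ * e ^ 2) ∧
      Cong (HH 4 ((gq τ μ β).comp (X - C c)))
        (diagonal ![1, τ, -(τ * Aq τ μ β), -(μ * Aq τ μ β)]) := by
  obtain ⟨h1, h2, h3, h4, h5⟩ := comp_info (gq_monic τ μ β) (natDegree_gq τ μ β)
    (separable_gq h) c
  exact ⟨h1, h2, h3, ⟨_, discr_gq_ne h, by rw [h4, discr_gq h]⟩, h5.symm.trans (cong_gq h)⟩

end Pool.Agent.Lib.MP_12adaf_nt.TF
end
end

section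

section

/-!
# Weak approximation for the sphere over a quadratic extension
-/

namespace Pool.Agent.Lib.MP_12adaf_nt.TF

set_option linter.unusedSectionVars false
set_option linter.unusedVariables false

open Finset Filter Topology

/-- `y + u √D` lies on the quadric `∑ a_l x_l ^ 2 = 1`. -/
def OnS {K : Type*} [CommRing K] {ι : Type*} [Fintype ι] (a : ι → K) (D : K) (y u : ι → K) :
    Prop :=
  ∑ l, a l * y l ^ 2 + D * ∑ l, a l * u l ^ 2 = 1 ∧ ∑ l, a l * (y l * u l) = 0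

section SphAux

variable {K : Type*} [Field K]

/-- The bilinear form with the diagonal `a`. -/
def sf (a x y : Fin 4 → K) : K := ∑ l, a l * (x l * y l)

/-- The norm of `q(p + r √D)`. -/
def sN (a : Fin 4 → K) (D : K) (p r : Fin 4 → K) : K :=
  (sf a p p + D * sf a r r) ^ 2 - D * (2 * sf a p r) ^ 2

/-- First component of the coefficient of the reflection. -/
def sc1 (a : Fin 4 → K) (D : K) (p r y u : Fin 4 → K) : K :=
  2 * ((sf a y p + D * sf a u r) * (sf a p p + D * sf a r r) -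
    D * (sf a y r + sf a u p) * (2 * sf a p r)) / sN a D p r

/-- Second component of the coefficient of the reflection. -/
def sc2 (a : Fin 4 → K) (D : K) (p r y u : Fin 4 → K) : K :=
  2 * ((sf a y r + sf a u p) * (sf a p p + D * sf a r r) -
    (sf a y p + D * sf a u r) * (2 * sf a p r)) / sN a D p r

/-- First component of the image of `y + u √D` under the reflection in `p + r √D`. -/
def sY (a : Fin 4 → K) (D : K) (p r y u : Fin 4 → K) (l : Fin 4) : K :=
  y l - (sc1 a D p r y u * p l + D * sc2 a D p r y u * r l)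

/-- Second component of the image of `y + u √D` under the reflection in `p + r √D`. -/
def sU (a : Fin 4 → K) (D : K) (p r y u : Fin 4 → K) (l : Fin 4) : K :=
  u l - (sc1 a D p r y u * r l + sc2 a D p r y u * p l)

lemma onS_iff (a : Fin 4 → K) (D : K) (y u : Fin 4 → K) :
    OnS a D y u ↔ sf a y y + D * sf a u u = 1 ∧ sf a y u = 0 := by
  simp only [OnS, sf, sq]

lemma sf_comm (a x y : Fin 4 → K) : sf a x y = sf a y x := by
  simp only [sf, mul_comm]

lemma sf_expand (a x y z x' y' z' : Fin 4 → K) (c d c' d' : K) :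
    sf a (fun l => x l - (c * y l + d * z l)) (fun l => x' l - (c' * y' l + d' * z' l)) =
      sf a x x' - c' * sf a x y' - d' * sf a x z' - c * sf a y x' + c * c' * sf a y y' +
        c * d' * sf a y z' - d * sf a z x' + d * c' * sf a z y' + d * d' * sf a z z' := by
  simp only [sf, Fin.sum_univ_four]
  ring

/-- Reflections preserve the sphere. -/
lemma sYU_onS [CharZero K] (a : Fin 4 → K) (D : K) (p r : Fin 4 → K) {y u : Fin 4 → K} (h : OnS a D y u) :
    OnS a D (sY a D p r y u) (sU a D p r y u) := by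
  rw [onS_iff] at h ⊢
  obtain ⟨h1, h2⟩ := h
  set c1 := sc1 a D p r y u with hc1
  set c2 := sc2 a D p r y u with hc2
  have eY : sY a D p r y u = fun l => y l - (c1 * p l + (D * c2) * r l) := rfl
  have eU : sU a D p r y u = fun l => u l - (c1 * r l + c2 * p l) := rfl
  rw [eY, eU, sf_expand, sf_expand, sf_expand]
  by_cases hN : sN a D p r = 0
  · have z1 : c1 = 0 := by rw [hc1, sc1, hN, div_zero]
    have z2 : c2 = 0 := by rw [hc2, sc2, hN, div_zero]
    rw [z1, z2]
    constructor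
    · linear_combination h1
    · linear_combination h2
  · have R1 : c1 * (sf a p p + D * sf a r r) + D * c2 * (2 * sf a p r) =
        2 * (sf a y p + D * sf a u r) := by
      rw [hc1, hc2, sc1, sc2]
      field_simp
      rw [sN]
      ring
    have R2 : c1 * (2 * sf a p r) + c2 * (sf a p p + D * sf a r r) =
        2 * (sf a y r + sf a u p) := by
      rw [hc1, hc2, sc1, sc2]
      field_simp
      rw [sN]
      ring
    rw [sf_comm a p y, sf_comm a r y, sf_comm a r p, sf_comm a p u, sf_comm a r u]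
    constructor
    · linear_combination h1 + c1 * R1 + D * c2 * R2
    · linear_combination h2 + 1 / 2 * c1 * R2 + 1 / 2 * c2 * R1

/-- The reflection in the difference of two points of the sphere exchanges them. -/
lemma sYU_diff [CharZero K] {a : Fin 4 → K} {D : K} {y u y' u' : Fin 4 → K} (h : OnS a D y u)
    (h' : OnS a D y' u') (hN : sN a D (fun l => y l - y' l) (fun l => u l - u' l) ≠ 0) :
    sY a D (fun l => y l - y' l) (fun l => u l - u' l) y u = y' ∧
      sU a D (fun l => y l - y' l) (fun l => u l - u' l) y u = u' := by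
  rw [onS_iff] at h h'
  obtain ⟨h1, h2⟩ := h
  obtain ⟨h3, h4⟩ := h'
  have hs : ∀ x x' z z' : Fin 4 → K, sf a (fun l => x l - x' l) (fun l => z l - z' l) =
      sf a x z - sf a x z' - sf a x' z + sf a x' z' := by
    intro x x' z z'
    simp only [sf, Fin.sum_univ_four]
    ring
  have hs' : ∀ x z z' : Fin 4 → K, sf a x (fun l => z l - z' l) = sf a x z - sf a x z' := by
    intro x z z'
    simp only [sf, Fin.sum_univ_four]
    ring
  have e1 : 2 * (sf a y (fun l => y l - y' l) + D * sf a u (fun l => u l - u' l)) =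
      sf a (fun l => y l - y' l) (fun l => y l - y' l) +
        D * sf a (fun l => u l - u' l) (fun l => u l - u' l) := by
    rw [hs, hs, hs', hs', sf_comm a y' y, sf_comm a u' u]
    linear_combination h1 - h3
  have e2 : 2 * (sf a y (fun l => u l - u' l) + sf a u (fun l => y l - y' l)) =
      2 * (sf a (fun l => y l - y' l) (fun l => u l - u' l)) := by
    rw [hs, hs', hs', sf_comm a u y, sf_comm a y' u]
    linear_combination 2 * h2 - 2 * h4
  have c1 : sc1 a D (fun l => y l - y' l) (fun l => u l - u' l) y u = 1 := by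
    rw [sc1, div_eq_one_iff_eq hN, sN]
    linear_combination (sf a (fun l => y l - y' l) (fun l => y l - y' l) +
        D * sf a (fun l => u l - u' l) (fun l => u l - u' l)) * e1 -
      D * (2 * sf a (fun l => y l - y' l) (fun l => u l - u' l)) * e2
  have c2 : sc2 a D (fun l => y l - y' l) (fun l => u l - u' l) y u = 0 := by
    rw [sc2, div_eq_zero_iff]
    left
    linear_combination (sf a (fun l => y l - y' l) (fun l => y l - y' l) +
        D * sf a (fun l => u l - u' l) (fun l => u l - u' l)) * e2 -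
      (2 * sf a (fun l => y l - y' l) (fun l => u l - u' l)) * e1
  constructor
  · funext l
    rw [sY, c1, c2]
    ring
  · funext l
    rw [sU, c1, c2]
    ring

/-- A quadratic form that does not vanish. -/
lemma sph_ne [CharZero K] {a : Fin 4 → K} (ha : ∀ l, a l ≠ 0) (x z : Fin 4 → K) :
    ∃ w : Fin 4 → K, (1 - sf a x z) * sf a w w + 2 * (sf a x w * sf a z w) ≠ 0 := by
  by_contra hcon
  push Not at hcon
  have f0 := hcon ![1, 0, 0, 0]
  have f1 := hcon ![0, 1, 0, 0]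
  have f2 := hcon ![0, 0, 1, 0]
  have f3 := hcon ![0, 0, 0, 1]
  have f01 := hcon ![1, 1, 0, 0]
  have f02 := hcon ![1, 0, 1, 0]
  have f12 := hcon ![0, 1, 1, 0]
  have hc : sf a x z = a 0 * (x 0 * z 0) + a 1 * (x 1 * z 1) + a 2 * (x 2 * z 2) +
      a 3 * (x 3 * z 3) := by
    simp only [sf, Fin.sum_univ_four]
  set c := sf a x z with hcd
  simp only [sf, Fin.sum_univ_four, Matrix.cons_val_zero, Matrix.cons_val_one, Matrix.cons_val,
    mul_one, mul_zero, add_zero, zero_add] at f0 f1 f2 f3 f01 f02 f12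
  have a0 := ha 0
  have a1 := ha 1
  have a2 := ha 2
  have a3 := ha 3
  have g0 : (1 - c) + 2 * (a 0 * (x 0 * z 0)) = 0 := by
    apply mul_left_cancel₀ a0
    linear_combination f0
  have g1 : (1 - c) + 2 * (a 1 * (x 1 * z 1)) = 0 := by
    apply mul_left_cancel₀ a1
    linear_combination f1
  have g2 : (1 - c) + 2 * (a 2 * (x 2 * z 2)) = 0 := by
    apply mul_left_cancel₀ a2
    linear_combination f2
  have g3 : (1 - c) + 2 * (a 3 * (x 3 * z 3)) = 0 := by
    apply mul_left_cancel₀ a3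
    linear_combination f3
  have hc2 : c = 2 := by linear_combination -(1 / 2 : K) * (g0 + g1 + g2 + g3) - hc
  have k0 : x 0 * z 0 ≠ 0 := by
    intro h
    rw [h, hc2] at g0
    norm_num at g0
  have k1 : z 1 ≠ 0 := by
    intro h
    rw [h, hc2] at g1
    norm_num at g1
  have k2 : z 2 ≠ 0 := by
    intro h
    rw [h, hc2] at g2
    norm_num at g2
  have m01 : x 0 * z 1 + x 1 * z 0 = 0 := by
    apply mul_left_cancel₀ (mul_ne_zero a0 a1)
    linear_combination (1 / 2 : K) * (f01 - f0 - f1)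
  have m02 : x 0 * z 2 + x 2 * z 0 = 0 := by
    apply mul_left_cancel₀ (mul_ne_zero a0 a2)
    linear_combination (1 / 2 : K) * (f02 - f0 - f2)
  have m12 : x 1 * z 2 + x 2 * z 1 = 0 := by
    apply mul_left_cancel₀ (mul_ne_zero a1 a2)
    linear_combination (1 / 2 : K) * (f12 - f1 - f2)
  have : 2 * (x 0 * z 0) * z 1 * z 2 = 0 := by
    linear_combination z 0 * z 2 * m01 + z 0 * z 1 * m02 - z 0 ^ 2 * m12
  have h5 : (2 : K) * (x 0 * z 0) * z 1 * z 2 ≠ 0 :=
    mul_ne_zero (mul_ne_zero (mul_ne_zero two_ne_zero k0) k1) k2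
  exact h5 this

open MvPolynomial in
/-- The quadratic form of `sph_ne` as a polynomial. -/
lemma sph_eval (a x z w : Fin 4 → K) (c d : K) :
    MvPolynomial.eval w (C c * (∑ l, C (a l) * (X l * X l)) +
      C d * ((∑ l, C (a l * x l) * X l) * (∑ l, C (a l * z l) * X l))) =
      c * sf a w w + d * (sf a x w * sf a z w) := by
  simp only [map_add, map_mul, map_sum, eval_C, eval_X, sf, mul_assoc]

/-- There is a rational vector with good reflections. -/
lemma sph_local [CharZero K] {a : Fin 4 → K} (ha : ∀ l, a l ≠ 0) {D : K} {y0 u0 y u : Fin 4 → K}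
    (h0 : OnS a D y0 u0) (h : OnS a D y u) : ∃ w : Fin 4 → K, sN a D w (fun _ => 0) ≠ 0 ∧
      sN a D (fun l => sY a D w (fun _ => 0) y0 u0 l - y l)
        (fun l => sU a D w (fun _ => 0) y0 u0 l - u l) ≠ 0 := by
  let Ω := AlgebraicClosure K
  let f : K →+* Ω := algebraMap K Ω
  have hf : Function.Injective f := f.injective
  have : CharZero Ω := charZero_of_injective_algebraMap (algebraMap K Ω).injective
  obtain ⟨δ, hδ⟩ := IsAlgClosed.exists_pow_nat_eq (f D) (n := 2) (by norm_num)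
  have fsf : ∀ x z : Fin 4 → K, f (sf a x z) = sf (fun l => f (a l)) (fun l => f (x l))
      (fun l => f (z l)) := by
    intro x z
    simp only [sf, map_sum, map_mul]
  have haf : ∀ l, f (a l) ≠ 0 := fun l => (map_ne_zero f).2 (ha l)
  -- the two forms over `Ω`
  let af : Fin 4 → Ω := fun l => f (a l)
  let xp : Fin 4 → Ω := fun l => f (y0 l) + δ * f (u0 l)
  let xm : Fin 4 → Ω := fun l => f (y0 l) - δ * f (u0 l)
  let zp : Fin 4 → Ω := fun l => f (y l) + δ * f (u l)
  let zm : Fin 4 → Ω := fun l => f (y l) - δ * f (u l)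
  let PP : (Fin 4 → Ω) → (Fin 4 → Ω) → MvPolynomial (Fin 4) Ω := fun x z =>
    MvPolynomial.C (1 - sf af x z) *
      (∑ l, MvPolynomial.C (af l) * (MvPolynomial.X l * MvPolynomial.X l)) +
    MvPolynomial.C 2 * ((∑ l, MvPolynomial.C (af l * x l) * MvPolynomial.X l) *
      (∑ l, MvPolynomial.C (af l * z l) * MvPolynomial.X l))
  let PQ : MvPolynomial (Fin 4) Ω :=
    ∑ l, MvPolynomial.C (af l) * (MvPolynomial.X l * MvPolynomial.X l)
  have ePP : ∀ x z w, MvPolynomial.eval w (PP x z) =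
      (1 - sf af x z) * sf af w w + 2 * (sf af x w * sf af z w) := by
    intro x z w
    exact sph_eval af x z w _ _
  have ePQ : ∀ w, MvPolynomial.eval w PQ = sf af w w := by
    intro w
    simp only [PQ, map_sum, map_mul, MvPolynomial.eval_C, MvPolynomial.eval_X, sf]
  have nPP : ∀ x z, PP x z ≠ 0 := by
    intro x z h0
    obtain ⟨w, hw⟩ := sph_ne haf x z
    apply hw
    rw [← ePP x z w, h0, map_zero]
  have nPQ : PQ ≠ 0 := by
    intro h0
    have h1 := ePQ ![1, 0, 0, 0]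
    rw [h0, map_zero] at h1
    simp only [sf, Fin.sum_univ_four, Matrix.cons_val_zero, Matrix.cons_val_one, Matrix.cons_val,
      mul_one, mul_zero, add_zero] at h1
    exact haf 0 h1.symm
  have nall : PQ * (PP xp zp * PP xm zm) ≠ 0 := mul_ne_zero nPQ (mul_ne_zero (nPP _ _) (nPP _ _))
  obtain ⟨x, hx, hxe⟩ : ∃ x ∈ Set.pi Set.univ (fun _ : Fin 4 => Set.range f),
      MvPolynomial.eval x (PQ * (PP xp zp * PP xm zm)) ≠ 0 := by
    by_contra hcon
    push Not at hcon
    apply nall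
    refine MvPolynomial.funext_set (fun _ : Fin 4 => Set.range f)
      (fun _ => Set.infinite_range_of_injective hf) fun x hx => ?_
    rw [hcon x hx, map_zero]
  choose w hw using fun l => hx l (Set.mem_univ l)
  have hxw : x = fun l => f (w l) := by
    funext l
    exact (hw l).symm
  rw [map_mul, map_mul, ePQ, ePP, ePP, hxw] at hxe
  have n1 := left_ne_zero_of_mul hxe
  have n2 := left_ne_zero_of_mul (right_ne_zero_of_mul hxe)
  have n3 := right_ne_zero_of_mul (right_ne_zero_of_mul hxe)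
  have q0 : sf a w w ≠ 0 := by
    intro h0
    apply n1
    rw [← fsf, h0, map_zero]
  rw [onS_iff] at h0 h
  obtain ⟨h01, h02⟩ := h0
  obtain ⟨h1, h2⟩ := h
  set q := sf a w w with hq
  set A1 := sf a y0 w with hA1
  set A2 := sf a u0 w with hA2
  set B1 := sf a y w with hB1
  set B2 := sf a u w with hB2
  set P1 : K := (1 - (sf a y0 y + D * sf a u0 u)) * q + 2 * (A1 * B1 + D * (A2 * B2)) with hP1
  set P2 : K := -(sf a y0 u + sf a u0 y) * q + 2 * (A1 * B2 + A2 * B1) with hP2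
  have m1 : (1 - sf af xp zp) * sf af (fun l => f (w l)) (fun l => f (w l)) +
      2 * (sf af xp (fun l => f (w l)) * sf af zp (fun l => f (w l))) = f P1 + δ * f P2 := by
    have e1 : sf af xp zp = f (sf a y0 y) + δ * f (sf a y0 u) + δ * f (sf a u0 y) +
        f D * f (sf a u0 u) := by
      rw [fsf, fsf, fsf, fsf, ← hδ]
      simp only [sf, xp, zp, af, Fin.sum_univ_four]
      ring
    have e2 : ∀ v v' : Fin 4 → K, sf af (fun l => f (v l) + δ * f (v' l)) (fun l => f (w l)) =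
        f (sf a v w) + δ * f (sf a v' w) := by
      intro v v'
      rw [fsf, fsf]
      simp only [sf, af, Fin.sum_univ_four]
      ring
    have e3 : sf af (fun l => f (w l)) (fun l => f (w l)) = f q := (fsf w w).symm
    rw [e1, e3, e2 y0 u0, e2 y u, hP1, hP2]
    simp only [map_add, map_sub, map_mul, map_neg, map_one, map_ofNat]
    linear_combination 2 * f A2 * f B2 * hδ
  have m2 : (1 - sf af xm zm) * sf af (fun l => f (w l)) (fun l => f (w l)) +
      2 * (sf af xm (fun l => f (w l)) * sf af zm (fun l => f (w l))) = f P1 - δ * f P2 := by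
    have e1 : sf af xm zm = f (sf a y0 y) - δ * f (sf a y0 u) - δ * f (sf a u0 y) +
        f D * f (sf a u0 u) := by
      rw [fsf, fsf, fsf, fsf, ← hδ]
      simp only [sf, xm, zm, af, Fin.sum_univ_four]
      ring
    have e2 : ∀ v v' : Fin 4 → K, sf af (fun l => f (v l) - δ * f (v' l)) (fun l => f (w l)) =
        f (sf a v w) - δ * f (sf a v' w) := by
      intro v v'
      rw [fsf, fsf]
      simp only [sf, af, Fin.sum_univ_four]
      ring
    have e3 : sf af (fun l => f (w l)) (fun l => f (w l)) = f q := (fsf w w).symm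
    rw [e1, e3, e2 y0 u0, e2 y u, hP1, hP2]
    simp only [map_add, map_sub, map_mul, map_neg, map_one, map_ofNat]
    linear_combination 2 * f A2 * f B2 * hδ
  rw [m1] at n2
  rw [m2] at n3
  have nP : P1 ^ 2 - D * P2 ^ 2 ≠ 0 := by
    intro h0
    apply mul_ne_zero n2 n3
    have := congrArg f h0
    simp only [map_sub, map_mul, map_pow, map_zero] at this
    linear_combination this - (f P2) ^ 2 * hδ
  have z1 : ∀ x : Fin 4 → K, sf a x (fun _ => 0) = 0 := by
    intro x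
    simp [sf]
  have hN0 : sN a D w (fun _ => 0) = q ^ 2 := by
    rw [sN, z1, z1]
    ring
  refine ⟨w, by rw [hN0]; exact pow_ne_zero 2 q0, ?_⟩
  set c1 := sc1 a D w (fun _ => 0) y0 u0 with hc1
  set c2 := sc2 a D w (fun _ => 0) y0 u0 with hc2
  have E1 : c1 * q = 2 * A1 := by
    rw [hc1, sc1, hN0, z1, z1, z1, z1]
    field_simp
    ring
  have E2 : c2 * q = 2 * A2 := by
    rw [hc2, sc2, hN0, z1, z1, z1, z1]
    field_simp
    ring
  have eT1 : (fun l => sY a D w (fun _ => 0) y0 u0 l - y l) =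
      fun l => y0 l - (c1 * w l + 1 * y l) := by
    funext l
    rw [sY]
    ring
  have eT2 : (fun l => sU a D w (fun _ => 0) y0 u0 l - u l) =
      fun l => u0 l - (c2 * w l + 1 * u l) := by
    funext l
    rw [sU]
    ring
  have g1 : q * (sf a (fun l => y0 l - (c1 * w l + 1 * y l)) (fun l => y0 l - (c1 * w l + 1 * y l)) +
      D * sf a (fun l => u0 l - (c2 * w l + 1 * u l)) (fun l => u0 l - (c2 * w l + 1 * u l))) =
      2 * P1 := by
    rw [sf_expand, sf_expand, sf_comm a w y0, sf_comm a w u0, sf_comm a w y, sf_comm a w u,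
      sf_comm a y y0, sf_comm a u u0, hP1]
    linear_combination q * (h01 + h1) + q * c1 * E1 + q * D * c2 * E2 + 2 * B1 * E1 +
      2 * D * B2 * E2
  have g2 : q * (2 * sf a (fun l => y0 l - (c1 * w l + 1 * y l))
      (fun l => u0 l - (c2 * w l + 1 * u l))) = 2 * P2 := by
    rw [sf_expand, sf_comm a w u0, sf_comm a w u, sf_comm a y u0, hP2]
    linear_combination 2 * q * (h02 + h2) + q * c2 * E1 + q * c1 * E2 + 2 * B2 * E1 + 2 * B1 * E2
  rw [eT1, eT2]
  intro h0
  apply nP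
  rw [sN] at h0
  have h4 : (4 : K) ≠ 0 := by norm_num
  apply mul_left_cancel₀ h4
  rw [mul_zero]
  linear_combination q ^ 2 * h0 - (q * (sf a (fun l => y0 l - (c1 * w l + 1 * y l))
      (fun l => y0 l - (c1 * w l + 1 * y l)) + D * sf a (fun l => u0 l - (c2 * w l + 1 * u l))
      (fun l => u0 l - (c2 * w l + 1 * u l))) + 2 * P1) * g1 +
    D * (q * (2 * sf a (fun l => y0 l - (c1 * w l + 1 * y l))
      (fun l => u0 l - (c2 * w l + 1 * u l))) + 2 * P2) * g2

lemma map_sf {L : Type*} [Field L] (f : K →+* L) (a x y : Fin 4 → K) :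
    f (sf a x y) = sf (fun l => f (a l)) (fun l => f (x l)) (fun l => f (y l)) := by
  simp only [sf, map_sum, map_mul]

lemma map_sN {L : Type*} [Field L] (f : K →+* L) (a : Fin 4 → K) (D : K) (p r : Fin 4 → K) :
    f (sN a D p r) = sN (fun l => f (a l)) (f D) (fun l => f (p l)) (fun l => f (r l)) := by
  simp only [sN, map_sub, map_add, map_mul, map_pow, map_ofNat, map_sf]

lemma map_sc1 {L : Type*} [Field L] (f : K →+* L) (a : Fin 4 → K) (D : K) (p r y u : Fin 4 → K) :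
    f (sc1 a D p r y u) = sc1 (fun l => f (a l)) (f D) (fun l => f (p l)) (fun l => f (r l))
      (fun l => f (y l)) (fun l => f (u l)) := by
  simp only [sc1, map_div₀, map_sub, map_add, map_mul, map_ofNat, map_sf, map_sN]

lemma map_sc2 {L : Type*} [Field L] (f : K →+* L) (a : Fin 4 → K) (D : K) (p r y u : Fin 4 → K) :
    f (sc2 a D p r y u) = sc2 (fun l => f (a l)) (f D) (fun l => f (p l)) (fun l => f (r l))
      (fun l => f (y l)) (fun l => f (u l)) := by
  simp only [sc2, map_div₀, map_sub, map_add, map_mul, map_ofNat, map_sf, map_sN]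

lemma map_sY {L : Type*} [Field L] (f : K →+* L) (a : Fin 4 → K) (D : K) (p r y u : Fin 4 → K)
    (l : Fin 4) :
    f (sY a D p r y u l) = sY (fun l => f (a l)) (f D) (fun l => f (p l)) (fun l => f (r l))
      (fun l => f (y l)) (fun l => f (u l)) l := by
  simp only [sY, map_sub, map_add, map_mul, map_sc1, map_sc2]

lemma map_sU {L : Type*} [Field L] (f : K →+* L) (a : Fin 4 → K) (D : K) (p r y u : Fin 4 → K)
    (l : Fin 4) :
    f (sU a D p r y u l) = sU (fun l => f (a l)) (f D) (fun l => f (p l)) (fun l => f (r l))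
      (fun l => f (y l)) (fun l => f (u l)) l := by
  simp only [sU, map_sub, map_add, map_mul, map_sc1, map_sc2]

end SphAux

section SphLim

variable {L : Type*} [NormedField L] {x x' : ℕ → Fin 4 → L} {x0 x0' : Fin 4 → L}

lemma tendsto_sf (a : Fin 4 → L) (hx : ∀ l, Tendsto (fun j => x j l) atTop (𝓝 (x0 l)))
    (hx' : ∀ l, Tendsto (fun j => x' j l) atTop (𝓝 (x0' l))) :
    Tendsto (fun j => sf a (x j) (x' j)) atTop (𝓝 (sf a x0 x0')) :=
  tendsto_finsetSum _ fun l _ => tendsto_const_nhds.mul ((hx l).mul (hx' l))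

variable {p r y u : ℕ → Fin 4 → L} {p0 r0 y0 u0 : Fin 4 → L}

lemma tendsto_sN (a : Fin 4 → L) (D : L) (hp : ∀ l, Tendsto (fun j => p j l) atTop (𝓝 (p0 l)))
    (hr : ∀ l, Tendsto (fun j => r j l) atTop (𝓝 (r0 l))) :
    Tendsto (fun j => sN a D (p j) (r j)) atTop (𝓝 (sN a D p0 r0)) :=
  (((tendsto_sf a hp hp).add (tendsto_const_nhds.mul (tendsto_sf a hr hr))).pow 2).sub
    (tendsto_const_nhds.mul ((tendsto_const_nhds.mul (tendsto_sf a hp hr)).pow 2))

lemma tendsto_sc1 (a : Fin 4 → L) (D : L) (hp : ∀ l, Tendsto (fun j => p j l) atTop (𝓝 (p0 l)))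
    (hr : ∀ l, Tendsto (fun j => r j l) atTop (𝓝 (r0 l)))
    (hy : ∀ l, Tendsto (fun j => y j l) atTop (𝓝 (y0 l)))
    (hu : ∀ l, Tendsto (fun j => u j l) atTop (𝓝 (u0 l))) (h : sN a D p0 r0 ≠ 0) :
    Tendsto (fun j => sc1 a D (p j) (r j) (y j) (u j)) atTop (𝓝 (sc1 a D p0 r0 y0 u0)) :=
  (tendsto_const_nhds.mul ((((tendsto_sf a hy hp).add (tendsto_const_nhds.mul
    (tendsto_sf a hu hr))).mul ((tendsto_sf a hp hp).add (tendsto_const_nhds.mul
    (tendsto_sf a hr hr)))).sub ((tendsto_const_nhds.mul ((tendsto_sf a hy hr).add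
    (tendsto_sf a hu hp))).mul (tendsto_const_nhds.mul (tendsto_sf a hp hr))))).div
    (tendsto_sN a D hp hr) h

lemma tendsto_sc2 (a : Fin 4 → L) (D : L) (hp : ∀ l, Tendsto (fun j => p j l) atTop (𝓝 (p0 l)))
    (hr : ∀ l, Tendsto (fun j => r j l) atTop (𝓝 (r0 l)))
    (hy : ∀ l, Tendsto (fun j => y j l) atTop (𝓝 (y0 l)))
    (hu : ∀ l, Tendsto (fun j => u j l) atTop (𝓝 (u0 l))) (h : sN a D p0 r0 ≠ 0) :
    Tendsto (fun j => sc2 a D (p j) (r j) (y j) (u j)) atTop (𝓝 (sc2 a D p0 r0 y0 u0)) :=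
  (tendsto_const_nhds.mul ((((tendsto_sf a hy hr).add (tendsto_sf a hu hp)).mul
    ((tendsto_sf a hp hp).add (tendsto_const_nhds.mul (tendsto_sf a hr hr)))).sub
    (((tendsto_sf a hy hp).add (tendsto_const_nhds.mul (tendsto_sf a hu hr))).mul
    (tendsto_const_nhds.mul (tendsto_sf a hp hr))))).div (tendsto_sN a D hp hr) h

lemma tendsto_sY (a : Fin 4 → L) (D : L) (hp : ∀ l, Tendsto (fun j => p j l) atTop (𝓝 (p0 l)))
    (hr : ∀ l, Tendsto (fun j => r j l) atTop (𝓝 (r0 l)))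
    (hy : ∀ l, Tendsto (fun j => y j l) atTop (𝓝 (y0 l)))
    (hu : ∀ l, Tendsto (fun j => u j l) atTop (𝓝 (u0 l))) (h : sN a D p0 r0 ≠ 0) (l : Fin 4) :
    Tendsto (fun j => sY a D (p j) (r j) (y j) (u j) l) atTop (𝓝 (sY a D p0 r0 y0 u0 l)) :=
  (hy l).sub (((tendsto_sc1 a D hp hr hy hu h).mul (hp l)).add ((tendsto_const_nhds.mul
    (tendsto_sc2 a D hp hr hy hu h)).mul (hr l)))

lemma tendsto_sU (a : Fin 4 → L) (D : L) (hp : ∀ l, Tendsto (fun j => p j l) atTop (𝓝 (p0 l)))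
    (hr : ∀ l, Tendsto (fun j => r j l) atTop (𝓝 (r0 l)))
    (hy : ∀ l, Tendsto (fun j => y j l) atTop (𝓝 (y0 l)))
    (hu : ∀ l, Tendsto (fun j => u j l) atTop (𝓝 (u0 l))) (h : sN a D p0 r0 ≠ 0) (l : Fin 4) :
    Tendsto (fun j => sU a D (p j) (r j) (y j) (u j) l) atTop (𝓝 (sU a D p0 r0 y0 u0 l)) :=
  (hu l).sub (((tendsto_sc1 a D hp hr hy hu h).mul (hr l)).add
    ((tendsto_sc2 a D hp hr hy hu h).mul (hp l)))

end SphLim

/-- Weak approximation for the quadric. -/
theorem sphere_approx {k : Type*} [Field k] [CharZero k] {ι : Type*} [Fintype ι]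
    {K : ι → Type*} [∀ i, NormedField (K i)] [∀ i, CharZero (K i)] {φ : ∀ i, k →+* K i}
    (hdense : DenseRange (fun (q : k) (i : ι) => φ i q)) {a : Fin 4 → k} (ha : ∀ l, a l ≠ 0)
    {D : k} (hD : D ≠ 0) {y0 u0 : Fin 4 → k} (h0 : OnS a D y0 u0)
    (y u : ∀ i, Fin 4 → K i) (h : ∀ i, OnS (fun l => φ i (a l)) (φ i D) (y i) (u i)) :
    ∃ ys us : ℕ → Fin 4 → k, (∀ j, OnS a D (ys j) (us j)) ∧
      (∀ i l, Tendsto (fun j => φ i (ys j l)) atTop (𝓝 (y i l))) ∧
      ∀ i l, Tendsto (fun j => φ i (us j l)) atTop (𝓝 (u i l)) := by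
  have hseq : ∀ x : ∀ i, K i, ∃ q : ℕ → k, ∀ i, Tendsto (fun j => φ i (q j)) atTop (𝓝 (x i)) := by
    intro x
    obtain ⟨s, hs, hs'⟩ := mem_closure_iff_seq_limit.1 (hdense x)
    choose q hq using hs
    refine ⟨q, fun i => ?_⟩
    have h1 := (tendsto_pi_nhds.1 hs') i
    refine h1.congr fun j => ?_
    rw [← hq j]
  have hfa : ∀ i l, φ i (a l) ≠ 0 := fun i l => (map_ne_zero (φ i)).2 (ha l)
  have h0i : ∀ i, OnS (fun l => φ i (a l)) (φ i D) (fun l => φ i (y0 l)) (fun l => φ i (u0 l)) := by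
    intro i
    rw [onS_iff] at h0 ⊢
    rw [← map_sf, ← map_sf, ← map_sf, ← map_mul, ← map_add, h0.1, h0.2, map_one, map_zero]
    exact ⟨rfl, rfl⟩
  choose w hw hw' using fun i => sph_local (hfa i) (h0i i) (h i)
  choose ws hws using fun l => hseq fun i => w i l
  choose ps hps using fun l => hseq fun i =>
    sY (fun l => φ i (a l)) (φ i D) (w i) (fun _ => 0) (fun l => φ i (y0 l)) (fun l => φ i (u0 l)) l -
      y i l
  choose rs hrs using fun l => hseq fun i =>
    sU (fun l => φ i (a l)) (φ i D) (w i) (fun _ => 0) (fun l => φ i (y0 l)) (fun l => φ i (u0 l)) l -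
      u i l
  have key : ∀ i (p r y u : ℕ → Fin 4 → k) (p0 r0 y0 u0 : Fin 4 → K i),
      (∀ l, Tendsto (fun j => φ i (p j l)) atTop (𝓝 (p0 l))) →
      (∀ l, Tendsto (fun j => φ i (r j l)) atTop (𝓝 (r0 l))) →
      (∀ l, Tendsto (fun j => φ i (y j l)) atTop (𝓝 (y0 l))) →
      (∀ l, Tendsto (fun j => φ i (u j l)) atTop (𝓝 (u0 l))) →
      sN (fun l => φ i (a l)) (φ i D) p0 r0 ≠ 0 →
      (∀ l, Tendsto (fun j => φ i (sY a D (p j) (r j) (y j) (u j) l)) atTop
        (𝓝 (sY (fun l => φ i (a l)) (φ i D) p0 r0 y0 u0 l))) ∧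
      ∀ l, Tendsto (fun j => φ i (sU a D (p j) (r j) (y j) (u j) l)) atTop
        (𝓝 (sU (fun l => φ i (a l)) (φ i D) p0 r0 y0 u0 l)) := by
    intro i p r y u p0 r0 y0 u0 h1 h2 h3 h4 h5
    constructor
    · intro l
      have := tendsto_sY (p := fun j l => φ i (p j l)) (r := fun j l => φ i (r j l))
        (y := fun j l => φ i (y j l)) (u := fun j l => φ i (u j l)) (fun l => φ i (a l)) (φ i D)
        h1 h2 h3 h4 h5 l
      refine this.congr fun j => ?_
      rw [map_sY]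
    · intro l
      have := tendsto_sU (p := fun j l => φ i (p j l)) (r := fun j l => φ i (r j l))
        (y := fun j l => φ i (y j l)) (u := fun j l => φ i (u j l)) (fun l => φ i (a l)) (φ i D)
        h1 h2 h3 h4 h5 l
      refine this.congr fun j => ?_
      rw [map_sU]
  -- first reflection
  obtain ⟨W, hW⟩ : ∃ W : ℕ → Fin 4 → k, ∀ i l, Tendsto (fun j => φ i (W j l)) atTop (𝓝 (w i l)) :=
    ⟨fun j l => ws l j, fun i l => hws l i⟩
  obtain ⟨P, hP⟩ : ∃ P : ℕ → Fin 4 → k, ∀ i l, Tendsto (fun j => φ i (P j l)) atTop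
      (𝓝 (sY (fun l => φ i (a l)) (φ i D) (w i) (fun _ => 0) (fun l => φ i (y0 l))
        (fun l => φ i (u0 l)) l - y i l)) :=
    ⟨fun j l => ps l j, fun i l => hps l i⟩
  obtain ⟨R, hR⟩ : ∃ R : ℕ → Fin 4 → k, ∀ i l, Tendsto (fun j => φ i (R j l)) atTop
      (𝓝 (sU (fun l => φ i (a l)) (φ i D) (w i) (fun _ => 0) (fun l => φ i (y0 l))
        (fun l => φ i (u0 l)) l - u i l)) :=
    ⟨fun j l => rs l j, fun i l => hrs l i⟩
  have h1 := fun i => key i W (fun _ _ => 0) (fun _ => y0) (fun _ => u0) (w i) (fun _ => 0)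
    (fun l => φ i (y0 l)) (fun l => φ i (u0 l)) (hW i)
    (fun l => by rw [map_zero]; exact tendsto_const_nhds) (fun l => tendsto_const_nhds)
    (fun l => tendsto_const_nhds) (hw i)
  have hon := fun i => sYU_onS (fun l => φ i (a l)) (φ i D) (w i) (fun _ => 0) (h0i i)
  have hA : ∀ j, OnS a D (sY a D (W j) (fun _ => 0) y0 u0) (sU a D (W j) (fun _ => 0) y0 u0) :=
    fun j => sYU_onS _ _ _ _ h0
  generalize hY1 : (fun j => sY a D (W j) (fun _ => 0) y0 u0) = Y1 at *
  generalize hU1 : (fun j => sU a D (W j) (fun _ => 0) y0 u0) = U1 at *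
  have hY1j : ∀ j, sY a D (W j) (fun _ => 0) y0 u0 = Y1 j := fun j => congrFun hY1 j
  have hU1j : ∀ j, sU a D (W j) (fun _ => 0) y0 u0 = U1 j := fun j => congrFun hU1 j
  simp only [hY1j, hU1j] at hA h1
  generalize hy1 : (fun i => sY (fun l => φ i (a l)) (φ i D) (w i) (fun _ => 0)
    (fun l => φ i (y0 l)) (fun l => φ i (u0 l))) = y1 at *
  generalize hu1 : (fun i => sU (fun l => φ i (a l)) (φ i D) (w i) (fun _ => 0)
    (fun l => φ i (y0 l)) (fun l => φ i (u0 l))) = u1 at *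
  have hy1j : ∀ i, sY (fun l => φ i (a l)) (φ i D) (w i) (fun _ => 0)
    (fun l => φ i (y0 l)) (fun l => φ i (u0 l)) = y1 i := fun i => congrFun hy1 i
  have hu1j : ∀ i, sU (fun l => φ i (a l)) (φ i D) (w i) (fun _ => 0)
    (fun l => φ i (y0 l)) (fun l => φ i (u0 l)) = u1 i := fun i => congrFun hu1 i
  simp only [hy1j, hu1j] at h1 hw' hP hR hon
  have h2 := fun i => key i P R Y1 U1 (fun l => y1 i l - y i l) (fun l => u1 i l - u i l)
    (y1 i) (u1 i) (hP i) (hR i) (h1 i).1 (h1 i).2 (hw' i)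
  have hd := fun i => sYU_diff (hon i) (h i) (hw' i)
  refine ⟨fun j => sY a D (P j) (R j) (Y1 j) (U1 j), fun j => sU a D (P j) (R j) (Y1 j) (U1 j),
    fun j => sYU_onS _ _ _ _ (hA j), fun i l => ?_, fun i l => ?_⟩
  · have := (h2 i).1 l
    rw [(hd i).1] at this
    exact this
  · have := (h2 i).2 l
    rw [(hd i).2] at this
    exact this

end Pool.Agent.Lib.MP_12adaf_nt.TF
end

section

/-!
# The standard shape of the trace forms of rank 6 and 7
-/

namespace Pool.Agent.Lib.MP_12adaf_nt.TF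

set_option linter.unusedSectionVars false
set_option linter.unusedVariables false

open Finset Polynomial Filter Topology Matrix

/-- The standard shape of the trace forms of rank `6 + e`. -/
def stdF {K : Type*} [CommRing K] (e : ℕ) (a : Fin 4 → K) :
    Matrix (((Fin 1 ⊕ Fin 1) ⊕ Fin 4) ⊕ Fin e) (((Fin 1 ⊕ Fin 1) ⊕ Fin 4) ⊕ Fin e) K :=
  osum (osum (osum (sq1 1) (sq1 2)) (diagonal a)) 1

/-- The coefficients of the rank `4` part. -/
def vec4 {K : Type*} [Field K] (D τ μ β : K) : Fin 4 → K :=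
  ![τ, D * μ, -(τ * Aq τ μ β), -(μ * Aq τ μ β)]

lemma det_stdF {K : Type*} [CommRing K] (e : ℕ) (a : Fin 4 → K) :
    (stdF e a).det = 2 * ∏ l, a l := by
  rw [stdF, det_osum, det_osum, det_osum, det_sq1, det_sq1, det_diagonal, det_one]
  ring

lemma map_stdF {K L : Type*} [CommRing K] [CommRing L] (φ : K →+* L) (e : ℕ) (a : Fin 4 → K) :
    (stdF e a).map φ = stdF e fun l => φ (a l) := by
  rw [stdF, stdF, map_osum, map_osum, map_osum, map_sq1, map_sq1, map_one, map_ofNat,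
    Matrix.map_one _ (map_zero φ) (map_one φ), diagonal_map (map_zero φ)]

lemma diagonal_fin4_isSymm {K : Type*} [CommRing K] (a : Fin 4 → K) :
    (diagonal a).IsSymm := diagonal_transpose _

lemma stdF_isSymm {K : Type*} [CommRing K] (e : ℕ) (a : Fin 4 → K) : (stdF e a).IsSymm :=
  osum_isSymm (osum_isSymm (osum_isSymm (sq1_isSymm _) (sq1_isSymm _)) (diagonal_fin4_isSymm a))
    Matrix.isSymm_one

/-- Adding a form `x ^ 2`. -/
lemma stdF_succ {K : Type*} [Field K] (a : Fin 4 → K) :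
    Cong (osum (stdF 0 a) (sq1 1)) (stdF 1 a) := by
  have h1 : (sq1 1 : Matrix (Fin 1) (Fin 1) K) = 1 := by
    rw [sq1, diagonal_one]
  rw [h1]
  have h2 := Cong.submatrix (osum (stdF 0 a) (1 : Matrix (Fin 1) (Fin 1) K))
    ((Equiv.sumEmpty _ (Fin 0)).symm.sumCongr (Equiv.refl (Fin 1)))
  refine h2.trans (Cong.of_eq ?_)
  ext (i | i) (j | j) <;> simp [stdF, osum]

end Pool.Agent.Lib.MP_12adaf_nt.TF
end
end
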