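import Mathlib
import Pool.Agent.Lib.MP_12adaf_nt.TF.Std
import Pool.Agent.Lib.MP_12adaf_nt.HM.T8
import Pool.Agent.Lib.MP_12adaf_nt.HM.Q10
import Pool.Agent.Lib.MP_12adaf_nt.TF.Witt
import Pool.Agent.Lib.MP_12adaf_nt.OddNF

section

section

/-!
# Generic quartic polynomials
-/

namespace Pool.Agent.Lib.MP_12adaf_nt.TF

set_option linter.unusedSectionVars false
set_option linter.unusedVariables false

open Finset Polynomial Filter Topology Matrix

section Cond

/-- The condition, as a polynomial in the coefficients. -/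
def gcc {R : Type*} [CommRing R] (a0 a1 a2 a3 : R) : R :=
  (8 * a2 - 3 * a3 ^ 2) *
  (3 * (256 * a0 - 64 * a1 * a3 + 16 * a2 * a3 ^ 2 - 3 * a3 ^ 4) + (8 * a2 - 3 * a3 ^ 2) ^ 2) *
  ((9 * (8 * a2 - 3 * a3 ^ 2) * (256 * a0 - 64 * a1 * a3 + 16 * a2 * a3 ^ 2 - 3 * a3 ^ 4)
      - 108 * (8 * a1 - 4 * a2 * a3 + a3 ^ 3) ^ 2 - (8 * a2 - 3 * a3 ^ 2) ^ 3) -
    2 * (8 * a2 - 3 * a3 ^ 2) *
      (3 * (256 * a0 - 64 * a1 * a3 + 16 * a2 * a3 ^ 2 - 3 * a3 ^ 4) +
        (8 * a2 - 3 * a3 ^ 2) ^ 2)) *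
  ((3 * (256 * a0 - 64 * a1 * a3 + 16 * a2 * a3 ^ 2 - 3 * a3 ^ 4) +
      (8 * a2 - 3 * a3 ^ 2) ^ 2) ^ 2 -
    4 * (8 * a2 - 3 * a3 ^ 2) *
      (9 * (8 * a2 - 3 * a3 ^ 2) * (256 * a0 - 64 * a1 * a3 + 16 * a2 * a3 ^ 2 - 3 * a3 ^ 4)
      - 108 * (8 * a1 - 4 * a2 * a3 + a3 ^ 3) ^ 2 - (8 * a2 - 3 * a3 ^ 2) ^ 3) +
    4 * (8 * a2 - 3 * a3 ^ 2) ^ 2 *
      (3 * (256 * a0 - 64 * a1 * a3 + 16 * a2 * a3 ^ 2 - 3 * a3 ^ 4) +
        (8 * a2 - 3 * a3 ^ 2) ^ 2)) *
  ((3 * (256 * a0 - 64 * a1 * a3 + 16 * a2 * a3 ^ 2 - 3 * a3 ^ 4) +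
      (8 * a2 - 3 * a3 ^ 2) ^ 2) ^ 2 -
    (8 * a2 - 3 * a3 ^ 2) *
      (9 * (8 * a2 - 3 * a3 ^ 2) * (256 * a0 - 64 * a1 * a3 + 16 * a2 * a3 ^ 2 - 3 * a3 ^ 4)
      - 108 * (8 * a1 - 4 * a2 * a3 + a3 ^ 3) ^ 2 - (8 * a2 - 3 * a3 ^ 2) ^ 3) -
    2 * (8 * a2 - 3 * a3 ^ 2) ^ 2 *
      (3 * (256 * a0 - 64 * a1 * a3 + 16 * a2 * a3 ^ 2 - 3 * a3 ^ 4) +
        (8 * a2 - 3 * a3 ^ 2) ^ 2)) *
  ((3 * (256 * a0 - 64 * a1 * a3 + 16 * a2 * a3 ^ 2 - 3 * a3 ^ 4) +
      (8 * a2 - 3 * a3 ^ 2) ^ 2) ^ 3 -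
    (9 * (8 * a2 - 3 * a3 ^ 2) * (256 * a0 - 64 * a1 * a3 + 16 * a2 * a3 ^ 2 - 3 * a3 ^ 4)
      - 108 * (8 * a1 - 4 * a2 * a3 + a3 ^ 3) ^ 2 - (8 * a2 - 3 * a3 ^ 2) ^ 3) ^ 2)

lemma map_gcc {R S : Type*} [CommRing R] [CommRing S] (φ : R →+* S) (a0 a1 a2 a3 : R) :
    φ (gcc a0 a1 a2 a3) = gcc (φ a0) (φ a1) (φ a2) (φ a3) := by
  simp only [gcc, map_mul, map_sub, map_add, map_pow, map_ofNat]

/-- The condition for a polynomial. -/
noncomputable def gcp {R : Type*} [CommRing R] (g : R[X]) : R :=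
  gcc (g.coeff 0) (g.coeff 1) (g.coeff 2) (g.coeff 3)

lemma map_gcp {R S : Type*} [CommRing R] [CommRing S] (φ : R →+* S) (g : R[X]) :
    φ (gcp g) = gcp (g.map φ) := by
  rw [gcp, gcp, map_gcc, coeff_map, coeff_map, coeff_map, coeff_map]

lemma genQ_of_gcp {K : Type*} [Field K] [CharZero K] {g : K[X]} (hg : g.Monic)
    (hn : g.natDegree = 4) (h : gcp g ≠ 0) : GenQ g := by
  have hdq := exists_dq hg hn
  rw [gcp] at h
  generalize g.coeff 0 = a0 at *
  generalize g.coeff 1 = a1 at *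
  generalize g.coeff 2 = a2 at *
  generalize g.coeff 3 = a3 at *
  set p : K := a2 - 3 * a3 ^ 2 / 8 with hp
  set q : K := a1 - a2 * a3 / 2 + a3 ^ 3 / 8 with hq
  set r : K := a0 - a1 * a3 / 4 + a2 * a3 ^ 2 / 16 - 3 * a3 ^ 4 / 256 with hr
  have e1 : 8 * a2 - 3 * a3 ^ 2 = 8 * p := by rw [hp]; ring
  have e2 : 8 * a1 - 4 * a2 * a3 + a3 ^ 3 = 8 * q := by rw [hq]; ring
  have e3 : 256 * a0 - 64 * a1 * a3 + 16 * a2 * a3 ^ 2 - 3 * a3 ^ 4 = 256 * r := by rw [hr]; ring
  rw [gcc, e1, e2, e3] at h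
  simp only [mul_ne_zero_iff] at h
  obtain ⟨⟨⟨⟨⟨⟨-, h0⟩, h1⟩, h2⟩, h3⟩, h4⟩, h5⟩ := h
  obtain ⟨τ, μ, β, hgood, hgq⟩ := exists_gq (p := p) (q := q) (r := r) (I := 12 * r + p ^ 2)
    (J := 72 * p * r - 27 * q ^ 2 - 2 * p ^ 3) rfl rfl
    (fun hh => h5 (by linear_combination 65536 * hh)) h0
    (fun hh => h1 (by linear_combination 64 * hh))
    (fun hh => h2 (by linear_combination 256 * hh))
    (fun hh => h3 (by linear_combination 4096 * hh))
    (fun hh => h4 (by linear_combination 2048 * hh))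
  exact ⟨τ, μ, β, _, hgood, by rw [hgq]; exact hdq⟩

/-- The special quartic. -/
noncomputable def gst (R : Type*) [CommRing R] : R[X] := X ^ 4 - X ^ 2 + X + 1

lemma coeff_gst (R : Type*) [CommRing R] : (gst R).coeff 0 = 1 ∧ (gst R).coeff 1 = 1 ∧
    (gst R).coeff 2 = -1 ∧ (gst R).coeff 3 = 0 := by
  refine ⟨?_, ?_, ?_, ?_⟩ <;> simp [gst, coeff_X, coeff_one, coeff_X_pow]

lemma gcp_gst (K : Type*) [Field K] [CharZero K] : gcp (gst K) ≠ 0 := by
  obtain ⟨h0, h1, h2, h3⟩ := coeff_gst K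
  rw [gcp, h0, h1, h2, h3, gcc]
  norm_num

lemma gst_eq (K : Type*) [Field K] [CharZero K] : gst K = dq (-1) 1 1 := by
  simp only [gst, dq, map_neg, map_one]
  ring

end Cond

/-- Each separable quartic is a limit of generic ones. -/
theorem genQ_seq {K : Type*} [NormedField K] [CharZero K] (hnb : (𝓝[≠] (0 : K)).NeBot)
    {g : K[X]} (hg : g.Monic) (hn : g.natDegree = 4) (hsep : g.Separable) :
    ∃ gs : ℕ → K[X], (∀ m, GenQ (gs m)) ∧
      ∀ l, Tendsto (fun m => (gs m).coeff l) atTop (𝓝 (g.coeff l)) := by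
  have hstm : (gst K).Monic := by rw [gst_eq]; exact dq_monic _ _ _
  have hstn : (gst K).natDegree = 4 := by rw [gst_eq]; exact natDegree_dq _ _ _
  have hdeg : (gst K - g).degree < g.degree := by
    have h1 : (gst K).degree = g.degree := by
      rw [degree_eq_natDegree hstm.ne_zero, degree_eq_natDegree hg.ne_zero, hstn, hn]
    have h2 := degree_sub_lt_left h1 hstm.ne_zero (by rw [hstm.leadingCoeff, hg.leadingCoeff])
    rwa [h1] at h2
  have hdegl : ∀ lam : K, (C lam * (gst K - g)).degree < g.degree := fun lam => by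
    rw [← smul_eq_C_mul]
    exact (degree_smul_le lam _).trans_lt hdeg
  have hmon : ∀ lam : K, (g + C lam * (gst K - g)).Monic := fun lam =>
    hg.add_of_left (hdegl lam)
  have hnat : ∀ lam : K, (g + C lam * (gst K - g)).natDegree = 4 := fun lam => by
    rw [natDegree_eq_of_degree_eq (degree_add_eq_left_of_degree_lt (hdegl lam)), hn]
  -- the polynomial in `lam`
  set Φ : K[X] := gcp (g.map C + C X * ((gst K).map C - g.map C)) with hΦ
  have hev : ∀ lam : K, Φ.eval lam = gcp (g + C lam * (gst K - g)) := by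
    intro lam
    have h1 : Φ.eval lam = (evalRingHom lam) Φ := rfl
    rw [h1, hΦ, map_gcp]
    congr 1
    simp only [Polynomial.map_add, Polynomial.map_mul, Polynomial.map_sub, Polynomial.map_C,
      Polynomial.map_map]
    have h2 : (evalRingHom lam).comp C = RingHom.id K := by
      ext x
      simp
    rw [h2, Polynomial.map_id, Polynomial.map_id]
    congr 2
    simp
  have hΦ0 : Φ ≠ 0 := by
    intro h0
    have h1 := hev 1
    rw [h0, eval_zero, map_one, one_mul, add_sub_cancel] at h1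
    exact gcp_gst K h1.symm
  have hev0 : ∀ᶠ lam in 𝓝[≠] (0 : K), Φ.eval lam ≠ 0 := by
    have hfin : Set.Finite {lam : K | Φ.eval lam = 0 ∧ lam ≠ 0} := by
      classical
      refine (Φ.roots.toFinset.finite_toSet).subset fun lam hlam => ?_
      rw [Finset.mem_coe, Multiset.mem_toFinset, mem_roots hΦ0]
      exact hlam.1
    have h1 : {lam : K | Φ.eval lam = 0 ∧ lam ≠ 0}ᶜ ∈ 𝓝 (0 : K) :=
      hfin.isClosed.isOpen_compl.mem_nhds (fun h => h.2 rfl)
    filter_upwards [nhdsWithin_le_nhds h1, self_mem_nhdsWithin] with lam h2 h3 h4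
    exact h2 ⟨h4, h3⟩
  obtain ⟨u, hu⟩ := exists_seq_tendsto (𝓝[≠] (0 : K))
  have hu1 : ∀ᶠ m in atTop, Φ.eval (u m) ≠ 0 := hu.eventually hev0
  obtain ⟨N, hN⟩ := eventually_atTop.1 hu1
  refine ⟨fun m => g + C (u (m + N)) * (gst K - g), fun m => ?_, fun l => ?_⟩
  · refine genQ_of_gcp (hmon _) (hnat _) ?_
    rw [← hev]
    exact hN _ (Nat.le_add_left _ _)
  · have h1 : Tendsto (fun m => u (m + N)) atTop (𝓝 0) :=
      (hu.mono_right nhdsWithin_le_nhds).comp (tendsto_add_atTop_nat N)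
    have h2 := (h1.mul_const ((gst K).coeff l - g.coeff l)).const_add (g.coeff l)
    rw [zero_mul, add_zero] at h2
    simpa [coeff_add, coeff_C_mul, coeff_sub] using h2

/-- Each separable quartic becomes generic after a change of generator. -/
theorem exists_generic_T {K : Type*} [Field K] [CharZero K] {g : K[X]} (hg : g.Monic)
    (hn : g.natDegree = 4) (hsep : g.Separable) :
    ∃ T : K[X], (charT 4 g T).Separable ∧ GenQ (charT 4 g T) := by
  classical
  let L := AlgebraicClosure K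
  let φ : K →+* L := algebraMap K L
  have hstm : (gst K).Monic := by rw [gst_eq]; exact dq_monic _ _ _
  have hstn : (gst K).natDegree = 4 := by rw [gst_eq]; exact natDegree_dq _ _ _
  have hsts : (gst K).Separable := by
    apply separable_of_discr_ne_zero hstm
    intro h0
    have h1 := discr_dq (-1 : K) 1 1
    rw [← gst_eq, h0] at h1
    norm_num at h1
  obtain ⟨θ, hθ, hgθ⟩ := exists_nod φ hg hn hsep
  obtain ⟨θs, hθs, hgθs⟩ := exists_nod φ hstm hstn hsts
  -- the generic element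
  let R := MvPolynomial (Fin 4) K
  set gR : R[X] := g.map (MvPolynomial.C : K →+* R) with hgR
  set TR : R[X] := toPoly (fun i : Fin 4 => (MvPolynomial.X i : R)) with hTR
  set Φ : R := gcp (charT 4 gR TR) * (Bmat 4 gR TR).det with hΦ
  have hgRm : gR.Monic := hg.map _
  -- specialization
  have hspec : ∀ {A : Type _} [CommRing A] (ψ : K →+* A) (t : Fin 4 → A),
      MvPolynomial.eval₂Hom ψ t Φ =
        gcp (charT 4 (g.map ψ) (toPoly t)) * (Bmat 4 (g.map ψ) (toPoly t)).det := by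
    intro A _ ψ t
    have h1 : gR.map (MvPolynomial.eval₂Hom ψ t) = g.map ψ := by
      rw [hgR, Polynomial.map_map]
      congr 1
      ext x
      simp
    have h2 : TR.map (MvPolynomial.eval₂Hom ψ t) = toPoly t := by
      rw [hTR, toPoly, toPoly, Polynomial.map_sum]
      refine Finset.sum_congr rfl fun i _ => ?_
      simp
    rw [hΦ, map_mul, map_gcp, map_charT _ hgRm, map_det_Bmat _ hgRm, h1, h2]
  -- nonzero at a point of `L`
  have hΦ0 : Φ ≠ 0 := by
    intro h0
    set Ts : L[X] := Lagrange.interpolate Finset.univ θ θs with hTs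
    have hTsd : Ts.degree < (4 : ℕ) := by
      have := Lagrange.degree_interpolate_lt (s := Finset.univ) θs hθ.injOn
      rwa [Finset.card_univ, Fintype.card_fin] at this
    have hTse : ∀ i, Ts.eval (θ i) = θs i := fun i =>
      Lagrange.eval_interpolate_at_node θs hθ.injOn (Finset.mem_univ i)
    have h1 := hspec φ (fun i : Fin 4 => Ts.coeff i)
    rw [h0, map_zero, toPoly_coeff hTsd, hgθ, charT_nod hθ] at h1
    simp only [hTse] at h1
    rw [← hgθs, ← map_gcp] at h1
    rcases mul_eq_zero.1 h1.symm with h2 | h2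
    · exact gcp_gst K ((map_eq_zero φ).1 h2)
    · have h3 := det_Bmat_nod θ Ts
      simp only [hTse] at h3
      rw [h2, mul_zero] at h3
      exact Matrix.det_vandermonde_ne_zero_iff.mpr hθs h3.symm
  obtain ⟨t, ht⟩ : ∃ t : Fin 4 → K, MvPolynomial.eval t Φ ≠ 0 := by
    by_contra hcon
    push Not at hcon
    exact hΦ0 (MvPolynomial.funext fun x => by rw [hcon x, map_zero])
  have h1 := hspec (RingHom.id K) t
  rw [Polynomial.map_id] at h1
  have h2 : MvPolynomial.eval₂Hom (RingHom.id K) t Φ = MvPolynomial.eval t Φ := rfl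
  rw [h2] at h1
  rw [h1] at ht
  obtain ⟨h3, h4⟩ := mul_ne_zero_iff.1 ht
  refine ⟨toPoly t, ?_, genQ_of_gcp (charT_monic _ _ _) (natDegree_charT _ _ _) h3⟩
  apply separable_of_discr_ne_zero (charT_monic _ _ _)
  rw [discr_charT hg hn hsep]
  exact mul_ne_zero (discr_ne_zero_of_separable hg hsep) (pow_ne_zero _ h4)

end Pool.Agent.Lib.MP_12adaf_nt.TF
end

section

/-!
# Quadratic spaces of rank 4 and the parameters of quartics
-/

namespace Pool.Agent.Lib.MP_12adaf_nt.TF

set_option linter.unusedSectionVars false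
set_option linter.unusedVariables false
set_option linter.unusedSimpArgs false

open Finset Polynomial Filter Topology Matrix

/-- sums in the quadratic space -/
private lemma vs_sum {K : Type*} [Field K] (a f g f' g' : Fin 4 → K) (x y x' y' : K) :
    ∑ l, a l * ((x * f l + y * g l) * (x' * f' l + y' * g' l)) =
      x * x' * ∑ l, a l * (f l * f' l) + x * y' * ∑ l, a l * (f l * g' l) +
        y * x' * ∑ l, a l * (g l * f' l) + y * y' * ∑ l, a l * (g l * g' l) := by
  simp only [Fin.sum_univ_four]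
  ring

/-- Vectors in a quadratic space isometric to `⟨τ, D μ, -τ A, -μ A⟩`. -/
theorem exists_vectors {K : Type*} [Field K] [CharZero K] {a : Fin 4 → K}
    {D τ μ β : K} (hD : D ≠ 0) (h : GoodQ τ μ β)
    (hc : Cong (diagonal (vec4 D τ μ β)) (diagonal a)) :
    ∃ y u v : Fin 4 → K, OnS a D y u ∧ ∑ l, a l * (u l * v l) = 0 ∧
      ∑ l, a l * v l ^ 2 = τ ∧ τ ^ 2 * (D * ∑ l, a l * u l ^ 2) = μ ∧
      τ * ∑ l, a l * (y l * v l) = β := by
  obtain ⟨N, N', -, -, hN⟩ := hc.symm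
  have hτ := h.t
  have key : ∀ i j, ∑ l, a l * (N l i * N l j) = diagonal (vec4 D τ μ β) i j := by
    intro i j
    rw [← hN, Matrix.mul_apply]
    refine Finset.sum_congr rfl fun l _ => ?_
    rw [mul_diagonal, transpose_apply]
    ring
  have h00 : ∑ l, a l * (N l 0 * N l 0) = τ := by rw [key]; simp [vec4]
  have h01 : ∑ l, a l * (N l 0 * N l 1) = 0 := by rw [key]; simp
  have h02 : ∑ l, a l * (N l 0 * N l 2) = 0 := by rw [key]; simp
  have h10 : ∑ l, a l * (N l 1 * N l 0) = 0 := by rw [key]; simp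
  have h11 : ∑ l, a l * (N l 1 * N l 1) = D * μ := by rw [key]; simp [vec4]
  have h20 : ∑ l, a l * (N l 2 * N l 0) = 0 := by rw [key]; simp
  have h21 : ∑ l, a l * (N l 2 * N l 1) = 0 := by rw [key]; simp
  have h22 : ∑ l, a l * (N l 2 * N l 2) = -(τ * Aq τ μ β) := by rw [key]; simp [vec4]
  have hA : τ * Aq τ μ β = β ^ 2 / τ - τ ^ 2 + μ := by
    unfold Aq
    field_simp
  rw [hA] at h22
  refine ⟨fun l => (β / τ ^ 2) * N l 0 + τ⁻¹ * N l 2, fun l => (τ * D)⁻¹ * N l 1, fun l => N l 0,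
    ⟨?_, ?_⟩, ?_, ?_, ?_, ?_⟩
  · have e1 := vs_sum a (fun l => N l 0) (fun l => N l 2) (fun l => N l 0) (fun l => N l 2)
      (β / τ ^ 2) τ⁻¹ (β / τ ^ 2) τ⁻¹
    have e2 := vs_sum a (fun l => N l 1) 0 (fun l => N l 1) 0 (τ * D)⁻¹ 0 (τ * D)⁻¹ 0
    simp only [h00, h02, h20, h22, h11] at e1 e2
    have e3 : ∑ l, a l * ((β / τ ^ 2) * N l 0 + τ⁻¹ * N l 2) ^ 2 =
        β / τ ^ 2 * (β / τ ^ 2) * τ + τ⁻¹ * τ⁻¹ * (-(β ^ 2 / τ - τ ^ 2 + μ)) := by
      simp only [sq (_ + _), e1]
      ring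
    have e4 : ∑ l, a l * ((τ * D)⁻¹ * N l 1) ^ 2 = (τ * D)⁻¹ * (τ * D)⁻¹ * (D * μ) := by
      simp only [Pi.zero_apply, mul_zero, add_zero, zero_mul, sum_const_zero] at e2
      rw [← e2]
      exact Finset.sum_congr rfl fun l _ => by ring
    rw [e3, e4]
    field_simp
    ring
  · have e1 := vs_sum a (fun l => N l 0) (fun l => N l 2) (fun l => N l 1) 0
      (β / τ ^ 2) τ⁻¹ (τ * D)⁻¹ 0
    simp only [h01, h21, Pi.zero_apply, mul_zero, add_zero, zero_mul, sum_const_zero] at e1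
    exact e1
  · have e1 := vs_sum a (fun l => N l 1) 0 (fun l => N l 0) 0 (τ * D)⁻¹ 0 1 0
    simp only [h10, Pi.zero_apply, mul_zero, add_zero, zero_mul, sum_const_zero, one_mul] at e1
    exact e1
  · rw [← h00]
    exact Finset.sum_congr rfl fun l _ => by ring
  · have e2 := vs_sum a (fun l => N l 1) 0 (fun l => N l 1) 0 (τ * D)⁻¹ 0 (τ * D)⁻¹ 0
    have e4 : ∑ l, a l * ((τ * D)⁻¹ * N l 1) ^ 2 = (τ * D)⁻¹ * (τ * D)⁻¹ * (D * μ) := by
      simp only [h11, Pi.zero_apply, mul_zero, add_zero, zero_mul, sum_const_zero] at e2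
      rw [← e2]
      exact Finset.sum_congr rfl fun l _ => by ring
    rw [e4]
    field_simp
  · have e1 := vs_sum a (fun l => N l 0) (fun l => N l 2) (fun l => N l 0) 0
      (β / τ ^ 2) τ⁻¹ 1 0
    simp only [h00, h20, Pi.zero_apply, mul_zero, add_zero, zero_mul, sum_const_zero, one_mul,
      mul_one] at e1
    rw [e1]
    field_simp

/-- The converse. -/
theorem cong_of_vectors {K : Type*} [Field K] [CharZero K] {a : Fin 4 → K} (ha : ∀ l, a l ≠ 0)
    {τ μ β : K} (h : GoodQ τ μ β) {y u v : Fin 4 → K} (hyu : OnS a (∏ l, a l) y u)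
    (huv : ∑ l, a l * (u l * v l) = 0) (hτ : ∑ l, a l * v l ^ 2 = τ)
    (hμ : τ ^ 2 * ((∏ l, a l) * ∑ l, a l * u l ^ 2) = μ)
    (hβ : τ * ∑ l, a l * (y l * v l) = β) :
    Cong (diagonal (vec4 (∏ l, a l) τ μ β)) (diagonal a) := by
  set D := ∏ l, a l with hD
  have hD0 : D ≠ 0 := Finset.prod_ne_zero_iff.2 fun l _ => ha l
  have hτ0 := h.t
  obtain ⟨hy1, hy2⟩ := hyu
  have hA : τ * Aq τ μ β = β ^ 2 / τ - τ ^ 2 + μ := by
    unfold Aq
    field_simp
  have qv : ∑ l, a l * (v l * v l) = τ := by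
    rw [← hτ]; exact Finset.sum_congr rfl fun l _ => by ring
  have qu : ∑ l, a l * (u l * u l) = μ / (τ ^ 2 * D) := by
    rw [← hμ]
    have : ∑ l, a l * u l ^ 2 = ∑ l, a l * (u l * u l) := Finset.sum_congr rfl fun l _ => by ring
    rw [this]
    field_simp
  have bvu : ∑ l, a l * (v l * u l) = 0 := by
    rw [← huv]; exact Finset.sum_congr rfl fun l _ => by ring
  have buy : ∑ l, a l * (u l * y l) = 0 := by
    rw [← hy2]; exact Finset.sum_congr rfl fun l _ => by ring
  have byv : ∑ l, a l * (y l * v l) = β / τ := by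
    rw [← hβ]; field_simp
  have bvy : ∑ l, a l * (v l * y l) = β / τ := by
    rw [← byv]; exact Finset.sum_congr rfl fun l _ => by ring
  have qy : ∑ l, a l * (y l * y l) = 1 - μ / τ ^ 2 := by
    have e1 : ∑ l, a l * u l ^ 2 = μ / (τ ^ 2 * D) := by
      rw [← qu]; exact Finset.sum_congr rfl fun l _ => by ring
    rw [e1] at hy1
    have e2 : ∑ l, a l * (y l * y l) = ∑ l, a l * y l ^ 2 :=
      Finset.sum_congr rfl fun l _ => by ring
    rw [e2, eq_sub_iff_add_eq, ← hy1]
    congr 1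
    field_simp
  let E : Matrix (Fin 4) (Fin 3) K := Matrix.of fun l => ![v l, τ * D * u l, τ * y l + -(β / τ) * v l]
  let D3 : Matrix (Fin 3) (Fin 3) K := diagonal ![τ, D * μ, -(τ * Aq τ μ β)]
  have hE : Eᵀ * diagonal a * E = D3 := by
    have key : ∀ i j, (Eᵀ * diagonal a * E) i j = ∑ l, a l * (E l i * E l j) := by
      intro i j
      rw [Matrix.mul_apply]
      refine Finset.sum_congr rfl fun l _ => ?_
      rw [mul_diagonal, transpose_apply]
      ring
    have f00 : ∑ l, a l * (E l 0 * E l 0) = τ := qv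
    have f01 : ∑ l, a l * (E l 0 * E l 1) = 0 := by
      have e1 := vs_sum a v 0 u 0 1 0 (τ * D) 0
      simp only [bvu, Pi.zero_apply, mul_zero, add_zero, zero_mul, sum_const_zero, one_mul] at e1
      exact e1
    have f10 : ∑ l, a l * (E l 1 * E l 0) = 0 := by
      rw [← f01]; exact Finset.sum_congr rfl fun l _ => by ring
    have f02 : ∑ l, a l * (E l 0 * E l 2) = 0 := by
      have e1 := vs_sum a v 0 y v 1 0 τ (-(β / τ))
      simp only [bvy, qv, Pi.zero_apply, mul_zero, add_zero, zero_mul, sum_const_zero,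
        one_mul] at e1
      refine e1.trans ?_
      field_simp
      ring
    have f20 : ∑ l, a l * (E l 2 * E l 0) = 0 := by
      rw [← f02]; exact Finset.sum_congr rfl fun l _ => by ring
    have f11 : ∑ l, a l * (E l 1 * E l 1) = D * μ := by
      have e1 := vs_sum a u 0 u 0 (τ * D) 0 (τ * D) 0
      simp only [qu, Pi.zero_apply, mul_zero, add_zero, zero_mul, sum_const_zero] at e1
      refine e1.trans ?_
      field_simp
    have f12 : ∑ l, a l * (E l 1 * E l 2) = 0 := by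
      have e1 := vs_sum a u 0 y v (τ * D) 0 τ (-(β / τ))
      simp only [buy, huv, Pi.zero_apply, mul_zero, add_zero, zero_mul, sum_const_zero] at e1
      exact e1
    have f21 : ∑ l, a l * (E l 2 * E l 1) = 0 := by
      rw [← f12]; exact Finset.sum_congr rfl fun l _ => by ring
    have f22 : ∑ l, a l * (E l 2 * E l 2) = -(τ * Aq τ μ β) := by
      have e1 := vs_sum a y v y v τ (-(β / τ)) τ (-(β / τ))
      simp only [qy, byv, bvy, qv] at e1
      refine e1.trans ?_
      rw [hA]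
      field_simp
      ring
    ext i j
    rw [key]
    fin_cases i <;> fin_cases j
    · exact f00.trans (by simp [D3])
    · exact f01.trans (by simp [D3])
    · exact f02.trans (by simp [D3])
    · exact f10.trans (by simp [D3])
    · exact f11.trans (by simp [D3])
    · exact f12.trans (by simp [D3])
    · exact f20.trans (by simp [D3])
    · exact f21.trans (by simp [D3])
    · exact f22.trans (by simp [D3])
  have hdet3 : D3.det = τ * (D * μ) * (-(τ * Aq τ μ β)) := by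
    simp only [D3]
    rw [det_diagonal, Fin.prod_univ_three]
    simp
  have hdet : (diagonal a).det = D := det_diagonal
  have h1 : Cong (diagonal a) (osum D3 (sq1 ((diagonal a).det * D3.det))) := by
    apply cong_of_partial (by simp) (diagonal_transpose a) (by rw [hdet]; exact hD0) hE
    rw [hdet3]
    exact mul_ne_zero (mul_ne_zero hτ0 (mul_ne_zero hD0 h.m)) (neg_ne_zero.2 (mul_ne_zero hτ0 h.A))
  have h2 : Cong (sq1 (-(μ * Aq τ μ β))) (sq1 ((diagonal a).det * D3.det)) := by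
    apply Cong.sq1_of_eq (mul_ne_zero hD0 hτ0)
    rw [hdet, hdet3]
    ring
  have h3 : Cong (diagonal a) (osum D3 (sq1 (-(μ * Aq τ μ β)))) :=
    h1.trans (Cong.osum (Cong.refl _) h2.symm)
  have h4 : Cong (diagonal (vec4 D τ μ β)) (osum D3 (sq1 (-(μ * Aq τ μ β)))) := by
    simp only [D3]
    rw [sq1, osum_diagonal]
    refine (Cong.diagonal_equiv (vec4 D τ μ β) (finSumFinEquiv (m := 3) (n := 1))).trans
      (Cong.of_eq ?_)
    congr 1
    ext i
    rcases i with i | i <;> fin_cases i <;> rfl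
  exact h4.trans h3.symm

end Pool.Agent.Lib.MP_12adaf_nt.TF
end
end

section

/-!
# The pencil: elementary facts
-/

namespace Pool.Agent.Lib.MP_12adaf_nt.HM

open TF Matrix Polynomial

variable {R : Type*} [CommRing R]

/-- **Job C01.** Elementary facts about the pencil. -/
theorem Rp_monic (m : ℕ) : (Rp R m).Monic :=
  monic_prod_of_monic _ _ fun _ _ => monic_X_sub_C _

theorem natDegree_Rp [Nontrivial R] (m : ℕ) : (Rp R m).natDegree = m - 1 := by
  unfold Rp
  rw [natDegree_prod_of_monic _ _ fun i _ => monic_X_sub_C _]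
  simp only [natDegree_X_sub_C, Finset.sum_const, Finset.card_range, smul_eq_mul, mul_one]

theorem Rp_coeff_zero {m : ℕ} (hm : 2 ≤ m) : (Rp R m).coeff 0 = 0 := by
  unfold Rp
  rw [coeff_zero_eq_eval_zero, eval_prod]
  apply Finset.prod_eq_zero (i := 0) (Finset.mem_range.mpr (by omega))
  simp

theorem map_Rp {S : Type*} [CommRing S] (φ : R →+* S) (m : ℕ) : (Rp R m).map φ = Rp S m := by
  unfold Rp
  rw [Polynomial.map_prod]
  refine Finset.prod_congr rfl fun i _ => ?_
  simp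

theorem pen_monic {m : ℕ} (hm : 2 ≤ m) {c : R[X]} (hc : c.Monic) (hd : c.natDegree = m) (s : R) :
    (pen m c s).Monic ∧ (pen m c s).natDegree = m := by
  have hnt : Nontrivial R := by
    by_contra h
    rw [not_nontrivial_iff_subsingleton] at h
    have h0 : c = 0 := Subsingleton.elim _ _
    rw [h0, natDegree_zero] at hd
    omega
  have hdeg : degree (C s * Rp R m) < degree c := by
    have hc0 : c ≠ 0 := hc.ne_zero
    rw [degree_eq_natDegree hc0, hd]
    refine lt_of_le_of_lt degree_le_natDegree ?_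
    have h1 : (C s * Rp R m).natDegree ≤ m - 1 := by
      refine (natDegree_C_mul_le s _).trans ?_
      rw [natDegree_Rp]
    exact_mod_cast (by omega : (C s * Rp R m).natDegree < m)
  refine ⟨hc.add_of_left hdeg, ?_⟩
  unfold pen
  rw [natDegree_add_eq_left_of_degree_lt hdeg, hd]

theorem pen_coeff_zero {m : ℕ} (hm : 2 ≤ m) (c : R[X]) (s : R) :
    (pen m c s).coeff 0 = c.coeff 0 := by
  unfold pen
  rw [coeff_add, coeff_C_mul, Rp_coeff_zero hm, mul_zero, add_zero]

theorem map_pen {S : Type*} [CommRing S] (φ : R →+* S) (m : ℕ) (c : R[X]) (s : R) :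
    (pen m c s).map φ = pen m (c.map φ) (φ s) := by
  unfold pen
  rw [Polynomial.map_add, Polynomial.map_mul, map_C, map_Rp]

private theorem map_Jp {S : Type*} [CommRing S] (φ : R →+* S) (m : ℕ) (c : R[X]) :
    (Jp m c).map φ = Jp m (c.map φ) := by
  unfold Jp
  rw [Polynomial.map_sub, Polynomial.map_mul, Polynomial.map_mul, ← derivative_map,
    ← derivative_map, map_Rp]

private theorem map_mapC {S : Type*} [CommRing S] (φ : R →+* S) (p : R[X]) :
    (p.map (C : R →+* R[X])).map (mapRingHom φ) = (p.map φ).map (C : S →+* S[X]) := by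
  rw [Polynomial.map_map, Polynomial.map_map]
  congr 1
  ext a
  simp

private theorem map_Ep {S : Type*} [CommRing S] (φ : R →+* S) (m : ℕ) (c : R[X]) :
    (Ep m c).map φ = Ep m (c.map φ) := by
  have h : (Ep m c).map φ = mapRingHom φ (Ep m c) := rfl
  rw [h]
  unfold Ep
  rw [← resultant_map_map, map_mapC, map_Jp, Polynomial.map_add, Polynomial.map_mul, map_mapC,
    map_mapC, map_Rp, map_C]
  have hX : (mapRingHom φ) (X : R[X]) = X := by simp
  rw [hX]

/-- `Phi` commutes with ring homomorphisms (`resultant_map_map`; in the definition of `Ep` the map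
on the coefficients `R[X] → S[X]` is `mapRingHom φ`). -/
theorem map_Phi {S : Type*} [CommRing S] (φ : R →+* S) (m : ℕ) (c : R[X]) :
    φ (Phi m c) = Phi m (c.map φ) := by
  unfold Phi
  rw [map_mul, ← coeff_map, ← resultant_map_map, ← derivative_map, map_Ep]

/-- The leading coefficients of `c' R` and `c R'` are `m` and `m - 1`. -/
theorem Jp_monic [Nontrivial R] {m : ℕ} (hm : 2 ≤ m) {c : R[X]} (hc : c.Monic)
    (hd : c.natDegree = m) : (Jp m c).Monic ∧ (Jp m c).natDegree = 2 * m - 2 := by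
  have hR := natDegree_Rp (R := R) m
  have hRc : (Rp R m).coeff (m - 1) = 1 := by
    rw [← hR]
    exact (Rp_monic m).coeff_natDegree
  have hcc : c.coeff m = 1 := by
    rw [← hd]
    exact hc.coeff_natDegree
  have hc' : (derivative c).natDegree ≤ m - 1 := by
    rw [← hd]
    exact natDegree_derivative_le c
  have hR' : (derivative (Rp R m)).natDegree ≤ m - 2 := by
    refine (natDegree_derivative_le _).trans ?_
    rw [hR]
    omega
  have e1 : (derivative c * Rp R m).coeff (2 * m - 2) = (m : R) := by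
    have h1 := coeff_mul_add_eq_of_natDegree_le hc' hR.le
    have h2 : m - 1 + (m - 1) = 2 * m - 2 := by omega
    rw [h2, hRc, mul_one, coeff_derivative] at h1
    have h3 : m - 1 + 1 = m := by omega
    rw [h1, h3, hcc, one_mul]
    have h4 : ((m - 1 : ℕ) : R) + 1 = ((m - 1 + 1 : ℕ) : R) := by push_cast; rfl
    rw [h4, h3]
  have e2 : (c * derivative (Rp R m)).coeff (2 * m - 2) = (m : R) - 1 := by
    have h1 := coeff_mul_add_eq_of_natDegree_le hd.le hR'
    have h2 : m + (m - 2) = 2 * m - 2 := by omega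
    rw [h2, hcc, one_mul, coeff_derivative] at h1
    have h3 : m - 2 + 1 = m - 1 := by omega
    rw [h1, h3, hRc, one_mul]
    have h4 : ((m - 2 : ℕ) : R) + 1 = ((m - 2 + 1 : ℕ) : R) := by push_cast; rfl
    rw [h4, h3, Nat.cast_sub (by omega : 1 ≤ m), Nat.cast_one]
  have e3 : (Jp m c).coeff (2 * m - 2) = 1 := by
    unfold Jp
    rw [coeff_sub, e1, e2]
    ring
  have hle : (Jp m c).natDegree ≤ 2 * m - 2 := by
    unfold Jp
    refine (natDegree_sub_le _ _).trans (max_le ?_ ?_)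
    · refine natDegree_mul_le.trans ?_
      rw [hR]
      omega
    · refine natDegree_mul_le.trans ?_
      rw [hd]
      omega
  exact ⟨monic_of_natDegree_le_of_coeff_eq_one _ hle e3,
    natDegree_eq_of_le_of_coeff_ne_zero hle (by rw [e3]; exact one_ne_zero)⟩

theorem Jp_pen (m : ℕ) (c : R[X]) (s : R) : Jp m (pen m c s) = Jp m c := by
  unfold Jp pen
  rw [derivative_add, derivative_mul, derivative_C]
  ring

end Pool.Agent.Lib.MP_12adaf_nt.HM
end

section

section

/-!
# Trace forms along the two pencils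
-/

namespace Pool.Agent.Lib.MP_12adaf_nt.TF

set_option linter.unusedSectionVars false
set_option linter.unusedVariables false

open Finset Polynomial Filter Topology Matrix

/-- Euler's identity for the two pencils, over a field containing the roots. -/
private theorem lin_sum {L : Type*} [Field L] {n N d : ℕ} (hnd : n = N + 1 + d) {y : Fin n → L}
    {x : Fin N → L} (hy : Function.Injective y) (hx : Function.Injective x) {q h : L[X]}
    (hq : q.natDegree ≤ d)
    (hw : derivative (nod y) * nod x - nod y * derivative (nod x) = q * h ^ 2)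
    (hqx : ∀ j, q.eval (x j) ≠ 0) (hhx : ∀ j, h.eval (x j) ≠ 0) {w w' : L[X]}
    (hwd : w.natDegree ≤ N) (hwd' : w'.natDegree ≤ N) :
    (∀ i, h.eval (y i) ≠ 0) ∧
    ∑ i, (w.eval (y i) * w'.eval (y i)) / h.eval (y i) ^ 2 =
      ∑ j, (w.eval (x j) * w'.eval (x j)) / h.eval (x j) ^ 2 +
        q.coeff d * (w.coeff N * w'.coeff N) := by
  classical
  have hwx : ∀ j, (nod y).eval (x j) * (derivative (nod x)).eval (x j) =
      -(q.eval (x j) * h.eval (x j) ^ 2) := by
    intro j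
    have e := congrArg (fun p => p.eval (x j)) hw
    simp only [eval_sub, eval_mul, eval_pow, eval_nod_self x j, mul_zero, zero_sub] at e
    linear_combination -e
  have hwy : ∀ i, (derivative (nod y)).eval (y i) * (nod x).eval (y i) =
      q.eval (y i) * h.eval (y i) ^ 2 := by
    intro i
    have e := congrArg (fun p => p.eval (y i)) hw
    simp only [eval_sub, eval_mul, eval_pow, eval_nod_self y i, zero_mul, sub_zero] at e
    exact e
  have hyx : ∀ i j, y i ≠ x j := by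
    intro i j hij
    have e := hwx j
    rw [← hij, eval_nod_self y i, zero_mul] at e
    have h1 := neg_eq_zero.1 e.symm
    rw [hij] at h1
    exact mul_ne_zero (hqx j) (pow_ne_zero 2 (hhx j)) h1
  set z : Fin n ⊕ Fin N → L := Sum.elim y x with hz
  have hzi : Function.Injective z := hy.sumElim hx hyx
  have hnz : nod z = nod y * nod x := nod_sum y x
  have hcard : Fintype.card (Fin n ⊕ Fin N) = n + N := by simp
  set W : L[X] := q * (w * w') with hW
  have hww : (w * w').natDegree ≤ N + N := natDegree_mul_le_of_le hwd hwd'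
  have hWn : W.natDegree ≤ d + (N + N) := natDegree_mul_le_of_le hq hww
  have hWd : W.degree < (Fintype.card (Fin n ⊕ Fin N) : WithBot ℕ) := by
    refine degree_le_natDegree.trans_lt ?_
    rw [hcard]
    exact_mod_cast (by omega : W.natDegree < n + N)
  have h1 := congrArg (fun p => p.coeff (d + (N + N))) (eq_sum_nodE hzi hWd)
  simp only [finsetSum_coeff, coeff_C_mul] at h1
  have h2 : ∀ l, (nodE z l).coeff (d + (N + N)) = 1 := by
    intro l
    have e := natDegree_nodE z l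
    rw [hcard] at e
    have e2 : d + (N + N) = (nodE z l).natDegree := by omega
    rw [e2]
    exact (nodE_monic z l).coeff_natDegree
  simp only [h2, mul_one] at h1
  have h3 : W.coeff (d + (N + N)) = q.coeff d * (w.coeff N * w'.coeff N) := by
    rw [hW, coeff_mul_add_eq_of_natDegree_le hq hww, coeff_mul_add_eq_of_natDegree_le hwd hwd']
  rw [h3, Fintype.sum_sum_type] at h1
  have hF : ∀ t, (derivative (nod z)).eval t = (derivative (nod y)).eval t * (nod x).eval t +
      (nod y).eval t * (derivative (nod x)).eval t := by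
    intro t
    rw [hnz, derivative_mul, eval_add, eval_mul, eval_mul]
  have hFy : ∀ i, (derivative (nod z)).eval (y i) = q.eval (y i) * h.eval (y i) ^ 2 := by
    intro i
    rw [hF, eval_nod_self y i, zero_mul, add_zero, hwy i]
  have hFx : ∀ j, (derivative (nod z)).eval (x j) = -(q.eval (x j) * h.eval (x j) ^ 2) := by
    intro j
    rw [hF, eval_nod_self x j, mul_zero, zero_add, hwx j]
  have hne : ∀ i, q.eval (y i) * h.eval (y i) ^ 2 ≠ 0 := by
    intro i
    rw [← hFy i]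
    exact eval_derivative_nod_ne_zero z hzi (Sum.inl i)
  have hhy : ∀ i, h.eval (y i) ≠ 0 := by
    intro i hi
    apply hne i
    rw [hi]
    ring
  have hqy : ∀ i, q.eval (y i) ≠ 0 := fun i => left_ne_zero_of_mul (hne i)
  refine ⟨hhy, ?_⟩
  have h4 : ∀ i, W.eval (z (Sum.inl i)) / (derivative (nod z)).eval (z (Sum.inl i)) =
      (w.eval (y i) * w'.eval (y i)) / h.eval (y i) ^ 2 := by
    intro i
    have a1 := hhy i
    have a2 := hqy i
    show W.eval (y i) / (derivative (nod z)).eval (y i) = _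
    rw [hFy, hW, eval_mul, eval_mul]
    field_simp
  have h5 : ∀ j, W.eval (z (Sum.inr j)) / (derivative (nod z)).eval (z (Sum.inr j)) =
      -((w.eval (x j) * w'.eval (x j)) / h.eval (x j) ^ 2) := by
    intro j
    have a1 := hhx j
    have a2 := hqx j
    show W.eval (x j) / (derivative (nod z)).eval (x j) = _
    rw [hFx, hW, eval_mul, eval_mul, div_neg]
    field_simp
  rw [Finset.sum_congr rfl fun i _ => h4 i, Finset.sum_congr rfl fun j _ => h5 j,
    Finset.sum_neg_distrib] at h1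
  rw [h1]
  ring

/-- The matrix identity for both pencils. -/
private theorem lin_matrix {K : Type*} [Field K] [CharZero K] {n N d : ℕ} (hnd : n = N + 1 + d)
    {f g h q : K[X]} (hf : f.Monic) (hg : g.Monic) (hfn : f.natDegree = n) (hgn : g.natDegree = N)
    (hfs : f.Separable) (hgs : g.Separable) (hgh : IsCoprime g h) (hgq : IsCoprime g q)
    (hq : q.natDegree ≤ d) (hw : derivative f * g - f * derivative g = q * h ^ 2) :
    ∃ E : Matrix (Fin n) (Fin N ⊕ Fin 1) K,
      Eᵀ * HH n f * E = osum (HH N g) (sq1 (q.coeff d)) := by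
  classical
  -- `f` and `h` are coprime
  have c1 : IsCoprime g (f * derivative g) := by
    have e : f * derivative g = -(q * h ^ 2) + g * derivative f := by rw [← hw]; ring
    rw [e]
    exact (IsCoprime.add_mul_left_right_iff).2 (hgq.mul_right hgh.pow_right).neg_right
  have c2 : IsCoprime f g := (IsCoprime.of_mul_right_left c1).symm
  have c3 : IsCoprime f (q * h ^ 2) := by
    have e : q * h ^ 2 = derivative f * g + f * (-derivative g) := by rw [← hw]; ring
    rw [e]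
    exact (IsCoprime.add_mul_left_right_iff).2 (IsCoprime.mul_right hfs c2)
  have c4 : IsCoprime f h := by
    have := IsCoprime.of_mul_right_right c3
    rw [sq] at this
    exact IsCoprime.of_mul_right_left this
  obtain ⟨u, k, huk⟩ := c4
  -- the vectors
  set w : Fin N ⊕ Fin 1 → K[X] := Sum.elim (fun j => (h * X ^ (j : ℕ)) %ₘ g) fun _ => g with hwdef
  refine ⟨cm n f fun j => w j * k, ?_⟩
  rw [cm_form hf hfn hfs]
  let L := AlgebraicClosure K
  let φ : K →+* L := algebraMap K L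
  obtain ⟨y, hy, hfy⟩ := exists_nod φ hf hfn hfs
  obtain ⟨x, hx, hgx⟩ := exists_nod φ hg hgn hgs
  have hwL : derivative (nod y) * nod x - nod y * derivative (nod x) = q.map φ * (h.map φ) ^ 2 := by
    have e := congrArg (Polynomial.map φ) hw
    simp only [Polynomial.map_sub, Polynomial.map_mul, Polynomial.map_pow, hfy, hgx,
      ← Polynomial.derivative_map] at e
    exact e
  have hne : ∀ {p : K[X]}, IsCoprime g p → ∀ j, (p.map φ).eval (x j) ≠ 0 := by
    rintro p ⟨a, b, hab⟩ j h0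
    have e := congrArg (fun r => (r.map φ).eval (x j)) hab
    simp only [Polynomial.map_add, Polynomial.map_mul, hgx, eval_add, eval_mul, eval_nod_self x j,
      h0, mul_zero, add_zero, Polynomial.map_one, eval_one] at e
    exact zero_ne_one e
  have hg0 : g ≠ 0 := hg.ne_zero
  have hwdeg : ∀ i, (w i).natDegree ≤ N := by
    rintro (j | j)
    · show ((h * X ^ (j : ℕ)) %ₘ g).natDegree ≤ N
      exact (natDegree_modByMonic_le _ hg).trans hgn.le
    · show g.natDegree ≤ N
      exact hgn.le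
  have hc0 : ∀ j : Fin N, (w (Sum.inl j)).coeff N = 0 := by
    intro j
    refine coeff_eq_zero_of_degree_lt ?_
    have := degree_modByMonic_lt (h * X ^ (j : ℕ)) hg
    rw [degree_eq_natDegree hg0, hgn] at this
    exact this
  have hc1 : ∀ j : Fin 1, (w (Sum.inr j)).coeff N = 1 := by
    intro j
    show g.coeff N = 1
    rw [← hgn]
    exact hg.coeff_natDegree
  have hx0 : ∀ (j : Fin N) (i : Fin N), ((w (Sum.inl j)).map φ).eval (x i) =
      (h.map φ).eval (x i) * x i ^ (j : ℕ) := by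
    intro j i
    show (((h * X ^ (j : ℕ)) %ₘ g).map φ).eval (x i) = _
    rw [map_modByMonic φ hg, hgx, eval_modByMonic_root _ (eval_nod_self x i), Polynomial.map_mul,
      Polynomial.map_pow, Polynomial.map_X, eval_mul, eval_pow, eval_X]
  have hx1 : ∀ (j : Fin 1) (i : Fin N), ((w (Sum.inr j)).map φ).eval (x i) = 0 := by
    intro j i
    show (g.map φ).eval (x i) = 0
    rw [hgx, eval_nod_self]
  have hky : ∀ i, (h.map φ).eval (y i) * (k.map φ).eval (y i) = 1 := by
    intro i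
    have e := congrArg (fun r => (r.map φ).eval (y i)) huk
    simp only [Polynomial.map_add, Polynomial.map_mul, hfy, eval_add, eval_mul, eval_nod_self y i,
      mul_zero, zero_add, Polynomial.map_one, eval_one] at e
    rw [mul_comm]
    exact e
  have key : ∀ i j, φ (tr n f (w i * k * (w j * k))) =
      ∑ l, (((w i).map φ).eval (x l) * ((w j).map φ).eval (x l)) / (h.map φ).eval (x l) ^ 2 +
        φ (q.coeff d) * (φ ((w i).coeff N) * φ ((w j).coeff N)) := by
    intro i j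
    rw [map_tr φ hf, hfy, tr_nod hy]
    have s := lin_sum hnd hy hx (q := q.map φ) (h := h.map φ) (natDegree_map_le.trans hq) hwL
      (hne hgq) (hne hgh) (w := (w i).map φ) (w' := (w j).map φ)
      (natDegree_map_le.trans (hwdeg i)) (natDegree_map_le.trans (hwdeg j))
    rw [coeff_map, coeff_map, coeff_map] at s
    rw [← s.2]
    refine Finset.sum_congr rfl fun a _ => ?_
    have h1 := hky a
    have h2 := s.1 a
    have h3 : (k.map φ).eval (y a) = ((h.map φ).eval (y a))⁻¹ :=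
      eq_inv_of_mul_eq_one_left (by rw [mul_comm]; exact h1)
    simp only [Polynomial.map_mul, eval_mul]
    rw [h3, eq_div_iff (pow_ne_zero 2 h2)]
    have h4 : ((h.map φ).eval (y a))⁻¹ * (h.map φ).eval (y a) = 1 := inv_mul_cancel₀ h2
    linear_combination ((w i).map φ).eval (y a) * ((w j).map φ).eval (y a) *
      (((h.map φ).eval (y a))⁻¹ * (h.map φ).eval (y a) + 1) * h4
  apply Matrix.map_injective φ.injective
  change (Matrix.of fun i j => tr n f (w i * k * (w j * k))).map φ =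
    (osum (HH N g) (sq1 (q.coeff d))).map φ
  rw [map_osum, map_sq1, map_HH φ hg, hgx]
  ext (i | i) (j | j)
  · rw [Matrix.map_apply, Matrix.of_apply, key, hc0, map_zero, zero_mul, mul_zero, add_zero, osum,
      fromBlocks_apply₁₁, HH, Matrix.of_apply, tr_nod hx]
    refine Finset.sum_congr rfl fun l _ => ?_
    have := hne hgh l
    rw [hx0, hx0, eval_pow, eval_X, pow_add, div_eq_iff (pow_ne_zero 2 this)]
    ring
  · rw [Matrix.map_apply, Matrix.of_apply, key, hc0, map_zero, zero_mul, mul_zero, add_zero, osum,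
      fromBlocks_apply₁₂, Matrix.zero_apply]
    refine Finset.sum_eq_zero fun l _ => ?_
    rw [hx1, mul_zero, zero_div]
  · rw [Matrix.map_apply, Matrix.of_apply, key, hc0, map_zero, mul_zero, mul_zero, add_zero, osum,
      fromBlocks_apply₂₁, Matrix.zero_apply]
    refine Finset.sum_eq_zero fun l _ => ?_
    rw [hx1, zero_mul, zero_div]
  · rw [Matrix.map_apply, Matrix.of_apply, key, hc1, hc1, map_one, mul_one, mul_one, osum,
      fromBlocks_apply₂₂, Finset.sum_eq_zero fun l _ => by rw [hx1, zero_mul, zero_div], zero_add]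
    have hij : i = j := Subsingleton.elim _ _
    rw [hij, sq1, diagonal_apply_eq]

/-- The pencil `f' g - f g' = 2 X h ^ 2`. -/
theorem cong_W {K : Type*} [Field K] [CharZero K] {N : ℕ} {f g h : K[X]} (hf : f.Monic)
    (hg : g.Monic) (hfn : f.natDegree = N + 2) (hgn : g.natDegree = N) (hhn : h.natDegree ≤ N)
    (hfs : f.Separable) (hgs : g.Separable) (hgh : IsCoprime g h) (h0 : g.eval 0 ≠ 0)
    (hw : derivative f * g - f * derivative g = 2 * X * h ^ 2) :
    Cong (HH (N + 2) f) (osum (osum (HH N g) (sq1 2)) (sq1 (2 * f.discr * g.discr))) := by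
  have h2 : (2 : K[X]) = C 2 := by rw [C_ofNat]
  have hgq : IsCoprime g (2 * X) := by
    refine IsCoprime.mul_right ?_ ?_
    · rw [h2]
      exact ⟨0, C (2⁻¹), by
        rw [zero_mul, zero_add, ← C_mul, inv_mul_cancel₀ (two_ne_zero (α := K)), C_1]⟩
    · refine IsCoprime.symm ((irreducible_X (R := K)).coprime_iff_not_dvd.2 ?_)
      rw [X_dvd_iff, coeff_zero_eq_eval_zero]
      exact h0
  have hq1 : (2 * X : K[X]).natDegree ≤ 1 := by
    rw [h2]
    exact (natDegree_C_mul_le 2 X).trans natDegree_X_le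
  have hq2 : (2 * X : K[X]).coeff 1 = 2 := by
    rw [h2, coeff_C_mul, coeff_X_one, mul_one]
  obtain ⟨E, hE⟩ := lin_matrix (n := N + 2) (N := N) (d := 1) (by ring) hf hg hfn hgn hfs hgs hgh hgq
    hq1 hw
  rw [hq2] at hE
  have hD : (osum (HH N g) (sq1 (2 : K))).det = g.discr * 2 := by
    rw [det_osum, det_HH hg hgn hgs, det_sq1]
  have h3 := cong_of_partial (by simp) (HH_isSymm (N + 2) f) (det_HH_ne_zero hf hfn hfs) hE (by
    rw [hD]
    exact mul_ne_zero (discr_ne_zero_of_separable hg hgs) two_ne_zero)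
  rw [hD, det_HH hf hfn hfs] at h3
  rw [show 2 * f.discr * g.discr = f.discr * (g.discr * 2) by ring]
  exact h3

/-- The pencil `f' g - f g' = h ^ 2`. -/
theorem cong_O {K : Type*} [Field K] [CharZero K] {N : ℕ} {f g h : K[X]} (hf : f.Monic)
    (hg : g.Monic) (hfn : f.natDegree = N + 1) (hgn : g.natDegree = N) (hhn : h.natDegree ≤ N)
    (hfs : f.Separable) (hgs : g.Separable) (hgh : IsCoprime g h)
    (hw : derivative f * g - f * derivative g = h ^ 2) :
    Cong (HH (N + 1) f) (osum (HH N g) (sq1 1)) := by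
  obtain ⟨E, hE⟩ := lin_matrix (n := N + 1) (N := N) (d := 0) (q := 1) (by ring) hf hg hfn hgn hfs
    hgs hgh isCoprime_one_right (by simp) (by rw [one_mul]; exact hw)
  rw [coeff_one_zero] at hE
  have hD : (osum (HH N g) (sq1 (1 : K))).det ≠ 0 := by
    rw [det_osum, det_HH hg hgn hgs, det_sq1, mul_one]
    exact discr_ne_zero_of_separable hg hgs
  set D := osum (HH N g) (sq1 (1 : K)) with hDd
  set M' : Matrix (Fin N ⊕ Fin 1) (Fin (N + 1)) K := D⁻¹ * (Eᵀ * HH (N + 1) f) with hM'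
  have h1 : M' * E = 1 := by
    rw [hM', Matrix.mul_assoc, hE, Matrix.nonsing_inv_mul _ hD.isUnit]
  have h2 : E * M' = 1 := (Matrix.mul_eq_one_comm_of_card_eq _ _ _ (by simp)).1 h1
  exact ⟨E, M', h2, h1, hE⟩

end Pool.Agent.Lib.MP_12adaf_nt.TF
end

section

/-!
# Weak approximation for quartic polynomials with a given trace form
-/

namespace Pool.Agent.Lib.MP_12adaf_nt.TF

set_option linter.unusedSectionVars false
set_option linter.unusedVariables false

open Finset Polynomial Filter Topology Matrix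

section QTAux

/-- The reordering of the five diagonal entries. -/
private def qtE : Fin 1 ⊕ Fin 4 ≃ Fin 4 ⊕ Fin 1 where
  toFun := Sum.elim (fun _ => Sum.inl 0) ![Sum.inl 1, Sum.inr 0, Sum.inl 2, Sum.inl 3]
  invFun := Sum.elim ![Sum.inl 0, Sum.inr 0, Sum.inr 2, Sum.inr 3] (fun _ => Sum.inr 1)
  left_inv := by decide
  right_inv := by decide

private lemma qt_reorder {K : Type*} [Field K] (τ x y z : K) :
    Cong (osum (diagonal ![1, τ, x, y]) (sq1 z)) (osum (sq1 1) (diagonal ![τ, z, x, y])) := by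
  rw [sq1, sq1, osum_diagonal, osum_diagonal]
  have h := Cong.diagonal_equiv (Sum.elim ![1, τ, x, y] fun _ : Fin 1 => z) qtE
  refine h.trans (Cong.of_eq ?_)
  congr 1
  funext i
  rcases i with i | i
  · rfl
  · fin_cases i <;> rfl

private lemma qt_cong {K : Type*} [Field K] {H : Matrix (Fin 4) (Fin 4) K} {D τ μ β d e : K}
    (he : e ≠ 0) (hd : d = μ * e ^ 2)
    (h : Cong H (diagonal ![1, τ, -(τ * Aq τ μ β), -(μ * Aq τ μ β)])) :
    Cong (osum H (sq1 (D * d))) (osum (sq1 1) (diagonal (vec4 D τ μ β))) := by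
  have h1 : Cong (sq1 (D * d)) (sq1 (D * μ)) := by
    refine (Cong.sq1_of_eq (c := e) he ?_).symm
    rw [hd]
    ring
  exact (h.osum h1).trans (qt_reorder _ _ _ _)

private lemma qt_map_Aq {K L : Type*} [Field K] [Field L] (φ : K →+* L) (τ μ β : K) :
    φ (Aq τ μ β) = Aq (φ τ) (φ μ) (φ β) := by
  simp only [Aq, map_add, map_sub, map_div₀, map_pow]

private lemma qt_map_Mq {K L : Type*} [Field K] [Field L] (φ : K →+* L) (τ μ : K) :
    φ (Mq τ μ) = Mq (φ τ) (φ μ) := by
  simp only [Mq, map_add, map_mul, map_pow, map_ofNat]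

private lemma qt_map_Gq {K L : Type*} [Field K] [Field L] (φ : K →+* L) (τ μ β : K) :
    φ (Gq τ μ β) = Gq (φ τ) (φ μ) (φ β) := by
  simp only [Gq, map_add, map_mul, map_pow, map_ofNat, qt_map_Aq]

private lemma qt_good_of_map {K L : Type*} [Field K] [Field L] (φ : K →+* L) {τ μ β : K}
    (h : GoodQ (φ τ) (φ μ) (φ β)) : GoodQ τ μ β where
  t := (_root_.map_ne_zero φ).mp h.t
  m := (_root_.map_ne_zero φ).mp h.m
  A := (_root_.map_ne_zero φ).mp (by rw [qt_map_Aq]; exact h.A)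
  M := (_root_.map_ne_zero φ).mp (by rw [qt_map_Mq]; exact h.M)
  G := (_root_.map_ne_zero φ).mp (by rw [qt_map_Gq]; exact h.G)
  At := (_root_.map_ne_zero φ).mp (by rw [map_add, qt_map_Aq]; exact h.At)

section Lim

variable {K : Type*} [NormedField K] {τs μs βs : ℕ → K} {τ μ β : K}

private lemma qt_lim_Aq (h1 : Tendsto τs atTop (𝓝 τ)) (h2 : Tendsto μs atTop (𝓝 μ))
    (h3 : Tendsto βs atTop (𝓝 β)) (ht : τ ≠ 0) :
    Tendsto (fun j => Aq (τs j) (μs j) (βs j)) atTop (𝓝 (Aq τ μ β)) :=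
  (((h3.pow 2).div (h1.pow 2) (pow_ne_zero 2 ht)).sub h1).add (h2.div h1 ht)

private lemma qt_lim_Mq (h1 : Tendsto τs atTop (𝓝 τ)) (h2 : Tendsto μs atTop (𝓝 μ)) :
    Tendsto (fun j => Mq (τs j) (μs j)) atTop (𝓝 (Mq τ μ)) :=
  (h1.pow 2).add (h2.const_mul 3)

private lemma qt_lim_Gq (h1 : Tendsto τs atTop (𝓝 τ)) (h2 : Tendsto μs atTop (𝓝 μ))
    (h3 : Tendsto βs atTop (𝓝 β)) (ht : τ ≠ 0) :
    Tendsto (fun j => Gq (τs j) (μs j) (βs j)) atTop (𝓝 (Gq τ μ β)) :=
  ((((qt_lim_Aq h1 h2 h3 ht).const_mul 3).add (h1.const_mul 2)).pow 2).add (h2.const_mul 12)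

private lemma qt_good_eventually (h1 : Tendsto τs atTop (𝓝 τ)) (h2 : Tendsto μs atTop (𝓝 μ))
    (h3 : Tendsto βs atTop (𝓝 β)) (h : GoodQ τ μ β) :
    ∀ᶠ j in atTop, GoodQ (τs j) (μs j) (βs j) := by
  filter_upwards [h1.eventually_ne h.t, h2.eventually_ne h.m,
    (qt_lim_Aq h1 h2 h3 h.t).eventually_ne h.A, (qt_lim_Mq h1 h2).eventually_ne h.M,
    (qt_lim_Gq h1 h2 h3 h.t).eventually_ne h.G,
    ((qt_lim_Aq h1 h2 h3 h.t).add h1).eventually_ne h.At] with j e1 e2 e3 e4 e5 e6
  exact ⟨e1, e2, e3, e4, e5, e6⟩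

end Lim

private lemma qt_comp {K : Type*} [Field K] (τ μ β c : K) :
    (gq τ μ β).comp (X - C c) = (X - C c) ^ 4 + C (-(τ / 2)) * (X - C c) ^ 2 +
      C (-(τ * Aq τ μ β * β / (2 * Mq τ μ))) * (X - C c) +
      C (τ ^ 2 * (3 * Aq τ μ β ^ 2 + 4 * τ * Aq τ μ β + Mq τ μ) / (16 * Mq τ μ)) := by
  simp only [gq, dq, add_comp, mul_comp, pow_comp, X_comp, C_comp]

private lemma qt_map_comp {K L : Type*} [Field K] [Field L] (φ : K →+* L) (τ μ β c : K) :
    ((gq τ μ β).comp (X - C c)).map φ = (gq (φ τ) (φ μ) (φ β)).comp (X - C (φ c)) := by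
  rw [qt_comp, qt_comp]
  simp only [Polynomial.map_add, Polynomial.map_mul, Polynomial.map_pow, Polynomial.map_sub,
    map_X, map_C, Polynomial.map_neg, map_neg, map_div₀, map_mul, map_pow, map_add, map_ofNat, qt_map_Aq, qt_map_Mq]

private lemma qt_lim_comp {K : Type*} [NormedField K] [CharZero K] {τs μs βs cs : ℕ → K}
    {τ μ β c : K} (h1 : Tendsto τs atTop (𝓝 τ)) (h2 : Tendsto μs atTop (𝓝 μ))
    (h3 : Tendsto βs atTop (𝓝 β)) (h4 : Tendsto cs atTop (𝓝 c)) (h : GoodQ τ μ β) :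
    CT atTop (fun j => (gq (τs j) (μs j) (βs j)).comp (X - C (cs j)))
      ((gq τ μ β).comp (X - C c)) := by
  simp only [qt_comp]
  have hA := qt_lim_Aq h1 h2 h3 h.t
  have hM := qt_lim_Mq h1 h2
  have hX : CT atTop (fun j => (X - C (cs j) : K[X])) (X - C c) := (CT.const X).sub (CT.C h4)
  have hM2 : (2 * Mq τ μ) ≠ 0 := mul_ne_zero two_ne_zero h.M
  have hM16 : (16 * Mq τ μ) ≠ 0 := mul_ne_zero (by norm_num) h.M
  refine (((hX.pow 4).add ((CT.C (h1.div_const 2).neg).mul (hX.pow 2))).add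
    ((CT.C ?_).mul hX)).add (CT.C ?_)
  · exact (((h1.mul hA).mul h3).div (hM.const_mul 2) hM2).neg
  · exact ((h1.pow 2).mul ((((hA.pow 2).const_mul 3).add ((h1.const_mul 4).mul hA)).add hM)).div
      (hM.const_mul 16) hM16

private lemma qt_exists_seq {k : Type*} [Field k] {ι : Type*} [Fintype ι]
    {K : ι → Type*} [∀ i, NormedField (K i)] {φ : ∀ i, k →+* K i}
    (hdense : DenseRange (fun (q : k) (i : ι) => φ i q)) (x : ∀ i, K i) :
    ∃ u : ℕ → k, ∀ i, Tendsto (fun j => φ i (u j)) atTop (𝓝 (x i)) := by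
  have hx : x ∈ closure (Set.range fun (q : k) (i : ι) => φ i q) := hdense x
  obtain ⟨w, hw, hlim⟩ := mem_closure_iff_seq_limit.mp hx
  choose u hu using hw
  refine ⟨u, fun i => ?_⟩
  have := (tendsto_pi_nhds.mp hlim) i
  refine this.congr fun j => ?_
  rw [← hu j]

end QTAux

/-- Weak approximation for quartics `g` with
`HH 4 g ⊕ ⟨D disc g⟩ = ⟨1⟩ ⊕ ⟨a 0, a 1, a 2, a 3⟩`, `D = a 0 a 1 a 2 a 3`. -/
theorem quartic_approx {k : Type*} [Field k] [CharZero k] {ι : Type*} [Fintype ι] [Nonempty ι]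
    {K : ι → Type*} [∀ i, NormedField (K i)] [∀ i, CharZero (K i)] {φ : ∀ i, k →+* K i}
    (hdense : DenseRange (fun (q : k) (i : ι) => φ i q)) {a : Fin 4 → k} (ha : ∀ l, a l ≠ 0)
    {y0 u0 : Fin 4 → k} (h0 : OnS a (∏ l, a l) y0 u0) (g : ∀ i, (K i)[X])
    (hg : ∀ i, GenQ (g i))
    (hc : ∀ i, Cong (osum (HH 4 (g i)) (sq1 (φ i (∏ l, a l) * (g i).discr)))
      (osum (sq1 1) (diagonal fun l => φ i (a l)))) :
    ∃ gs : ℕ → k[X], (∀ j, (gs j).Monic ∧ (gs j).natDegree = 4 ∧ (gs j).Separable ∧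
      Cong (osum (HH 4 (gs j)) (sq1 ((∏ l, a l) * (gs j).discr)))
        (osum (sq1 1) (diagonal a))) ∧
      ∀ i m, Tendsto (fun j => φ i ((gs j).coeff m)) atTop (𝓝 ((g i).coeff m)) := by
  classical
  set D : k := ∏ l, a l with hDdef
  have hD : D ≠ 0 := Finset.prod_ne_zero_iff.mpr fun l _ => ha l
  have hDi : ∀ i, φ i D ≠ 0 := fun i => (_root_.map_ne_zero (φ i)).mpr hD
  choose τ μ β c hgood hgeq using hg
  -- local congruence of the rank 4 spaces
  have hloc : ∀ i, Cong (diagonal (vec4 (φ i D) (τ i) (μ i) (β i)))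
      (diagonal fun l => φ i (a l)) := by
    intro i
    obtain ⟨-, -, -, ⟨e, he, hdisc⟩, hcong⟩ := gq_comp_info (hgood i) (c i)
    rw [← hgeq i] at hdisc hcong
    have h1 := (qt_cong (D := φ i D) he hdisc hcong).symm.trans (hc i)
    exact witt_sq1 one_ne_zero (diagonal_transpose _) (diagonal_transpose _) h1
  choose y u v hOn huv hτ hμ hβ using fun i => exists_vectors (hDi i) (hgood i) (hloc i)
  obtain ⟨ys, us, hOnS, hys, hus⟩ := sphere_approx hdense ha hD h0 y u hOn
  choose vs0 hvs0 using fun l : Fin 4 => qt_exists_seq hdense fun i => v i l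
  obtain ⟨cs, hcs⟩ := qt_exists_seq hdense c
  -- the global vectors
  set qu : ℕ → k := fun j => ∑ l, a l * us j l ^ 2 with hqu
  set b0 : ℕ → k := fun j => ∑ l, a l * (us j l * vs0 l j) with hb0
  set vs : ℕ → Fin 4 → k := fun j l => vs0 l j - b0 j / qu j * us j l with hvs
  set τs : ℕ → k := fun j => ∑ l, a l * vs j l ^ 2 with hτs
  set μs : ℕ → k := fun j => τs j ^ 2 * (D * ∑ l, a l * us j l ^ 2) with hμs
  set βs : ℕ → k := fun j => τs j * ∑ l, a l * (ys j l * vs j l) with hβs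
  have hqui : ∀ i, ∑ l, φ i (a l) * u i l ^ 2 ≠ 0 := by
    intro i h
    have h1 := hμ i
    rw [h, mul_zero, mul_zero] at h1
    exact (hgood i).m h1.symm
  have lqu : ∀ i, Tendsto (fun j => φ i (qu j)) atTop (𝓝 (∑ l, φ i (a l) * u i l ^ 2)) := by
    intro i
    simp only [hqu, map_sum, map_mul, map_pow]
    exact tendsto_finsetSum _ fun l _ => ((hus i l).pow 2).const_mul _
  have lb0 : ∀ i, Tendsto (fun j => φ i (b0 j)) atTop (𝓝 0) := by
    intro i
    rw [← huv i]
    simp only [hb0, map_sum, map_mul]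
    exact tendsto_finsetSum _ fun l _ => ((hus i l).mul (hvs0 l i)).const_mul _
  have lvs : ∀ i l, Tendsto (fun j => φ i (vs j l)) atTop (𝓝 (v i l)) := by
    intro i l
    simp only [hvs, map_sub, map_mul, map_div₀]
    have h1 := (hvs0 l i).sub ((((lb0 i).div (lqu i) (hqui i))).mul (hus i l))
    rw [zero_div, zero_mul, sub_zero] at h1
    exact h1
  have lτ : ∀ i, Tendsto (fun j => φ i (τs j)) atTop (𝓝 (τ i)) := by
    intro i
    rw [← hτ i]
    simp only [hτs, map_sum, map_mul, map_pow]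
    exact tendsto_finsetSum _ fun l _ => ((lvs i l).pow 2).const_mul _
  have lμ : ∀ i, Tendsto (fun j => φ i (μs j)) atTop (𝓝 (μ i)) := by
    intro i
    rw [← hμ i]
    have h1 := ((lτ i).pow 2).mul ((lqu i).const_mul (φ i D))
    refine h1.congr fun j => ?_
    simp only [hμs, hqu, map_mul, map_pow]
  have lβ : ∀ i, Tendsto (fun j => φ i (βs j)) atTop (𝓝 (β i)) := by
    intro i
    rw [← hβ i]
    have h1 : Tendsto (fun j => φ i (∑ l, a l * (ys j l * vs j l))) atTop
        (𝓝 (∑ l, φ i (a l) * (y i l * v i l))) := by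
      simp only [map_sum, map_mul]
      exact tendsto_finsetSum _ fun l _ => ((hys i l).mul (lvs i l)).const_mul _
    refine ((lτ i).mul h1).congr fun j => ?_
    simp only [hβs, map_mul]
  -- good parameters for large `j`
  obtain ⟨i₀⟩ := ‹Nonempty ι›
  have hev : ∀ᶠ j in atTop, GoodQ (τs j) (μs j) (βs j) ∧ qu j ≠ 0 := by
    filter_upwards [qt_good_eventually (lτ i₀) (lμ i₀) (lβ i₀) (hgood i₀),
      (lqu i₀).eventually_ne (hqui i₀)] with j e1 e2
    exact ⟨qt_good_of_map (φ i₀) e1, (_root_.map_ne_zero (φ i₀)).mp e2⟩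
  obtain ⟨J, hJ⟩ := Filter.eventually_atTop.mp hev
  refine ⟨fun j => (gq (τs (j + J)) (μs (j + J)) (βs (j + J))).comp (X - C (cs (j + J))),
    fun j => ?_, fun i m => ?_⟩
  · obtain ⟨hG, hq⟩ := hJ (j + J) (Nat.le_add_left _ _)
    obtain ⟨hmon, hdeg, hsep, ⟨e, he, hdisc⟩, hcong⟩ := gq_comp_info hG (cs (j + J))
    refine ⟨hmon, hdeg, hsep, ?_⟩
    have h1 := qt_cong (D := D) he hdisc hcong
    refine h1.trans ((Cong.refl _).osum ?_)
    have horth : ∑ l, a l * (us (j + J) l * vs (j + J) l) = 0 := by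
      have h2 : ∀ l, a l * (us (j + J) l * vs (j + J) l) =
          a l * (us (j + J) l * vs0 l (j + J)) -
            b0 (j + J) / qu (j + J) * (a l * us (j + J) l ^ 2) := by
        intro l
        simp only [hvs]
        ring
      rw [Finset.sum_congr rfl fun l _ => h2 l, Finset.sum_sub_distrib, ← Finset.mul_sum]
      change b0 (j + J) - b0 (j + J) / qu (j + J) * qu (j + J) = 0
      rw [div_mul_cancel₀ _ hq, sub_self]
    exact cong_of_vectors ha hG (hOnS (j + J)) horth rfl rfl rfl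
  · have h1 := (qt_lim_comp (lτ i) (lμ i) (lβ i) (hcs i) (hgood i)) m
    have h2 := h1.comp (tendsto_add_atTop_nat J)
    rw [← hgeq i] at h2
    refine h2.congr fun j => ?_
    simp only [Function.comp_apply]
    rw [← qt_map_comp, coeff_map]

end Pool.Agent.Lib.MP_12adaf_nt.TF
end

section

/-!
# From local data to global polynomials of degree 6 with a given trace form
-/

namespace Pool.Agent.Lib.MP_12adaf_nt.TF

set_option linter.unusedSectionVars false
set_option linter.unusedVariables false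

open Finset Polynomial Filter Topology Matrix

/-- The family `(F i, Y i)` is approximated by `(P, y)` with `disc P = d y ^ 2` and
`HH n P ≅ B`. -/
def ApF {k : Type*} [Field k] {ι : Type*} {K : ι → Type*} [∀ i, NormedField (K i)]
    (φ : ∀ i, k →+* K i) (n : ℕ) (d : k) {m : Type*} [Fintype m] [DecidableEq m]
    (B : Matrix m m k) (F : ∀ i, (K i)[X]) (Y : ∀ i, K i) : Prop :=
  ∀ ε : ℝ, 0 < ε → ∃ (P : k[X]) (y : k), P.Monic ∧ P.natDegree = n ∧ P.discr = d * y ^ 2 ∧
    y ≠ 0 ∧ Cong (HH n P) B ∧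
    ∀ i, (∀ m, ‖φ i (P.coeff m) - (F i).coeff m‖ < ε) ∧ ‖φ i y - Y i‖ < ε

section Reorder

variable {K : Type*} [CommRing K] {m : Type*} [Fintype m] [DecidableEq m]

lemma cong_osum_empty (A : Matrix m m K) : Cong (osum A (1 : Matrix (Fin 0) (Fin 0) K)) A := by
  have h := Cong.submatrix (osum A (1 : Matrix (Fin 0) (Fin 0) K)) (Equiv.sumEmpty m (Fin 0)).symm
  refine h.trans (Cong.of_eq ?_)
  ext i j
  simp [osum]

lemma cong_six_reorder (A : Matrix m m K) (b c : K) :
    Cong (osum (osum A (sq1 b)) (sq1 c)) (osum (sq1 b) (osum A (sq1 c))) :=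
  ((Cong.osum_comm A (sq1 b)).osum (Cong.refl _)).trans (Cong.osum_assoc _ _ _)

lemma cong_stdF_zero (a : Fin 4 → K) :
    Cong (stdF 0 a) (osum (sq1 2) (osum (sq1 1) (diagonal a))) :=
  (cong_osum_empty _).trans
    (((Cong.osum_comm (sq1 1) (sq1 2)).osum (Cong.refl _)).trans (Cong.osum_assoc _ _ _))

end Reorder

section Local

variable {K : Type*} [Field K] [CharZero K]

/-- The trace form of the members of the pencil. -/
lemma cong_fds {D : K} (hD : D ≠ 0) {g : K[X]} (hg : g.Monic) (hgN : g.natDegree = 4)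
    (hsep : g.Separable) (h0 : g.eval 0 ≠ 0) (hL : (Lmat 4 g).det ≠ 0)
    (hR : resultant g (hpoly 4 g) 4 4 ≠ 0) {s : K} (hfs : (fds 4 (2 * D) g s).Separable) :
    Cong (HH 6 (fds 4 (2 * D) g s)) (osum (osum (HH 4 g) (sq1 2)) (sq1 (D * g.discr))) := by
  have hE : Even 4 := ⟨2, rfl⟩
  have hm := fpoly_monic hg hgN (tpar 4 (2 * D) g s)
  have hw := wronskian_fpoly hg hgN hsep h0 hL (tpar 4 (2 * D) g s)
  have hcop : IsCoprime g (hpoly 4 g) := by
    have h1 : resultant g (hpoly 4 g) ≠ 0 := by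
      intro h2
      obtain ⟨e, he⟩ := Nat.exists_eq_add_of_le (natDegree_hpoly_le hg hgN)
      apply hR
      have h3 : resultant g (hpoly 4 g) 4 4 =
          resultant g (hpoly 4 g) g.natDegree ((hpoly 4 g).natDegree + e) := by
        rw [hgN, ← he]
      rw [h3, resultant_add_right_deg _ _ _ _ _ le_rfl, h2, mul_zero]
    exact (isUnit_resultant_iff_isCoprime hg).mp (isUnit_iff_ne_zero.mpr h1)
  have h1 := cong_W hm.1 hg hm.2 hgN (natDegree_hpoly_le hg hgN) hfs hsep hcop h0 hw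
  refine h1.trans ((Cong.refl _).osum ?_)
  have hd := discr_fds hE hg hgN hsep h0 hL hR (2 * D) s
  have hd0 := discr_ne_zero_of_separable hm.1 hfs
  have hy : yds 4 (2 * D) g s ≠ 0 := by
    intro h
    change (fds 4 (2 * D) g s).discr ≠ 0 at hd0
    rw [hd, h] at hd0
    simp at hd0
  refine (Cong.sq1_of_eq (c := 2 * yds 4 (2 * D) g s)
    (mul_ne_zero two_ne_zero hy) ?_).symm
  change 2 * (fds 4 (2 * D) g s).discr * g.discr = _
  rw [hd]
  ring

lemma cong_charT_fds {D : K} (hD : D ≠ 0) {g : K[X]} (hg : g.Monic) (hgN : g.natDegree = 4)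
    (hsep : g.Separable) (h0 : g.eval 0 ≠ 0) (hL : (Lmat 4 g).det ≠ 0)
    (hR : resultant g (hpoly 4 g) 4 4 ≠ 0) {s : K} (hfs : (fds 4 (2 * D) g s).Separable)
    {T : K[X]} (hT : (charT 6 (fds 4 (2 * D) g s) T).Separable) :
    Cong (HH 6 (charT 6 (fds 4 (2 * D) g s) T))
      (osum (sq1 2) (osum (HH 4 g) (sq1 (D * g.discr)))) := by
  have hm := fpoly_monic hg hgN (tpar 4 (2 * D) g s)
  exact ((cong_charT hm.1 hm.2 hfs hT).symm.trans (cong_fds hD hg hgN hsep h0 hL hR hfs)).trans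
    (cong_six_reorder _ _ _)

end Local

/-- Perturbation of the companion. -/
lemma exists_generic_companion {K : Type*} [NormedField K] [CharZero K] (hop : OpenCong K)
    (hnb : (𝓝[≠] (0 : K)).NeBot) {D : K} (hD : D ≠ 0) {g : K[X]} (hg : g.Monic)
    (hgN : g.natDegree = 4) (hsep : g.Separable) (h0 : g.eval 0 ≠ 0) (hL : (Lmat 4 g).det ≠ 0)
    (hR : resultant g (hpoly 4 g) 4 4 ≠ 0) (s : K) {T : K[X]}
    {m : Type*} [Fintype m] [DecidableEq m] {B : Matrix m m K}
    (hc : Cong (osum (HH 4 g) (sq1 (D * g.discr))) B)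
    (hy : yds 4 (2 * D) g s * (Bmat 6 (fds 4 (2 * D) g s) T).det ≠ 0) {ε : ℝ} (hε : 0 < ε) :
    ∃ g' : K[X], GenQ g' ∧ g'.Monic ∧ g'.natDegree = 4 ∧ g'.Separable ∧ g'.eval 0 ≠ 0 ∧
      (Lmat 4 g').det ≠ 0 ∧ resultant g' (hpoly 4 g') 4 4 ≠ 0 ∧
      Cong (osum (HH 4 g') (sq1 (D * g'.discr))) B ∧
      (∀ l, ‖(charT 6 (fds 4 (2 * D) g' s) T).coeff l -
        (charT 6 (fds 4 (2 * D) g s) T).coeff l‖ < ε) ∧
      ‖yds 4 (2 * D) g' s * (Bmat 6 (fds 4 (2 * D) g' s) T).det -
        yds 4 (2 * D) g s * (Bmat 6 (fds 4 (2 * D) g s) T).det‖ < ε ∧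
      yds 4 (2 * D) g' s * (Bmat 6 (fds 4 (2 * D) g' s) T).det ≠ 0 := by
  obtain ⟨gs, hgen, hlim⟩ := genQ_seq hnb hg hgN hsep
  have hinfo : ∀ m, (gs m).Monic ∧ (gs m).natDegree = 4 ∧ (gs m).Separable := by
    intro m
    obtain ⟨τ, μ, β, c, hgood, hgm⟩ := hgen m
    obtain ⟨h1, h2, h3, -, -⟩ := gq_comp_info hgood c
    rw [hgm]
    exact ⟨h1, h2, h3⟩
  have hm' : ∀ m, (gs m).Monic := fun m => (hinfo m).1
  have hd' : ∀ m, (gs m).natDegree = 4 := fun m => (hinfo m).2.1
  have hCT : CT atTop gs g := hlim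
  have hCTB : CTB atTop gs g := ⟨hCT, 4, fun m => (hd' m).le, hgN.le⟩
  -- the trace form
  obtain ⟨δ, hδ, hopen⟩ := hop 4 (HH 4 g) (HH_isSymm 4 g) (det_HH_ne_zero hg hgN hsep) 1 one_pos
  have ev1 : ∀ᶠ m in atTop, Cong (HH 4 g) (HH 4 (gs m)) := by
    have h1 : ∀ᶠ m in atTop, ∀ i j, ‖HH 4 (gs m) i j - HH 4 g i j‖ < δ := by
      rw [eventually_all]
      intro i
      rw [eventually_all]
      intro j
      have := (Metric.tendsto_nhds.mp (tendsto_HH hCT hm' hd' hg hgN i j)) δ hδ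
      simpa only [dist_eq_norm] using this
    filter_upwards [h1] with m hm
    obtain ⟨Y, -, hY⟩ := hopen _ (HH_isSymm 4 (gs m)) hm
    have h2 : (HH 4 (gs m)).det ≠ 0 := det_HH_ne_zero (hm' m) (hd' m) (hinfo m).2.2
    have h3 : Y.det ≠ 0 := by
      intro h4
      rw [← hY, det_mul, h4, mul_zero] at h2
      exact h2 rfl
    exact ⟨Y, Y⁻¹, Matrix.mul_nonsing_inv _ h3.isUnit, Matrix.nonsing_inv_mul _ h3.isUnit, hY⟩
  have ev2 : ∀ᶠ m in atTop, Cong (osum (HH 4 (gs m)) (sq1 (D * (gs m).discr))) B := by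
    filter_upwards [ev1] with m hm
    obtain ⟨c, hc0, hc1⟩ := hm.det_eq
    rw [det_HH hg hgN hsep, det_HH (hm' m) (hd' m) (hinfo m).2.2] at hc1
    refine Cong.trans ?_ hc
    refine hm.symm.osum ?_
    refine (Cong.sq1_of_eq hc0 ?_).symm
    rw [hc1]
    ring
  have ev3 : ∀ᶠ m in atTop, (gs m).eval 0 ≠ 0 :=
    (hCTB.eval (z := fun _ => 0) tendsto_const_nhds).eventually_ne h0
  have ev4 : ∀ᶠ m in atTop, (Lmat 4 (gs m)).det ≠ 0 :=
    (tendsto_det (tendsto_Lmat hCTB hm' hd' hg hgN)).eventually_ne hL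
  have ev5 : ∀ᶠ m in atTop, resultant (gs m) (hpoly 4 (gs m)) 4 4 ≠ 0 :=
    (tendsto_resultant_hpoly hCTB hm' hd' hg hgN hL).eventually_ne hR
  have hfm : ∀ m, (fds 4 (2 * D) (gs m) s).Monic ∧ (fds 4 (2 * D) (gs m) s).natDegree = 6 :=
    fun m => fpoly_monic (hm' m) (hd' m) _
  have hfm0 : (fds 4 (2 * D) g s).Monic ∧ (fds 4 (2 * D) g s).natDegree = 6 :=
    fpoly_monic hg hgN _
  have hCTf : CTB atTop (fun m => fds 4 (2 * D) (gs m) s) (fds 4 (2 * D) g s) :=
    ctb_fds hCTB hm' hd' hg hgN hL h0 (2 * D) tendsto_const_nhds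
  have hCTP := ctb_charT (n := 6) hCTf (fun m => (hfm m).1) (fun m => (hfm m).2) hfm0.1 hfm0.2
    (CTB.const T)
  have hyl : Tendsto (fun m => yds 4 (2 * D) (gs m) s *
      (Bmat 6 (fds 4 (2 * D) (gs m) s) T).det) atTop
      (𝓝 (yds 4 (2 * D) g s * (Bmat 6 (fds 4 (2 * D) g s) T).det)) :=
    (tendsto_yds hCTB hm' hd' hg hgN hL h0 hR (2 * D) tendsto_const_nhds).mul
      (tendsto_det_Bmat (n := 6) hCTf (fun m => (hfm m).1) (fun m => (hfm m).2) hfm0.1 hfm0.2
        (CTB.const T))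
  have ev6 : ∀ᶠ m in atTop, ∀ l : Fin 7, ‖(charT 6 (fds 4 (2 * D) (gs m) s) T).coeff l -
        (charT 6 (fds 4 (2 * D) g s) T).coeff l‖ < ε := by
    rw [eventually_all]
    intro l
    have := (Metric.tendsto_nhds.mp (hCTP l)) ε hε
    simpa only [dist_eq_norm] using this
  have ev7 : ∀ᶠ m in atTop, ‖yds 4 (2 * D) (gs m) s * (Bmat 6 (fds 4 (2 * D) (gs m) s) T).det -
        yds 4 (2 * D) g s * (Bmat 6 (fds 4 (2 * D) g s) T).det‖ < ε := by
    have := (Metric.tendsto_nhds.mp hyl) ε hε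
    simpa only [dist_eq_norm] using this
  have ev8 := hyl.eventually_ne hy
  obtain ⟨m, h2, h3, h4, h5, h6, h7, h8⟩ :=
    (ev2.and (ev3.and (ev4.and (ev5.and (ev6.and (ev7.and ev8)))))).exists
  refine ⟨gs m, hgen m, hm' m, hd' m, (hinfo m).2.2, h3, h4, h5, h2, fun l => ?_, h7, h8⟩
  by_cases hl : l < 7
  · exact h6 ⟨l, hl⟩
  · have k1 : (charT 6 (fds 4 (2 * D) (gs m) s) T).coeff l = 0 := by
      apply coeff_eq_zero_of_natDegree_lt
      rw [natDegree_charT]; omega
    have k2 : (charT 6 (fds 4 (2 * D) g s) T).coeff l = 0 := by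
      apply coeff_eq_zero_of_natDegree_lt
      rw [natDegree_charT]; omega
    rw [k1, k2, sub_zero, norm_zero]
    exact hε

theorem six_approx {k : Type*} [Field k] [CharZero k] {ι : Type*} [Fintype ι] [Nonempty ι]
    {K : ι → Type*} [∀ i, NormedField (K i)] [∀ i, CharZero (K i)] {φ : ∀ i, k →+* K i}
    (hdense : DenseRange (fun (q : k) (i : ι) => φ i q)) (hop : ∀ i, OpenCong (K i))
    (hnb : ∀ i, (𝓝[≠] (0 : K i)).NeBot) {a : Fin 4 → k} (ha : ∀ l, a l ≠ 0)
    {y0 u0 : Fin 4 → k} (h0 : OnS a (∏ l, a l) y0 u0) (F : ∀ i, (K i)[X]) (Y : ∀ i, K i)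
    (hF : ∀ i, LocW 4 (F i))
    (hc : ∀ i, Cong (HH 6 (F i)) (stdF 0 fun l => φ i (a l)))
    (hdisc : ∀ i, (F i).discr = φ i (2 * ∏ l, a l) * Y i ^ 2) (hY : ∀ i, Y i ≠ 0) :
    ApF φ 6 (2 * ∏ l, a l) (stdF 0 a) F Y := by
  intro ε hε
  have hE : Even 4 := ⟨2, rfl⟩
  have hseq : ∀ x : ∀ i, K i, ∃ u : ℕ → k, ∀ i, Tendsto (fun j => φ i (u j)) atTop (𝓝 (x i)) := by
    intro x
    have hx : x ∈ closure (Set.range fun (q : k) (i : ι) => φ i q) := hdense x
    obtain ⟨w, hw, hlim⟩ := mem_closure_iff_seq_limit.mp hx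
    choose u hu using hw
    refine ⟨u, fun i => ?_⟩
    have := (tendsto_pi_nhds.mp hlim) i
    refine this.congr fun j => ?_
    rw [← hu j]
  set D : k := ∏ l, a l with hDdef
  have hD : D ≠ 0 := Finset.prod_ne_zero_iff.mpr fun l _ => ha l
  have hφD : ∀ i, φ i D ≠ 0 := fun i => (_root_.map_ne_zero (φ i)).mpr hD
  have hφ2 : ∀ i, φ i (2 * D) = 2 * φ i D := fun i => by rw [map_mul, map_ofNat]
  have h2D : (2 * D : k) ≠ 0 := mul_ne_zero two_ne_zero hD
  have hφd : ∀ i, 2 * φ i D ≠ 0 := fun i => mul_ne_zero two_ne_zero (hφD i)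
  choose g t T hg hgN hsep he0 hL hR hfs hT hch using hF
  have hs : ∀ i, ∃ s : K i, tpar 4 (2 * φ i D) (g i) s = t i ∧
      yds 4 (2 * φ i D) (g i) s * (Bmat 6 (fds 4 (2 * φ i D) (g i) s) (T i)).det = Y i := by
    intro i
    refine LocW.exists_s hE (hg i) (hgN i) (hsep i) (he0 i) (hL i) (hR i) (hfs i) (hY i)
      (hφd i) ?_
    rw [hch i, hdisc i, hφ2]
  choose s hs1 hs2 using hs
  have hfds : ∀ i, fds 4 (2 * φ i D) (g i) (s i) = fpoly 4 (g i) (t i) := fun i => by
    rw [fds, hs1 i]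
  have hchT : ∀ i, charT 6 (fds 4 (2 * φ i D) (g i) (s i)) (T i) = F i := fun i => by
    rw [hfds i, hch i]
  have hFsep : ∀ i, (F i).Separable := fun i => by
    have h1 : (F i).Monic := by rw [← hchT i]; exact charT_monic _ _ _
    apply separable_of_discr_ne_zero h1
    rw [hdisc i]
    exact mul_ne_zero (by rw [hφ2]; exact hφd i) (pow_ne_zero 2 (hY i))
  -- the trace form of the companions
  have hstar : ∀ i, Cong (osum (HH 4 (g i)) (sq1 (φ i D * (g i).discr)))
      (osum (sq1 1) (diagonal fun l => φ i (a l))) := by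
    intro i
    have h1 := cong_charT_fds (hφD i) (hg i) (hgN i) (hsep i) (he0 i) (hL i) (hR i)
      (s := s i) (by rw [hfds i]; exact hfs i) (T := T i) (by rw [hchT i]; exact hFsep i)
    rw [hchT i] at h1
    have h2 := h1.symm.trans ((hc i).trans (cong_stdF_zero _))
    exact witt_sq1 two_ne_zero (osum_isSymm (HH_isSymm _ _) (sq1_isSymm _))
      (osum_isSymm (sq1_isSymm _) (diagonal_fin4_isSymm _)) h2
  -- perturbation
  have hpert := fun i => exists_generic_companion (hop i) (hnb i) (hφD i) (hg i) (hgN i)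
    (hsep i) (he0 i) (hL i) (hR i) (s i) (T := T i) (hstar i)
    (by rw [hs2 i]; exact hY i) (half_pos hε)
  choose g' hgen' hg' hgN' hsep' he0' hL' hR' hstar' hnear1 hnear2 hy' using hpert
  -- global companions
  obtain ⟨gq', hgq', hgqlim⟩ := quartic_approx hdense ha h0 g' hgen' hstar'
  choose uT huT using fun m : Fin 6 => hseq fun i => (T i).coeff m
  obtain ⟨us, hus⟩ := hseq s
  let Tq : ℕ → k[X] := fun j => toPoly fun m => uT m j
  have hgqm : ∀ j, (gq' j).Monic := fun j => (hgq' j).1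
  have hgqd : ∀ j, (gq' j).natDegree = 4 := fun j => (hgq' j).2.1
  -- convergence at each place
  have hCTg : ∀ i, CTB atTop (fun j => (gq' j).map (φ i)) (g' i) := by
    intro i
    refine ⟨fun m => ?_, 4, fun j => ?_, (hgN' i).le⟩
    · simp only [coeff_map]
      exact hgqlim i m
    · rw [natDegree_map, hgqd]
  have hCTT : ∀ i, CTB atTop (fun j => (Tq j).map (φ i)) (T i) := by
    intro i
    have h1 : ∀ j, (Tq j).map (φ i) = ∑ m : Fin 6, C (φ i (uT m j)) * X ^ (m : ℕ) := by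
      intro j
      rw [show Tq j = toPoly fun m => uT m j from rfl, map_toPoly]
      rfl
    rw [← toPoly_coeff (hT i)]
    simp only [h1]
    exact CTB.sum _ fun m _ => (CTB.C (huT m i)).mul (CTB.const _)
  have hm' : ∀ i j, ((gq' j).map (φ i)).Monic := fun i j => (hgqm j).map _
  have hd' : ∀ i j, ((gq' j).map (φ i)).natDegree = 4 := fun i j => by
    rw [natDegree_map, hgqd]
  have hCTf : ∀ i, CTB atTop (fun j => (fds 4 (2 * D) (gq' j) (us j)).map (φ i))
      (fds 4 (2 * φ i D) (g' i) (s i)) := by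
    intro i
    simp only [map_fds (φ i) (hgqm _), hφ2]
    exact ctb_fds (hCTg i) (hm' i) (hd' i) (hg' i) (hgN' i) (hL' i) (he0' i) (2 * φ i D) (hus i)
  have hfm : ∀ j, (fds 4 (2 * D) (gq' j) (us j)).Monic ∧
      (fds 4 (2 * D) (gq' j) (us j)).natDegree = 6 :=
    fun j => fpoly_monic (hgqm j) (hgqd j) _
  have hfm0 : ∀ i, (fds 4 (2 * φ i D) (g' i) (s i)).Monic ∧
      (fds 4 (2 * φ i D) (g' i) (s i)).natDegree = 6 :=
    fun i => fpoly_monic (hg' i) (hgN' i) _
  have hCTP : ∀ i, CT atTop (fun j => (charT 6 (fds 4 (2 * D) (gq' j) (us j)) (Tq j)).map (φ i))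
      (charT 6 (fds 4 (2 * φ i D) (g' i) (s i)) (T i)) := by
    intro i
    have h1 := ctb_charT (n := 6) (hCTf i) (fun j => (hfm j).1.map _)
      (fun j => by rw [natDegree_map]; exact (hfm j).2) (hfm0 i).1 (hfm0 i).2 (hCTT i)
    intro m
    refine (h1 m).congr fun j => ?_
    dsimp only
    rw [map_charT (φ i) (hfm j).1]
  let yq : ℕ → k := fun j => yds 4 (2 * D) (gq' j) (us j) *
    (Bmat 6 (fds 4 (2 * D) (gq' j) (us j)) (Tq j)).det
  have hyq : ∀ i, Tendsto (fun j => φ i (yq j)) atTop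
      (𝓝 (yds 4 (2 * φ i D) (g' i) (s i) *
        (Bmat 6 (fds 4 (2 * φ i D) (g' i) (s i)) (T i)).det)) := by
    intro i
    have h1 := tendsto_yds (hCTg i) (hm' i) (hd' i) (hg' i) (hgN' i) (hL' i) (he0' i) (hR' i)
      (2 * φ i D) (hus i)
    have h2 := tendsto_det_Bmat (n := 6) (hCTf i) (fun j => (hfm j).1.map _)
      (fun j => by rw [natDegree_map]; exact (hfm j).2) (hfm0 i).1 (hfm0 i).2 (hCTT i)
    refine (h1.mul h2).congr fun j => ?_
    rw [map_mul, map_yds (φ i) (hgqm j), map_det_Bmat (φ i) (hfm j).1, hφ2]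
  -- choose a good index
  obtain ⟨i₀⟩ := ‹Nonempty ι›
  have ev1 : ∀ᶠ j in atTop, yq j ≠ 0 := by
    have := (hyq i₀).eventually_ne (hy' i₀)
    filter_upwards [this] with j hj h
    exact hj (by rw [h, map_zero])
  have ev2 : ∀ᶠ j in atTop, (Lmat 4 (gq' j)).det ≠ 0 := by
    have h1 := (tendsto_det (tendsto_Lmat (hCTg i₀) (hm' i₀) (hd' i₀) (hg' i₀)
      (hgN' i₀))).eventually_ne (hL' i₀)
    filter_upwards [h1] with j hj h
    apply hj
    rw [map_Lmat (φ i₀) (hgqm j)]
    rw [show ((Lmat 4 (gq' j)).map (φ i₀)).det = φ i₀ (Lmat 4 (gq' j)).det from by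
      rw [RingHom.map_det]; rfl, h, map_zero]
  have ev3 : ∀ᶠ j in atTop, (gq' j).eval 0 ≠ 0 := by
    have h1 := ((hCTg i₀).eval (z := fun _ => 0) tendsto_const_nhds).eventually_ne (he0' i₀)
    filter_upwards [h1] with j hj h
    apply hj
    rw [eval_zero_map, h, map_zero]
  have ev4 : ∀ᶠ j in atTop, resultant (gq' j) (hpoly 4 (gq' j)) 4 4 ≠ 0 := by
    have h1 := (tendsto_resultant_hpoly (hCTg i₀) (hm' i₀) (hd' i₀) (hg' i₀) (hgN' i₀)
      (hL' i₀)).eventually_ne (hR' i₀)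
    filter_upwards [h1] with j hj h
    apply hj
    rw [← map_hpoly (φ i₀) (hgqm j), resultant_map_map, h, map_zero]
  have ev6 : ∀ᶠ j in atTop, ∀ i, ‖φ i (yq j) - yds 4 (2 * φ i D) (g' i) (s i) *
        (Bmat 6 (fds 4 (2 * φ i D) (g' i) (s i)) (T i)).det‖ < ε / 2 := by
    rw [eventually_all]
    intro i
    have := (Metric.tendsto_nhds.mp (hyq i)) (ε / 2) (half_pos hε)
    simpa only [dist_eq_norm] using this
  have ev7 : ∀ᶠ j in atTop, ∀ i, ∀ m : Fin 7,
      ‖φ i ((charT 6 (fds 4 (2 * D) (gq' j) (us j)) (Tq j)).coeff m) -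
        (charT 6 (fds 4 (2 * φ i D) (g' i) (s i)) (T i)).coeff m‖ < ε / 2 := by
    rw [eventually_all]
    intro i
    rw [eventually_all]
    intro m
    have := (Metric.tendsto_nhds.mp (hCTP i m)) (ε / 2) (half_pos hε)
    simpa only [dist_eq_norm, coeff_map] using this
  obtain ⟨j, hj1, hj2, hj3, hj4, hj6, hj7⟩ :=
    (ev1.and (ev2.and (ev3.and (ev4.and (ev6.and ev7))))).exists
  have hgsep : (gq' j).Separable := (hgq' j).2.2.1
  have hfd := discr_fds hE (hgqm j) (hgqd j) hgsep hj3 hj2 hj4 (2 * D) (us j)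
  have hy1 : yds 4 (2 * D) (gq' j) (us j) ≠ 0 := left_ne_zero_of_mul hj1
  have hfsep : (fds 4 (2 * D) (gq' j) (us j)).Separable := by
    apply separable_of_discr_ne_zero (hfm j).1
    rw [hfd]
    exact mul_ne_zero h2D (pow_ne_zero 2 hy1)
  have hPd : (charT 6 (fds 4 (2 * D) (gq' j) (us j)) (Tq j)).discr = 2 * D * yq j ^ 2 := by
    rw [discr_charT (hfm j).1 (hfm j).2 hfsep, hfd]
    ring
  have hPsep : (charT 6 (fds 4 (2 * D) (gq' j) (us j)) (Tq j)).Separable := by
    apply separable_of_discr_ne_zero (charT_monic _ _ _)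
    rw [hPd]
    exact mul_ne_zero h2D (pow_ne_zero 2 hj1)
  refine ⟨charT 6 (fds 4 (2 * D) (gq' j) (us j)) (Tq j), yq j, charT_monic _ _ _,
    natDegree_charT _ _ _, hPd, hj1, ?_, fun i => ⟨fun m => ?_, ?_⟩⟩
  · have h1 := cong_charT_fds hD (hgqm j) (hgqd j) hgsep hj3 hj2 hj4 hfsep hPsep
    exact (h1.trans ((Cong.refl _).osum (hgq' j).2.2.2)).trans (cong_stdF_zero a).symm
  · by_cases hm : m < 7
    · have h1 := hj7 i ⟨m, hm⟩
      have h2 := hnear1 i m
      rw [hchT i] at h2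
      calc ‖φ i ((charT 6 (fds 4 (2 * D) (gq' j) (us j)) (Tq j)).coeff m) - (F i).coeff m‖
          = ‖(φ i ((charT 6 (fds 4 (2 * D) (gq' j) (us j)) (Tq j)).coeff m) -
              (charT 6 (fds 4 (2 * φ i D) (g' i) (s i)) (T i)).coeff m) +
              ((charT 6 (fds 4 (2 * φ i D) (g' i) (s i)) (T i)).coeff m - (F i).coeff m)‖ := by
            congr 1; ring
        _ ≤ _ := norm_add_le _ _
        _ < ε / 2 + ε / 2 := add_lt_add h1 h2
        _ = ε := add_halves ε
    · have h1 : (charT 6 (fds 4 (2 * D) (gq' j) (us j)) (Tq j)).coeff m = 0 := by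
        apply coeff_eq_zero_of_natDegree_lt
        rw [natDegree_charT]; omega
      have h2 : (F i).coeff m = 0 := by
        apply coeff_eq_zero_of_natDegree_lt
        rw [← hchT i, natDegree_charT]; omega
      rw [h1, h2, map_zero, sub_zero, norm_zero]
      exact hε
  · have h1 := hj6 i
    have h2 := hnear2 i
    rw [hs2 i] at h2
    calc ‖φ i (yq j) - Y i‖
        = ‖(φ i (yq j) - yds 4 (2 * φ i D) (g' i) (s i) *
            (Bmat 6 (fds 4 (2 * φ i D) (g' i) (s i)) (T i)).det) +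
            (yds 4 (2 * φ i D) (g' i) (s i) *
            (Bmat 6 (fds 4 (2 * φ i D) (g' i) (s i)) (T i)).det - Y i)‖ := by
          congr 1; ring
      _ ≤ _ := norm_add_le _ _
      _ < ε / 2 + ε / 2 := add_lt_add h1 h2
      _ = ε := add_halves ε

end Pool.Agent.Lib.MP_12adaf_nt.TF
end
end
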