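import Mathlib
import Pool.Agent.Lib.MP_12adaf_nt.TF.Six
import Pool.Agent.Lib.MP_12adaf_nt.TF.OWeak

/-!
# Approximation of polynomials together with isometries
-/

namespace Pool.Agent.Lib.MP_12adaf_nt.TF

set_option linter.unusedSectionVars false
set_option linter.unusedVariables false

open Finset Polynomial Filter Topology Matrix

/-- `(P, M)`: `M` is an isometry from the trace form of `K[X]/P` (in the basis of powers of `X`)
to the form `Q`. -/
structure TPt {K : Type*} [Field K] (n : ℕ) (Q : Matrix (Fin n) (Fin n) K) (P : K[X])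
    (M : Matrix (Fin n) (Fin n) K) : Prop where
  monic : P.Monic
  deg : P.natDegree = n
  sep : P.Separable
  det : M.det ≠ 0
  eq : Mᵀ * Q * M = HH n P

/-- Continuity of `Y ↦ M Y` and of its determinant at `1`, in terms of entries. -/
private lemma near_one {K : Type*} [NormedField K] {n : ℕ} (M : Matrix (Fin n) (Fin n) K)
    {ε c : ℝ} (hε : 0 < ε) (hc : 0 < c) :
    ∃ η : ℝ, 0 < η ∧ ∀ Y : Matrix (Fin n) (Fin n) K,
      (∀ i j, ‖Y i j - (1 : Matrix (Fin n) (Fin n) K) i j‖ < η) →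
      (∀ a b, ‖(M * Y) a b - M a b‖ < ε) ∧ ‖(M * Y).det - M.det‖ < c := by
  let Z0 : Fin n → Fin n → K := fun i j => (1 : Matrix (Fin n) (Fin n) K) i j
  have hZ0 : (Matrix.of Z0 : Matrix (Fin n) (Fin n) K) = 1 := rfl
  have hc1 : Continuous fun Z : Fin n → Fin n → K => M * (Matrix.of Z : Matrix (Fin n) (Fin n) K) :=
    continuous_const.matrix_mul continuous_id
  have hc2 : Continuous fun Z : Fin n → Fin n → K =>
      (M * (Matrix.of Z : Matrix (Fin n) (Fin n) K)).det := hc1.matrix_det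
  have e1 : ∀ a b, ∀ᶠ Z in 𝓝 Z0, ‖(M * (Matrix.of Z : Matrix (Fin n) (Fin n) K)) a b - M a b‖ < ε := by
    intro a b
    have hc3 : Continuous fun Z : Fin n → Fin n → K =>
        ‖(M * (Matrix.of Z : Matrix (Fin n) (Fin n) K)) a b - M a b‖ :=
      ((hc1.matrix_elem a b).sub continuous_const).norm
    have h1 := hc3.tendsto Z0
    rw [hZ0, Matrix.mul_one, sub_self, norm_zero] at h1
    exact h1.eventually (gt_mem_nhds hε)
  have e2 : ∀ᶠ Z in 𝓝 Z0,
      ‖(M * (Matrix.of Z : Matrix (Fin n) (Fin n) K)).det - M.det‖ < c := by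
    have hc3 : Continuous fun Z : Fin n → Fin n → K =>
        ‖(M * (Matrix.of Z : Matrix (Fin n) (Fin n) K)).det - M.det‖ :=
      (hc2.sub continuous_const).norm
    have h1 := hc3.tendsto Z0
    rw [hZ0, Matrix.mul_one, sub_self, norm_zero] at h1
    exact h1.eventually (gt_mem_nhds hc)
  have e3 : ∀ᶠ Z in 𝓝 Z0, (∀ a b,
      ‖(M * (Matrix.of Z : Matrix (Fin n) (Fin n) K)) a b - M a b‖ < ε) ∧
      ‖(M * (Matrix.of Z : Matrix (Fin n) (Fin n) K)).det - M.det‖ < c :=
    (Filter.eventually_all.2 fun a => Filter.eventually_all.2 fun b => e1 a b).and e2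
  obtain ⟨η, hη, h⟩ := Metric.eventually_nhds_iff.1 e3
  refine ⟨η, hη, fun Y hY => ?_⟩
  have h1 : dist (fun i j => Y i j) Z0 < η := by
    rw [dist_pi_lt_iff hη]
    intro i
    rw [dist_pi_lt_iff hη]
    intro j
    rw [dist_eq_norm]
    exact hY i j
  exact h h1

/-- Approximation of the polynomials implies approximation of the polynomials with frames. -/
theorem frame_approx {k : Type*} [Field k] [CharZero k] {ι : Type*} [Fintype ι] [Nonempty ι]
    {K : ι → Type*} [∀ i, NormedField (K i)] [∀ i, CharZero (K i)] {φ : ∀ i, k →+* K i}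
    (hdense : DenseRange (fun (q : k) (i : ι) => φ i q)) (hop : ∀ i, OpenCong (K i)) {n : ℕ}
    (hn : n ≠ 0) {Q : Matrix (Fin n) (Fin n) k} (hQ : Q.IsSymm) (hdet : Q.det ≠ 0)
    (F : ∀ i, (K i)[X]) (M : ∀ i, Matrix (Fin n) (Fin n) (K i))
    (hF : ∀ i, TPt n (Q.map (φ i)) (F i) (M i))
    (happ : ApF φ n Q.det Q F fun i => (M i).det) {ε : ℝ} (hε : 0 < ε) :
    ∃ (P : k[X]) (N : Matrix (Fin n) (Fin n) k), TPt n Q P N ∧
      ∀ i, (∀ m, ‖φ i (P.coeff m) - (F i).coeff m‖ < ε) ∧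
        ∀ b c, ‖φ i (N b c) - M i b c‖ < ε := by
  classical
  -- the radius at each place
  have hε2 : 0 < ε / 2 := by linarith
  have hcpos : ∀ i, 0 < ‖2 * (M i).det‖ / 2 := fun i => by
    have : (2 : K i) * (M i).det ≠ 0 := mul_ne_zero two_ne_zero (hF i).det
    have := norm_pos_iff.2 this
    linarith
  choose η hη hη' using fun i => near_one (M i) hε2 (hcpos i)
  have hSdet : ∀ i, (HH n (F i)).det ≠ 0 := fun i => det_HH_ne_zero (hF i).monic (hF i).deg (hF i).sep
  choose δ hδ hδ' using fun i => hop i n (HH n (F i)) (HH_isSymm n (F i)) (hSdet i) (η i) (hη i)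
  -- a sequence of approximations
  have hpos : ∀ m : ℕ, (0 : ℝ) < 1 / ((m : ℝ) + 1) := fun m => by positivity
  choose P y hPm hPd hPdisc hy0 hPcong hPapp using fun m : ℕ => happ (1 / ((m : ℝ) + 1)) (hpos m)
  have hlim : Tendsto (fun m : ℕ => 1 / ((m : ℝ) + 1)) atTop (𝓝 0) :=
    tendsto_one_div_add_atTop_nhds_zero_nat
  have hct : ∀ i, CT atTop (fun m => (P m).map (φ i)) (F i) := by
    intro i j
    rw [tendsto_iff_norm_sub_tendsto_zero]
    refine squeeze_zero (fun m => norm_nonneg _) (fun m => ?_) hlim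
    rw [coeff_map]
    exact ((hPapp m i).1 j).le
  have hH : ∀ i a b, Tendsto (fun m => HH n ((P m).map (φ i)) a b) atTop (𝓝 (HH n (F i) a b)) :=
    fun i a b => tendsto_HH (hct i) (fun m => (hPm m).map _)
      (fun m => by rw [(hPm m).natDegree_map, hPd m]) (hF i).monic (hF i).deg a b
  have ev1 : ∀ᶠ m in atTop, ∀ i, ∀ a b,
      ‖HH n ((P m).map (φ i)) a b - HH n (F i) a b‖ < δ i := by
    rw [Filter.eventually_all]; intro i
    rw [Filter.eventually_all]; intro a
    rw [Filter.eventually_all]; intro b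
    have h1 := (tendsto_iff_norm_sub_tendsto_zero.1 (hH i a b))
    exact h1.eventually (gt_mem_nhds (hδ i))
  have ev2 : ∀ᶠ m : ℕ in atTop, 1 / ((m : ℝ) + 1) < ε := hlim.eventually (gt_mem_nhds hε)
  have ev3 : ∀ᶠ m : ℕ in atTop, ∀ i, 1 / ((m : ℝ) + 1) < ‖2 * (M i).det‖ / 2 := by
    rw [Filter.eventually_all]; intro i
    exact hlim.eventually (gt_mem_nhds (hcpos i))
  obtain ⟨m, hm1, hm2, hm3⟩ := (ev1.and (ev2.and ev3)).exists
  -- the polynomial
  have hsep : (P m).Separable := by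
    apply separable_of_discr_ne_zero (hPm m)
    rw [hPdisc m]
    exact mul_ne_zero hdet (pow_ne_zero 2 (hy0 m))
  have hHdet : (HH n (P m)).det = Q.det * y m ^ 2 := by
    rw [det_HH (hPm m) (hPd m) hsep, hPdisc m]
  -- a frame with determinant y
  obtain ⟨N, hN, hNdet⟩ : ∃ N : Matrix (Fin n) (Fin n) k, Nᵀ * Q * N = HH n (P m) ∧
      N.det = y m := by
    obtain ⟨N, N', h1, h2, h3⟩ := (hPcong m).symm
    have h4 : N.det ^ 2 = y m ^ 2 := by
      have h5 := congrArg Matrix.det h3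
      rw [Matrix.det_mul, Matrix.det_mul, Matrix.det_transpose, hHdet] at h5
      have h6 : Q.det * (N.det ^ 2) = Q.det * (y m ^ 2) := by rw [← h5]; ring
      exact mul_left_cancel₀ hdet h6
    rcases sq_eq_sq_iff_eq_or_eq_neg.1 h4 with h | h
    · exact ⟨N, h3, h⟩
    · obtain ⟨R, hR1, hR2⟩ := exists_reflection hn hQ hdet
      refine ⟨R * N, ?_, ?_⟩
      · rw [Matrix.transpose_mul, ← h3]
        calc Nᵀ * Rᵀ * Q * (R * N) = Nᵀ * (Rᵀ * Q * R) * N := by
              simp only [Matrix.mul_assoc]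
          _ = Nᵀ * Q * N := by rw [hR1]
      · rw [Matrix.det_mul, hR2, h]; ring
  -- the local frames
  choose Y hY1 hY2 using fun i => hδ' i (HH n ((P m).map (φ i))) (HH_isSymm _ _) (hm1 i)
  have hMY := fun i => hη' i (Y i) (hY1 i)
  have hNi : ∀ i, (N.map (φ i))ᵀ * Q.map (φ i) * N.map (φ i) = HH n ((P m).map (φ i)) := by
    intro i
    rw [← map_HH (φ i) (hPm m) n, ← hN, Matrix.map_mul, Matrix.map_mul, transpose_map]
  have hMi : ∀ i, (M i * Y i)ᵀ * Q.map (φ i) * (M i * Y i) = HH n ((P m).map (φ i)) := by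
    intro i
    rw [← hY2 i, ← (hF i).eq, Matrix.transpose_mul]
    simp only [Matrix.mul_assoc]
  have hQi : ∀ i, (Q.map (φ i)).det ≠ 0 := by
    intro i
    have : (Q.map (φ i)).det = φ i Q.det := by rw [RingHom.map_det]; rfl
    rw [this]
    exact (map_ne_zero (φ i)).2 hdet
  have hNdi : ∀ i, (N.map (φ i)).det = φ i (y m) := by
    intro i
    have : (N.map (φ i)).det = φ i N.det := by rw [RingHom.map_det]; rfl
    rw [this, hNdet]
  have hdets : ∀ i, (M i * Y i).det = φ i (y m) := by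
    intro i
    have h1 : (M i * Y i).det ^ 2 = (φ i (y m)) ^ 2 := by
      have h5 := congrArg Matrix.det ((hMi i).trans (hNi i).symm)
      rw [Matrix.det_mul, Matrix.det_mul, Matrix.det_transpose, Matrix.det_mul (_ * _),
        Matrix.det_mul (_)ᵀ, Matrix.det_transpose, hNdi i] at h5
      have h6 : (Q.map (φ i)).det * ((M i * Y i).det ^ 2) =
          (Q.map (φ i)).det * ((φ i (y m)) ^ 2) := by
        linear_combination h5
      exact mul_left_cancel₀ (hQi i) h6
    rcases sq_eq_sq_iff_eq_or_eq_neg.1 h1 with h | h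
    · exact h
    · exfalso
      have h2 := (hMY i).2
      have h3 : ‖φ i (y m) - (M i).det‖ < ‖2 * (M i).det‖ / 2 := (hPapp m i).2.trans (hm3 i)
      have h4 : 2 * (M i).det = -((M i * Y i).det - (M i).det) - (φ i (y m) - (M i).det) := by
        rw [h]; ring
      have h5 : ‖2 * (M i).det‖ ≤ ‖(M i * Y i).det - (M i).det‖ + ‖φ i (y m) - (M i).det‖ := by
        calc ‖2 * (M i).det‖ = ‖-((M i * Y i).det - (M i).det) - (φ i (y m) - (M i).det)‖ := by
              rw [← h4]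
          _ ≤ ‖-((M i * Y i).det - (M i).det)‖ + ‖φ i (y m) - (M i).det‖ := norm_sub_le _ _
          _ = _ := by rw [norm_neg]
      linarith
  -- the rotations
  have hNunit : ∀ i, IsUnit (N.map (φ i)).det := by
    intro i
    rw [hNdi i]
    exact ((map_ne_zero (φ i)).2 (hy0 m)).isUnit
  let R : ∀ i, Matrix (Fin n) (Fin n) (K i) := fun i => (M i * Y i) * (N.map (φ i))⁻¹
  have hRN : ∀ i, R i * N.map (φ i) = M i * Y i := fun i => by
    show (M i * Y i) * (N.map (φ i))⁻¹ * N.map (φ i) = M i * Y i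
    rw [Matrix.mul_assoc, Matrix.nonsing_inv_mul _ (hNunit i), Matrix.mul_one]
  have hR : ∀ i, (R i)ᵀ * Q.map (φ i) * R i = Q.map (φ i) := by
    intro i
    have h1 : (R i)ᵀ * Q.map (φ i) * R i =
        ((N.map (φ i))⁻¹)ᵀ * ((M i * Y i)ᵀ * Q.map (φ i) * (M i * Y i)) * (N.map (φ i))⁻¹ := by
      show ((M i * Y i) * (N.map (φ i))⁻¹)ᵀ * Q.map (φ i) * ((M i * Y i) * (N.map (φ i))⁻¹) = _
      rw [Matrix.transpose_mul (M i * Y i) (N.map (φ i))⁻¹]
      simp only [Matrix.mul_assoc]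
    rw [h1, hMi i, ← hNi i]
    have h2 : ((N.map (φ i))⁻¹)ᵀ * (N.map (φ i))ᵀ = 1 := by
      rw [← Matrix.transpose_mul, Matrix.mul_nonsing_inv _ (hNunit i), Matrix.transpose_one]
    calc ((N.map (φ i))⁻¹)ᵀ * ((N.map (φ i))ᵀ * Q.map (φ i) * N.map (φ i)) * (N.map (φ i))⁻¹
        = (((N.map (φ i))⁻¹)ᵀ * (N.map (φ i))ᵀ) * Q.map (φ i) *
          (N.map (φ i) * (N.map (φ i))⁻¹) := by simp only [Matrix.mul_assoc]
      _ = Q.map (φ i) := by
          rw [h2, Matrix.mul_nonsing_inv _ (hNunit i), Matrix.one_mul, Matrix.mul_one]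
  have hR1 : ∀ i, (R i).det = 1 := by
    intro i
    have h1 := congrArg Matrix.det (hRN i)
    rw [Matrix.det_mul, hNdi i, hdets i] at h1
    have h2 : φ i (y m) ≠ 0 := (map_ne_zero (φ i)).2 (hy0 m)
    exact mul_right_cancel₀ h2 (by rw [h1, one_mul])
  obtain ⟨Rs, hRs1, hRs2⟩ := orth_approx hdense hQ hdet R hR hR1
  -- the final frame
  have hlimN : ∀ i a b, Tendsto (fun j => φ i ((Rs j * N) a b)) atTop (𝓝 ((M i * Y i) a b)) := by
    intro i a b
    rw [← hRN i, Matrix.mul_apply]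
    simp only [Matrix.mul_apply, map_sum, map_mul, Matrix.map_apply]
    exact tendsto_finsetSum _ fun c _ => (hRs2 i a c).mul_const _
  have ev4 : ∀ᶠ j in atTop, ∀ i a b, ‖φ i ((Rs j * N) a b) - (M i * Y i) a b‖ < ε / 2 := by
    rw [Filter.eventually_all]; intro i
    rw [Filter.eventually_all]; intro a
    rw [Filter.eventually_all]; intro b
    exact (tendsto_iff_norm_sub_tendsto_zero.1 (hlimN i a b)).eventually (gt_mem_nhds hε2)
  obtain ⟨j, hj⟩ := ev4.exists
  have hfin : (Rs j * N)ᵀ * Q * (Rs j * N) = HH n (P m) := by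
    rw [Matrix.transpose_mul, ← hN]
    calc Nᵀ * (Rs j)ᵀ * Q * (Rs j * N) = Nᵀ * ((Rs j)ᵀ * Q * Rs j) * N := by
          simp only [Matrix.mul_assoc]
      _ = Nᵀ * Q * N := by rw [hRs1 j]
  refine ⟨P m, Rs j * N, ⟨hPm m, hPd m, hsep, ?_, hfin⟩, fun i => ⟨fun l => ?_, fun b c => ?_⟩⟩
  · intro h0
    have h1 := congrArg Matrix.det hfin
    rw [Matrix.det_mul, h0, mul_zero, hHdet] at h1
    exact mul_ne_zero hdet (pow_ne_zero 2 (hy0 m)) h1.symm
  · exact ((hPapp m i).1 l).trans hm2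
  · have h1 := hj i b c
    have h2 := (hMY i).1 b c
    calc ‖φ i ((Rs j * N) b c) - M i b c‖
        = ‖(φ i ((Rs j * N) b c) - (M i * Y i) b c) + ((M i * Y i) b c - M i b c)‖ := by
          congr 1; ring
      _ ≤ ‖φ i ((Rs j * N) b c) - (M i * Y i) b c‖ + ‖(M i * Y i) b c - M i b c‖ := norm_add_le _ _
      _ < ε := by linarith

end Pool.Agent.Lib.MP_12adaf_nt.TF
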