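import Mathlib
import Pool.Agent.Lib.MP_12adaf_nt.TF.Std
import Pool.Agent.Lib.MP_12adaf_nt.HM.Q10
import Pool.Agent.Lib.MP_12adaf_nt.HM.T8
import Pool.Agent.Lib.MP_12adaf_nt.TF.Six
import Pool.Agent.Lib.MP_12adaf_nt.TF.Frame

section

/-!
# Factorisation over an extension of odd degree
-/

namespace Pool.Agent.Lib.MP_12adaf_nt.TF

set_option linter.unusedSectionVars false
set_option linter.unusedVariables false

open Finset Polynomial

/-- all monic irreducible factors have degree `1`, `2` or `4` -/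
private def OEGood {F : Type*} [Field F] (g : F[X]) : Prop :=
  ∀ h : F[X], h.Monic → Irreducible h → h ∣ g →
    h.natDegree = 1 ∨ h.natDegree = 2 ∨ h.natDegree = 4

private lemma OEGood.dvd {F : Type*} [Field F] {g g' : F[X]} (hg : OEGood g) (h : g' ∣ g) :
    OEGood g' := fun q h1 h2 h3 => hg q h1 h2 (h3.trans h)

private lemma oe_take {F : Type*} [Field F] {g : F[X]} (hg : g.Monic) (hgood : OEGood g)
    (hdeg : g.natDegree ≠ 0) : ∃ h c : F[X], h.Monic ∧ c.Monic ∧ g = h * c ∧
      g.natDegree = h.natDegree + c.natDegree ∧ OEGood c ∧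
      (h.natDegree = 1 ∨ h.natDegree = 2 ∨ h.natDegree = 4) := by
  have hu : ¬ IsUnit g := by
    intro h
    exact hdeg (natDegree_eq_zero_of_isUnit h)
  obtain ⟨h, h1, h2, c, hc⟩ := exists_monic_irreducible_factor g hu
  have hcm : c.Monic := h1.of_mul_monic_left (by rw [← hc]; exact hg)
  refine ⟨h, c, h1, hcm, hc, ?_, hgood.dvd ⟨h, by rw [hc, mul_comm]⟩, hgood h h1 h2 ⟨c, hc⟩⟩
  rw [hc, h1.natDegree_mul hcm]

private lemma oe_lin {F : Type*} [Field F] (n : ℕ) : Odd n → ∀ g : F[X], g.Monic →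
    g.natDegree = n → OEGood g → ∃ r c : F[X], r.Monic ∧ c.Monic ∧ r.natDegree = 1 ∧
      g = r * c ∧ g.natDegree = 1 + c.natDegree ∧ OEGood c := by
  induction n using Nat.strong_induction_on with
  | _ n ih =>
    intro hn g hg hgn hgood
    obtain ⟨h, c, h1, h2, h3, h4, h5, h6⟩ := oe_take hg hgood (by
      rw [hgn]; rintro rfl; exact absurd hn (by decide))
    by_cases hd : h.natDegree = 1
    · exact ⟨h, c, h1, h2, hd, h3, by rw [h4, hd], h5⟩
    · have hev : Even h.natDegree := by
        rcases h6 with h6 | h6 | h6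
        · exact absurd h6 hd
        · rw [h6]; decide
        · rw [h6]; decide
      have hpos : 0 < h.natDegree := by omega
      have hodd : Odd c.natDegree := by
        rw [hgn] at h4
        rw [h4] at hn
        rcases Nat.even_or_odd c.natDegree with h7 | h7
        · exact absurd (hev.add h7) (Nat.not_even_iff_odd.2 hn)
        · exact h7
      obtain ⟨r, c', k1, k2, k3, k4, k5, k6⟩ := ih c.natDegree (by omega) hodd c h2 rfl h5
      refine ⟨r, h * c', k1, h1.mul k2, k3, ?_, ?_, ?_⟩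
      · rw [h3, k4]; ring
      · rw [h4, k5, h1.natDegree_mul k2]; ring
      · exact hgood.dvd ⟨r, by rw [h3, k4]; ring⟩

private lemma oe_six {F : Type*} [Field F] {g : F[X]} (hg : g.Monic) (hdeg : g.natDegree = 6)
    (hgood : OEGood g) : ∃ p q : F[X], p.Monic ∧ q.Monic ∧ p.natDegree = 4 ∧ q.natDegree = 2 ∧
      g = p * q := by
  obtain ⟨h, c, h1, h2, h3, h4, h5, h6⟩ := oe_take hg hgood (by omega)
  rcases h6 with h6 | h6 | h6
  · obtain ⟨h', c', k1, k2, k3, k4, k5, k6⟩ := oe_take h2 h5 (by omega)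
    rcases k6 with k6 | k6 | k6
    · refine ⟨c', h * h', k2, h1.mul k1, by omega, ?_, ?_⟩
      · rw [h1.natDegree_mul k1]; omega
      · rw [h3, k3]; ring
    · refine ⟨h * c', h', h1.mul k2, k1, ?_, k6, ?_⟩
      · rw [h1.natDegree_mul k2]; omega
      · rw [h3, k3]; ring
    · refine ⟨h', h * c', k1, h1.mul k2, k6, ?_, ?_⟩
      · rw [h1.natDegree_mul k2]; omega
      · rw [h3, k3]; ring
  · exact ⟨c, h, h2, h1, by omega, h6, by rw [h3]; ring⟩
  · exact ⟨h, c, h1, h2, h6, by omega, h3⟩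

private lemma oe_split {F : Type*} [Field F] {g : F[X]} (hg : g.Monic) {e : ℕ} (he : e ≤ 1)
    (hdeg : g.natDegree = 6 + e) (hgood : OEGood g) :
    ∃ p q r : F[X], p.Monic ∧ q.Monic ∧ r.Monic ∧ p.natDegree = 4 ∧ q.natDegree = 2 ∧
      r.natDegree = e ∧ g = p * q * r := by
  interval_cases e
  · obtain ⟨p, q, h1, h2, h3, h4, h5⟩ := oe_six hg hdeg hgood
    exact ⟨p, q, 1, h1, h2, monic_one, h3, h4, natDegree_one, by rw [h5, mul_one]⟩
  · obtain ⟨r, c, h1, h2, h3, h4, h5, h6⟩ := oe_lin 7 (by decide) g hg hdeg hgood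
    obtain ⟨p, q, k1, k2, k3, k4, k5⟩ := oe_six h2 (by omega) h6
    exact ⟨p, q, r, k1, k2, h1, k3, k4, h3, by rw [h4, k5]; ring⟩

/-- An intermediate field of odd degree, over which the degrees of the irreducible factors are
powers of two. -/
private lemma oe_field {k E : Type*} [Field k] [Field E] [Algebra k E] [FiniteDimensional k E]
    [IsGalois k E] : ∃ L : IntermediateField k E, Odd (Module.finrank k L) ∧
      ∃ m : ℕ, Module.finrank L E = 2 ^ m := by
  classical
  have hfact : Fact (Nat.Prime 2) := ⟨Nat.prime_two⟩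
  obtain ⟨P⟩ : Nonempty (Sylow 2 (E ≃ₐ[k] E)) := inferInstance
  refine ⟨IntermediateField.fixedField (P : Subgroup (E ≃ₐ[k] E)), ?_, ?_⟩
  · have h1 : Module.finrank (IntermediateField.fixedField (P : Subgroup (E ≃ₐ[k] E))) E =
        Nat.card (P : Subgroup (E ≃ₐ[k] E)) := IntermediateField.finrank_fixedField_eq_card _
    have h2 := Module.finrank_mul_finrank k
      (IntermediateField.fixedField (P : Subgroup (E ≃ₐ[k] E))) E
    have h3 := IsGalois.card_aut_eq_finrank k E
    have h4 := (P : Subgroup (E ≃ₐ[k] E)).card_mul_index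
    rw [h1, ← h3, ← h4, mul_comm] at h2
    have h5 : 0 < Nat.card (P : Subgroup (E ≃ₐ[k] E)) := Nat.card_pos
    have h6 := Nat.eq_of_mul_eq_mul_left h5 h2
    rw [h6, ← Nat.not_even_iff_odd, even_iff_two_dvd]
    exact P.not_dvd_index
  · obtain ⟨m, hm⟩ := IsPGroup.iff_card.1 P.isPGroup'
    exact ⟨m, by rw [IntermediateField.finrank_fixedField_eq_card]; exact hm⟩

private lemma oe_good {L E : Type*} [Field L] [Field E] [Algebra L E] [FiniteDimensional L E]
    {m : ℕ} (hm : Module.finrank L E = 2 ^ m) {g : L[X]} (hdeg : g.natDegree ≤ 7) (hg0 : g ≠ 0)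
    (hs : (g.map (algebraMap L E)).Splits) : OEGood g := by
  intro h h1 h2 h3
  have hs' : (h.map (algebraMap L E)).Splits := by
    refine hs.of_dvd ?_ (Polynomial.map_dvd _ h3)
    exact (Polynomial.map_ne_zero_iff (algebraMap L E).injective).2 hg0
  have hdh : (h.map (algebraMap L E)).degree ≠ 0 := by
    rw [degree_map]
    exact (degree_pos_of_irreducible h2).ne'
  obtain ⟨x, hx⟩ := hs'.exists_eval_eq_zero hdh
  have hx' : aeval x h = 0 := by
    rw [aeval_def, ← eval_map]; exact hx
  have h4 : minpoly L x = h := by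
    exact (minpoly.eq_of_irreducible_of_monic h2 hx' h1).symm
  have h5 : h.natDegree = Module.finrank L (IntermediateField.adjoin L {x}) := by
    rw [IntermediateField.adjoin.finrank (IsIntegral.of_finite L x), h4]
  have h6 : h.natDegree ∣ 2 ^ m := by
    rw [h5, ← hm]
    exact ⟨_, (Module.finrank_mul_finrank L (IntermediateField.adjoin L {x}) E).symm⟩
  have h7 : h.natDegree ≤ 7 := (natDegree_le_of_dvd h3 hg0).trans hdeg
  obtain ⟨j, hj, hj2⟩ := (Nat.dvd_prime_pow Nat.prime_two).1 h6
  rw [hj2] at h7 ⊢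
  have hj3 : j ≤ 2 := by
    by_contra hcon
    push Not at hcon
    have : 2 ^ 3 ≤ 2 ^ j := Nat.pow_le_pow_right (by norm_num) hcon
    omega
  interval_cases j <;> simp

/-- A separable polynomial of degree `6` or `7` has, over some extension of odd degree, a monic
factorisation into factors of the degrees `4`, `2` and `0` or `1`. -/
theorem exists_odd_ext {k : Type*} [Field k] [CharZero k] {f : k[X]} (hf : f.Monic)
    (hsep : f.Separable) {e : ℕ} (he : e ≤ 1) (hn : f.natDegree = 6 + e) :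
    ∃ (L : IntermediateField k (AlgebraicClosure k)) (p q r : L[X]), FiniteDimensional k L ∧
      Odd (Module.finrank k L) ∧ p.Monic ∧ q.Monic ∧ r.Monic ∧ p.natDegree = 4 ∧
      q.natDegree = 2 ∧ r.natDegree = e ∧ f.map (algebraMap k L) = p * q * r := by
  classical
  let E : Type _ := f.SplittingField
  have hgal : IsGalois k E := IsGalois.of_separable_splitting_field hsep
  have hfin : FiniteDimensional k E := inferInstance
  obtain ⟨L0, hodd, m, hm⟩ := oe_field (k := k) (E := E)
  have hs : (f.map (algebraMap k E)).Splits := SplittingField.splits f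
  have hgood : OEGood (f.map (algebraMap k L0)) := by
    apply oe_good hm
    · rw [natDegree_map, hn]; omega
    · exact (Polynomial.map_ne_zero_iff (algebraMap k L0).injective).2 hf.ne_zero
    · rw [Polynomial.map_map, ← IsScalarTower.algebraMap_eq]
      exact hs
  obtain ⟨p, q, r, h1, h2, h3, h4, h5, h6, h7⟩ := oe_split (hf.map (algebraMap k L0)) he
    (by rw [natDegree_map, hn]) hgood
  -- transfer
  let φ : L0 →ₐ[k] AlgebraicClosure k := IsAlgClosed.lift
  let ψ : L0 ≃ₐ[k] φ.fieldRange := AlgEquiv.ofInjectiveField φ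
  refine ⟨φ.fieldRange, p.map (ψ : L0 →+* φ.fieldRange), q.map (ψ : L0 →+* φ.fieldRange),
    r.map (ψ : L0 →+* φ.fieldRange), ?_, ?_, h1.map _, h2.map _, h3.map _, ?_, ?_, ?_, ?_⟩
  · exact ψ.toLinearEquiv.finiteDimensional
  · rw [← ψ.toLinearEquiv.finrank_eq]; exact hodd
  · rw [natDegree_map, h4]
  · rw [natDegree_map, h5]
  · rw [natDegree_map, h6]
  · rw [← Polynomial.map_mul, ← Polynomial.map_mul, ← h7, Polynomial.map_map]
    congr 1
    exact (ψ.toAlgHom.comp_algebraMap).symm

end Pool.Agent.Lib.MP_12adaf_nt.TF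
end

section

/-!
# Springer's theorem on extensions of odd degree (diagonal forms)
-/

namespace Pool.Agent.Lib.MP_12adaf_nt.TF

set_option linter.unusedSectionVars false
set_option linter.unusedVariables false

open Finset Polynomial

private lemma spr_odd_factor {K : Type*} [Field K] (N : ℕ) : ∀ h : K[X], h ≠ 0 → h.natDegree ≤ N →
    Odd h.natDegree → ∃ g : K[X], Irreducible g ∧ g ∣ h ∧ Odd g.natDegree := by
  induction N with
  | zero =>
    intro h _ hN hodd
    exfalso
    have : h.natDegree = 0 := Nat.le_zero.1 hN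
    rw [this] at hodd
    exact absurd hodd (by decide)
  | succ N ih =>
    intro h h0 hN hodd
    have hnu : ¬ IsUnit h := by
      intro hu
      rw [natDegree_eq_zero_of_isUnit hu] at hodd
      exact absurd hodd (by decide)
    obtain ⟨g, hg, k, rfl⟩ := WfDvdMonoid.exists_irreducible_factor hnu h0
    have hg0 : g ≠ 0 := hg.ne_zero
    have hk0 : k ≠ 0 := right_ne_zero_of_mul h0
    rw [natDegree_mul hg0 hk0] at hN hodd
    by_cases hgo : Odd g.natDegree
    · exact ⟨g, hg, dvd_mul_right _ _, hgo⟩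
    · have hk : Odd k.natDegree := by
        rw [Nat.odd_add] at hodd
        rw [Nat.not_odd_iff_even] at hgo
        by_contra hc
        rw [Nat.not_odd_iff_even] at hc
        exact absurd (hodd.2 hc) (Nat.not_odd_iff_even.2 hgo)
      have hgpos : 0 < g.natDegree := hg.natDegree_pos
      obtain ⟨g', h1, h2, h3⟩ := ih k hk0 (by omega) hk
      exact ⟨g', h1, h2.trans (dvd_mul_left _ _), h3⟩

/-- Springer's theorem, in terms of polynomials. -/
theorem springer_poly {K : Type*} [Field K] {ι : Type*} [Fintype ι] (a : ι → K) {m : K[X]}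
    (hm : Irreducible m) (hodd : Odd m.natDegree) (p : ι → K[X]) (hp : ¬ ∀ l, m ∣ p l)
    (h : m ∣ ∑ l, C (a l) * p l ^ 2) : ∃ x : ι → K, x ≠ 0 ∧ ∑ l, a l * x l ^ 2 = 0 := by
  classical
  induction hn : m.natDegree using Nat.strong_induction_on generalizing m p with
  | _ n ih =>
  have hmpos : 0 < m.natDegree := hm.natDegree_pos
  have hm0 : m ≠ 0 := hm.ne_zero
  have hmp : Prime m := hm.prime
  let P : ℕ → Prop := fun e => ∃ q : ι → K[X], (∀ l, (q l).natDegree ≤ e) ∧ (¬ ∀ l, m ∣ q l) ∧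
    m ∣ ∑ l, C (a l) * q l ^ 2
  have hP : P (n - 1) := by
    refine ⟨fun l => p l % m, fun l => ?_, ?_, ?_⟩
    · have h1 := natDegree_mod_lt (p l) (q := m) (by omega)
      change (p l % m).natDegree ≤ n - 1
      omega
    · intro hall
      apply hp
      intro l
      exact (EuclideanDomain.dvd_mod_iff dvd_rfl).1 (hall l)
    · have h1 : ∀ l, m ∣ p l - p l % m := by
        intro l
        refine ⟨p l / m, ?_⟩
        have := EuclideanDomain.div_add_mod (p l) m
        linear_combination -this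
      have h2 : m ∣ ∑ l, (C (a l) * p l ^ 2 - C (a l) * (p l % m) ^ 2) := by
        apply Finset.dvd_sum
        intro l _
        have e : C (a l) * p l ^ 2 - C (a l) * (p l % m) ^ 2 =
            (p l - p l % m) * (C (a l) * (p l + p l % m)) := by ring
        rw [e]
        exact (h1 l).mul_right _
      rw [Finset.sum_sub_distrib] at h2
      exact (dvd_sub_right h).1 h2
  have hex : ∃ e, P e := ⟨_, hP⟩
  obtain ⟨q, hq1, hq2, hq3⟩ := Nat.find_spec hex
  set e := Nat.find hex with he
  have hen : e ≤ n - 1 := Nat.find_min' hex hP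
  set x : ι → K := fun l => (q l).coeff e with hx
  have hx0 : x ≠ 0 := by
    intro hx0
    have hc : ∀ l, (q l).coeff e = 0 := fun l => congrFun hx0 l
    rcases Nat.eq_zero_or_pos e with h0 | hpos
    · apply hq2
      intro l
      have h1 : (q l).natDegree = 0 := by
        have := hq1 l
        omega
      have h2 := hc l
      rw [h0] at h2
      have h3 : q l = 0 := by
        rw [eq_C_of_natDegree_eq_zero h1, h2, C_0]
      rw [h3]
      exact dvd_zero m
    · have h1 : P (e - 1) := by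
        refine ⟨q, fun l => ?_, hq2, hq3⟩
        rcases (hq1 l).lt_or_eq with h2 | h2
        · omega
        · exfalso
          have h3 := hc l
          rw [← h2, coeff_natDegree, leadingCoeff_eq_zero] at h3
          rw [h3, natDegree_zero] at h2
          omega
      have := Nat.find_min' hex h1
      omega
  by_cases hiso : ∑ l, a l * x l ^ 2 = 0
  · exact ⟨x, hx0, hiso⟩
  set S := ∑ l, C (a l) * q l ^ 2 with hS
  have hScoeff : S.coeff (2 * e) = ∑ l, a l * x l ^ 2 := by
    rw [hS, finsetSum_coeff]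
    refine Finset.sum_congr rfl fun l _ => ?_
    rw [coeff_C_mul]
    congr 1
    exact coeff_pow_of_natDegree_le (hq1 l)
  have hSdeg : S.natDegree = 2 * e := by
    apply le_antisymm
    · rw [hS]
      apply natDegree_sum_le_of_forall_le
      intro l _
      refine (natDegree_C_mul_le _ _).trans ?_
      exact natDegree_pow_le_of_le 2 (hq1 l)
    · apply le_natDegree_of_ne_zero
      rw [hScoeff]
      exact hiso
  have hS0 : S ≠ 0 := by
    intro h0
    rw [h0, coeff_zero] at hScoeff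
    exact hiso hScoeff.symm
  obtain ⟨k, hk⟩ := hq3
  have hk0 : k ≠ 0 := by
    rintro rfl
    rw [mul_zero] at hk
    exact hS0 hk
  have hkdeg : m.natDegree + k.natDegree = 2 * e := by
    rw [← hSdeg, hk, natDegree_mul hm0 hk0]
  have hkodd : Odd k.natDegree := by
    obtain ⟨r, hr⟩ := hodd
    refine ⟨e - r - 1, ?_⟩
    omega
  obtain ⟨m', hm'1, hm'2, hm'3⟩ := spr_odd_factor k.natDegree k hk0 le_rfl hkodd
  have hm'deg : m'.natDegree ≤ k.natDegree := natDegree_le_of_dvd hm'2 hk0
  have hm'pos : 0 < m'.natDegree := hm'1.natDegree_pos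
  have hlt : m'.natDegree < n := by omega
  refine ih m'.natDegree hlt hm'1 hm'3 q ?_ ?_ rfl
  · intro hall
    choose r hr using hall
    have hmm' : ¬ m ∣ m' := by
      intro hd
      have := natDegree_le_of_dvd hd hm'1.ne_zero
      omega
    have h1 : P (e - m'.natDegree) := by
      refine ⟨r, fun l => ?_, ?_, ?_⟩
      · by_cases hr0 : r l = 0
        · rw [hr0, natDegree_zero]; exact Nat.zero_le _
        · have h2 := hq1 l
          rw [hr l, natDegree_mul hm'1.ne_zero hr0] at h2
          omega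
      · intro hall
        apply hq2
        intro l
        rw [hr l]
        exact (hall l).mul_left _
      · have h2 : m ∣ m' ^ 2 * ∑ l, C (a l) * r l ^ 2 := by
          have e1 : m' ^ 2 * ∑ l, C (a l) * r l ^ 2 = S := by
            rw [hS, Finset.mul_sum]
            refine Finset.sum_congr rfl fun l _ => ?_
            rw [hr l]
            ring
          rw [e1]
          exact ⟨k, hk⟩
        rcases hmp.dvd_or_dvd h2 with h3 | h3
        · exact absurd (hmp.dvd_of_dvd_pow h3) hmm'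
        · exact h3
    have h2 := Nat.find_min' hex h1
    omega
  · exact (hm'2.trans (Dvd.intro_left m hk.symm))

/-- Springer's theorem: a diagonal form which is isotropic over an extension of odd degree is
isotropic. -/
theorem springer {K L : Type*} [Field K] [CharZero K] [Field L] [Algebra K L]
    [FiniteDimensional K L] (hodd : Odd (Module.finrank K L)) {ι : Type*} [Fintype ι]
    (a : ι → K) {x : ι → L} (hx : x ≠ 0) (h : ∑ l, algebraMap K L (a l) * x l ^ 2 = 0) :
    ∃ y : ι → K, y ≠ 0 ∧ ∑ l, a l * y l ^ 2 = 0 := by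
  obtain ⟨θ, hθ⟩ := Field.exists_primitive_element K L
  have hint : IsIntegral K θ := Algebra.IsIntegral.isIntegral θ
  have hdeg : (minpoly K θ).natDegree = Module.finrank K L :=
    (Field.primitive_element_iff_minpoly_natDegree_eq K θ).1 hθ
  have hsurj : ∀ z : L, ∃ p : K[X], aeval θ p = z := by
    intro z
    have h1 : z ∈ (IntermediateField.adjoin K {θ}).toSubalgebra := by
      rw [hθ]; trivial
    rw [IntermediateField.adjoin_simple_toSubalgebra_of_isAlgebraic hint.isAlgebraic,
      Algebra.adjoin_singleton_eq_range_aeval] at h1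
    exact h1
  choose p hp using fun l => hsurj (x l)
  refine springer_poly a (minpoly.irreducible hint) (by rw [hdeg]; exact hodd) p ?_ ?_
  · intro hall
    apply hx
    funext l
    rw [← hp l]
    exact (minpoly.dvd_iff (A := K)).1 (hall l)
  · rw [minpoly.dvd_iff, map_sum, ← h]
    refine Finset.sum_congr rfl fun l _ => ?_
    rw [map_mul, map_pow, aeval_C, hp l]

/-- A nondegenerate diagonal form which represents `c` over an extension of odd degree
represents `c`. -/
theorem springer_rep {K L : Type*} [Field K] [CharZero K] [Field L] [Algebra K L]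
    [FiniteDimensional K L] (hodd : Odd (Module.finrank K L)) {ι : Type*} [Fintype ι]
    {a : ι → K} (ha : ∀ l, a l ≠ 0) {c : K} (hc : c ≠ 0) {x : ι → L}
    (h : ∑ l, algebraMap K L (a l) * x l ^ 2 = algebraMap K L c) :
    ∃ y : ι → K, ∑ l, a l * y l ^ 2 = c := by
  classical
  let a' : Option ι → K := fun o => o.elim (-c) a
  let x' : Option ι → L := fun o => o.elim 1 x
  have hx' : x' ≠ 0 := by
    intro h0
    have := congrFun h0 none
    exact one_ne_zero this
  obtain ⟨y, hy0, hy⟩ := springer hodd a' hx' (by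
    rw [Fintype.sum_option]
    simp only [a', x', Option.elim_none, Option.elim_some]
    rw [h, map_neg]
    ring)
  rw [Fintype.sum_option] at hy
  simp only [a', Option.elim_none, Option.elim_some] at hy
  set t := y none with ht
  set z : ι → K := fun l => y (some l) with hz
  have hy' : ∑ l, a l * z l ^ 2 = c * t ^ 2 := by
    have : ∑ l, a l * z l ^ 2 = ∑ l, a l * y (some l) ^ 2 := rfl
    rw [this]
    linear_combination hy
  by_cases ht0 : t = 0
  · have hz0 : ∃ j, z j ≠ 0 := by
      by_contra hcon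
      push Not at hcon
      apply hy0
      funext o
      cases o with
      | none => exact ht0
      | some l => exact hcon l
    obtain ⟨j, hj⟩ := hz0
    rw [ht0] at hy'
    have hden : 2 * a j * z j ≠ 0 := mul_ne_zero (mul_ne_zero two_ne_zero (ha j)) hj
    set s := (c - a j) / (2 * a j * z j) with hs
    refine ⟨fun l => (if l = j then 1 else 0) + s * z l, ?_⟩
    have h1 : ∀ l, a l * ((if l = j then (1 : K) else 0) + s * z l) ^ 2 =
        (if l = j then a l * (1 + 2 * s * z l) else 0) + s ^ 2 * (a l * z l ^ 2) := by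
      intro l
      split_ifs <;> ring
    simp only [h1]
    rw [Finset.sum_add_distrib, Finset.sum_ite_eq' Finset.univ j, if_pos (Finset.mem_univ j),
      ← Finset.mul_sum, hy']
    have h2 : s * (2 * a j * z j) = c - a j := by
      rw [hs, div_mul_cancel₀ _ hden]
    linear_combination h2
  · refine ⟨fun l => z l / t, ?_⟩
    have h1 : ∀ l, a l * (z l / t) ^ 2 = (a l * z l ^ 2) * (t⁻¹) ^ 2 := by
      intro l
      rw [div_eq_mul_inv]
      ring
    simp only [h1]
    rw [← Finset.sum_mul, hy']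
    field_simp

end Pool.Agent.Lib.MP_12adaf_nt.TF
end

section

/-!
# Representations of 1 over a quadratic extension, and extensions of odd degree
-/

namespace Pool.Agent.Lib.MP_12adaf_nt.TF

set_option linter.unusedSectionVars false
set_option linter.unusedVariables false

open Finset Polynomial Filter Topology Matrix

private theorem oso_odd_factor {K : Type*} [Field K] : ∀ (n : ℕ) (p : K[X]), p.natDegree = n →
    Odd n → ∃ q : K[X], Irreducible q ∧ Odd q.natDegree ∧ q ∣ p := by
  intro n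
  induction n using Nat.strong_induction_on with
  | _ n ih =>
    intro p hp hn
    have hn0 : n ≠ 0 := by rintro rfl; simp at hn
    have hp0 : p ≠ 0 := by
      rintro rfl
      exact hn0 (by rw [← hp, natDegree_zero])
    have hpu : ¬ IsUnit p := by
      intro h
      exact hn0 (by rw [← hp, natDegree_eq_zero_of_isUnit h])
    obtain ⟨q, hq, hqp⟩ := WfDvdMonoid.exists_irreducible_factor hpu hp0
    by_cases ho : Odd q.natDegree
    · exact ⟨q, hq, ho, hqp⟩
    · obtain ⟨r, rfl⟩ := hqp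
      have hr0 : r ≠ 0 := right_ne_zero_of_mul hp0
      have hdeg := natDegree_mul hq.ne_zero hr0
      have h2 : 0 < q.natDegree := hq.natDegree_pos
      rw [Nat.not_odd_iff_even] at ho
      have h1 : Odd r.natDegree := by
        rw [hp] at hdeg
        rw [hdeg] at hn
        exact (Nat.odd_add.1 hn).not.1 (by rwa [Nat.not_odd_iff_even]) |> Nat.not_even_iff_odd.1
      obtain ⟨s, hs1, hs2, hs3⟩ := ih r.natDegree (by omega) r rfl h1
      exact ⟨s, hs1, hs2, hs3.mul_left q⟩

private theorem oso_rep {E : Type*} [Field E] [CharZero E] {a : Fin 4 → E} (ha : ∀ l, a l ≠ 0)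
    {x : Fin 4 → E} {t : E} (hxt : ¬ (x = 0 ∧ t = 0)) (h : ∑ l, a l * x l ^ 2 = t ^ 2) :
    ∃ z : Fin 4 → E, ∑ l, a l * z l ^ 2 = 1 := by
  by_cases ht : t = 0
  · have hx : x ≠ 0 := fun h => hxt ⟨h, ht⟩
    obtain ⟨j, hj⟩ : ∃ j, x j ≠ 0 := by
      by_contra hcon
      push Not at hcon
      exact hx (funext hcon)
    rw [ht, zero_pow two_ne_zero] at h
    set s : E := (1 - a j) / (2 * a j * x j) with hs
    refine ⟨fun l => s * x l + (if l = j then 1 else 0), ?_⟩
    have h1 : ∀ l, a l * (s * x l + (if l = j then 1 else 0)) ^ 2 =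
        s ^ 2 * (a l * x l ^ 2) + (if l = j then 2 * s * a j * x j + a j else 0) := by
      intro l
      by_cases hl : l = j
      · subst hl
        simp only [if_true]
        ring
      · simp only [if_neg hl]
        ring
    rw [Finset.sum_congr rfl fun l _ => h1 l, Finset.sum_add_distrib, ← Finset.mul_sum, h,
      Finset.sum_ite_eq' Finset.univ j]
    simp only [Finset.mem_univ, if_true, mul_zero, zero_add]
    rw [hs]
    have := ha j
    field_simp
    ring
  · refine ⟨fun l => x l / t, ?_⟩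
    have h1 : ∀ l, a l * (x l / t) ^ 2 = (t ^ 2)⁻¹ * (a l * x l ^ 2) := by
      intro l
      field_simp
    rw [Finset.sum_congr rfl fun l _ => h1 l, ← Finset.mul_sum, h, inv_mul_cancel₀ (pow_ne_zero 2 ht)]

/-- If `⟨a 0, a 1, a 2, a 3⟩` represents `1` over `L (√D)`, with `L` of odd degree, then it
represents `1` over `k (√D)`. -/
theorem exists_OnS_of_odd {k L : Type*} [Field k] [CharZero k] [Field L] [Algebra k L]
    [FiniteDimensional k L] (hodd : Odd (Module.finrank k L)) {a : Fin 4 → k}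
    (ha : ∀ l, a l ≠ 0) {D : k} (hD : D ≠ 0) {y u : Fin 4 → L}
    (h : OnS (fun l => algebraMap k L (a l)) (algebraMap k L D) y u) :
    ∃ y u : Fin 4 → k, OnS a D y u := by
  classical
  by_cases hsq : ∃ d : k, d ^ 2 = D
  · obtain ⟨d, rfl⟩ := hsq
    have h1 : ∑ l, algebraMap k L (a l) * (y l + algebraMap k L d * u l) ^ 2 =
        algebraMap k L 1 := by
      have h2 : ∀ l, algebraMap k L (a l) * (y l + algebraMap k L d * u l) ^ 2 =
          algebraMap k L (a l) * y l ^ 2 + algebraMap k L (d ^ 2) * (algebraMap k L (a l) * u l ^ 2) +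
            2 * algebraMap k L d * (algebraMap k L (a l) * (y l * u l)) := by
        intro l
        rw [map_pow]
        ring
      rw [Finset.sum_congr rfl fun l _ => h2 l, Finset.sum_add_distrib, Finset.sum_add_distrib,
        ← Finset.mul_sum, ← Finset.mul_sum, h.2, h.1, mul_zero, add_zero, map_one]
    obtain ⟨z, hz⟩ := springer_rep hodd ha one_ne_zero h1
    exact ⟨z, 0, by simp [OnS, hz]⟩
  · have hfact : Fact (∀ r : k, r ^ 2 ≠ D + 0 * r) := ⟨fun r hr => hsq ⟨r, by rw [hr]; ring⟩⟩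
    obtain ⟨θ, hθ⟩ := Field.exists_primitive_element k L
    have hint : IsIntegral k θ := Algebra.IsIntegral.isIntegral θ
    have hrep : ∀ x : L, ∃ p : k[X], aeval θ p = x := by
      intro x
      have h1 : x ∈ (⊤ : IntermediateField k L) := trivial
      rw [← hθ, ← IntermediateField.mem_toSubalgebra,
        IntermediateField.adjoin_simple_toSubalgebra_of_isAlgebraic hint.isAlgebraic,
        Algebra.adjoin_singleton_eq_range_aeval] at h1
      exact h1
    choose Y hY using fun l => hrep (y l)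
    choose U hU using fun l => hrep (u l)
    set m := minpoly k θ with hm
    have hmdeg : m.natDegree = Module.finrank k L := by
      rw [hm, ← IntermediateField.adjoin.finrank hint, hθ, IntermediateField.finrank_top']
    have hd1 : m ∣ (∑ l, C (a l) * (Y l ^ 2 + C D * U l ^ 2)) - 1 := by
      refine minpoly.dvd k θ ?_
      rw [map_sub, map_sum, map_one, sub_eq_zero, ← h.1, Finset.mul_sum, ← Finset.sum_add_distrib]
      refine Finset.sum_congr rfl fun l _ => ?_
      simp only [map_mul, map_add, map_pow, aeval_C, hY, hU]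
      ring
    have hd2 : m ∣ ∑ l, C (a l) * (Y l * U l) := by
      refine minpoly.dvd k θ ?_
      rw [map_sum, ← h.2]
      refine Finset.sum_congr rfl fun l _ => ?_
      simp only [map_mul, aeval_C, hY, hU]
    -- the quadratic extension
    set ψ : k →+* QuadraticAlgebra k D 0 := algebraMap k (QuadraticAlgebra k D 0) with hψ
    obtain ⟨m', hm1, hm2, hm3⟩ := oso_odd_factor _ (m.map ψ) rfl (by
      rw [natDegree_map, hmdeg]; exact hodd)
    set s : QuadraticAlgebra k D 0 := ⟨0, 1⟩ with hs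
    have hss : s ^ 2 = ψ D := by
      rw [sq]
      ext
      · simp [hs, hψ]
      · simp [hs, hψ]
    set P : Option (Fin 4) → (QuadraticAlgebra k D 0)[X] := fun o =>
      o.elim 1 fun l => (Y l).map ψ + C s * (U l).map ψ with hP
    set b : Option (Fin 4) → QuadraticAlgebra k D 0 := fun o => o.elim (-1) fun l => ψ (a l) with hb
    have hn : ¬ ∀ o, m' ∣ P o := fun hall => hm1.not_dvd_one (hall none)
    have hdvd : m' ∣ ∑ o, C (b o) * P o ^ 2 := by
      have e : ∑ o, C (b o) * P o ^ 2 = ((∑ l, C (a l) * (Y l ^ 2 + C D * U l ^ 2)) - 1).map ψ +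
          2 * C s * (∑ l, C (a l) * (Y l * U l)).map ψ := by
        rw [Fintype.sum_option, Polynomial.map_sub, Polynomial.map_one, Polynomial.map_sum,
          Polynomial.map_sum, Finset.mul_sum]
        simp only [hP, hb, Option.elim]
        have e2 : ∀ l, C (ψ (a l)) * ((Y l).map ψ + C s * (U l).map ψ) ^ 2 =
            (C (a l) * (Y l ^ 2 + C D * U l ^ 2)).map ψ +
              2 * C s * (C (a l) * (Y l * U l)).map ψ := by
          intro l
          simp only [Polynomial.map_mul, Polynomial.map_add, Polynomial.map_pow, Polynomial.map_C]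
          rw [← hss, map_pow]
          ring
        rw [Finset.sum_congr rfl fun l _ => e2 l, Finset.sum_add_distrib, map_neg, map_one]
        ring
      rw [e]
      have f1 := (Polynomial.map_dvd ψ hd1)
      have f2 := (Polynomial.map_dvd ψ hd2)
      exact dvd_add (hm3.trans f1) ((hm3.trans f2).mul_left _)
    obtain ⟨x, hx0, hx⟩ := springer_poly b hm1 hm2 P hn hdvd
    rw [Fintype.sum_option] at hx
    simp only [hb, Option.elim] at hx
    have hx' : ∑ l, ψ (a l) * x (some l) ^ 2 = x none ^ 2 := by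
      linear_combination hx
    obtain ⟨z, hz⟩ := oso_rep (a := fun l => ψ (a l)) (fun l => by
      rw [Ne, map_eq_zero]; exact ha l) (x := fun l => x (some l)) (t := x none) (by
      rintro ⟨h1, h2⟩
      apply hx0
      funext o
      cases o with
      | none => exact h2
      | some l => exact congrFun h1 l) hx'
    refine ⟨fun l => (z l).re, fun l => (z l).im, ?_, ?_⟩
    · have e := congrArg (QuadraticAlgebra.reₗ D 0) hz
      rw [map_sum] at e
      simp only [QuadraticAlgebra.reₗ_apply] at e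
      rw [Finset.mul_sum, ← Finset.sum_add_distrib]
      rw [show (1 : k) = (1 : QuadraticAlgebra k D 0).re from rfl, ← e]
      refine Finset.sum_congr rfl fun l _ => ?_
      rw [sq (z l)]
      simp only [QuadraticAlgebra.re_mul, QuadraticAlgebra.im_mul, hψ,
        QuadraticAlgebra.algebraMap_re, QuadraticAlgebra.algebraMap_im]
      ring
    · have e := congrArg (QuadraticAlgebra.imₗ D 0) hz
      rw [map_sum] at e
      simp only [QuadraticAlgebra.imₗ_apply] at e
      have e2 : ∑ l, 2 * (a l * ((z l).re * (z l).im)) = 0 := by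
        refine (Finset.sum_congr rfl fun l _ => ?_).trans
          (e.trans (rfl : (1 : QuadraticAlgebra k D 0).im = 0))
        rw [sq (z l)]
        simp only [QuadraticAlgebra.re_mul, QuadraticAlgebra.im_mul, hψ,
          QuadraticAlgebra.algebraMap_re, QuadraticAlgebra.algebraMap_im]
        ring
      rw [← Finset.mul_sum] at e2
      exact (mul_eq_zero.1 e2).resolve_left two_ne_zero

end Pool.Agent.Lib.MP_12adaf_nt.TF
end

section

/-!
# The matrix of traces is the trace matrix of Mathlib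
-/

namespace Pool.Agent.Lib.MP_12adaf_nt.TF

set_option linter.unusedSectionVars false
set_option linter.unusedVariables false

open Finset Polynomial Filter Topology Matrix

lemma trm_basis {K : Type*} [Field K] {P : K[X]} (hP : P.Monic) (j : Fin P.natDegree) :
    AdjoinRoot.powerBasisAux' hP j = AdjoinRoot.root P ^ (j : ℕ) :=
  (AdjoinRoot.powerBasis' hP).basis_eq_pow j

lemma trm_Mmat {K : Type*} [Field K] {P : K[X]} (hP : P.Monic) (T : K[X]) :
    Mmat P.natDegree P T =
      Algebra.leftMulMatrix (AdjoinRoot.powerBasisAux' hP) (AdjoinRoot.mk P T) := by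
  ext i j
  rw [Algebra.leftMulMatrix_eq_repr_mul, trm_basis hP, AdjoinRoot.powerBasisAux'_repr_apply_to_fun,
    ← AdjoinRoot.mk_X, ← map_pow, ← map_mul, AdjoinRoot.modByMonicHom_mk, mul_comm]
  rfl

theorem HH_eq_traceMatrix {K : Type*} [Field K] {n : ℕ} {P : K[X]} (hP : P.Monic)
    (hn : P.natDegree = n) :
    HH n P = Algebra.traceMatrix K fun i : Fin n => AdjoinRoot.root P ^ (i : ℕ) := by
  subst hn
  ext i j
  rw [Algebra.traceMatrix_apply, Algebra.traceForm_apply, ← pow_add,
    Algebra.trace_eq_matrix_trace (AdjoinRoot.powerBasisAux' hP), ← AdjoinRoot.mk_X, ← map_pow,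
    ← trm_Mmat hP]
  rfl

end Pool.Agent.Lib.MP_12adaf_nt.TF
end

section

/-!
# Trace forms of rank 6 and 7 over an extension of odd degree
-/

namespace Pool.Agent.Lib.MP_12adaf_nt.TF

set_option linter.unusedSectionVars false
set_option linter.unusedVariables false

open Finset Polynomial Filter Topology Matrix

/-- The reordering of the basis used below. -/
private def daEquiv : (Fin 1 ⊕ Fin 1) ⊕ Fin 4 ≃ Fin 4 ⊕ (Fin 1 ⊕ Fin 1) where
  toFun := Sum.elim (Sum.elim (fun _ => Sum.inl 0) fun _ => Sum.inr (Sum.inl 0))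
    ![Sum.inl 1, Sum.inr (Sum.inr 0), Sum.inl 2, Sum.inl 3]
  invFun := Sum.elim ![Sum.inl (Sum.inl 0), Sum.inr 0, Sum.inr 2, Sum.inr 3]
    (Sum.elim (fun _ => Sum.inl (Sum.inr 0)) fun _ => Sum.inr 1)
  left_inv := by intro x; revert x; decide
  right_inv := by intro x; revert x; decide

private lemma da_reorder {K : Type*} [Field K] (a b c d x y : K) :
    Cong (osum (diagonal ![a, b, c, d]) (osum (sq1 x) (sq1 y)))
      (osum (osum (sq1 a) (sq1 x)) (diagonal ![b, y, c, d])) := by
  rw [sq1, sq1, sq1, osum_diagonal, osum_diagonal, osum_diagonal, osum_diagonal]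
  refine (Cong.diagonal_equiv _ daEquiv).trans (Cong.of_eq ?_)
  congr 1
  ext i
  rcases i with (i | i) | i <;> fin_cases i <;> rfl

theorem decomp_aux {k : Type*} [Field k] [CharZero k] {f : k[X]} (hf : f.Monic)
    (hsep : f.Separable) {e : ℕ} (he : e ≤ 1) (hn : f.natDegree = 6 + e) :
    ∃ (L : IntermediateField k (AlgebraicClosure k)) (τ μ β : L), FiniteDimensional k L ∧
      Odd (Module.finrank k L) ∧ GoodQ τ μ β ∧
      Cong ((HH (6 + e) f).map (algebraMap k L))
        (stdF e (vec4 (2 * algebraMap k L f.discr) τ μ β)) := by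
  obtain ⟨L, p, q, r, hfin, hodd, hp, hq, hr, hpn, hqn, hrn, hfac⟩ :=
    exists_odd_ext hf hsep he hn
  have : CharZero L := charZero_of_injective_algebraMap (algebraMap k L).injective
  have hF : (f.map (algebraMap k L)).Monic := hf.map _
  have hFn : (f.map (algebraMap k L)).natDegree = 6 + e := by rw [natDegree_map, hn]
  have hFs : (f.map (algebraMap k L)).Separable := hsep.map
  have hs1 : (p * q * r).Separable := by rw [← hfac]; exact hFs
  have hs2 : (p * q).Separable := hs1.of_mul_left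
  have hs3 : p.Separable := hs2.of_mul_left
  have hs4 : q.Separable := hs2.of_mul_right
  obtain ⟨T, hT, τ, μ, β, c, hgood, hg⟩ := exists_generic_T hp hpn hs3
  have h1 : Cong (HH 4 p) (HH 4 (charT 4 p T)) := cong_charT hp hpn hs3 hT
  have h2 := (gq_comp_info hgood c).2.2.2.2
  rw [← hg] at h2
  have h3 : Cong (HH 4 p) (diagonal ![1, τ, -(τ * Aq τ μ β), -(μ * Aq τ μ β)]) := h1.trans h2
  have h4 := cong_two hq hqn hs4
  have h5 : Cong (HH 6 (p * q)) (osum (HH 4 p) (HH 2 q)) := cong_mul hp hq hpn hqn hs2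
  have hpq : (p * q).natDegree = 6 := by rw [hp.natDegree_mul hq, hpn, hqn]
  have h6 : Cong (HH (6 + e) (p * q * r)) (osum (HH 6 (p * q)) (HH e r)) :=
    cong_mul (hp.mul hq) hr hpq hrn hs1
  rw [HH_le_one he hr hrn] at h6
  have h7 : Cong (HH (6 + e) (f.map (algebraMap k L)))
      (osum (osum (diagonal ![1, τ, -(τ * Aq τ μ β), -(μ * Aq τ μ β)])
        (osum (sq1 2) (sq1 (2 * q.discr)))) (1 : Matrix (Fin e) (Fin e) L)) := by
    rw [hfac]
    exact h6.trans ((h5.trans (h3.osum h4)).osum (Cong.refl _))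
  obtain ⟨s, hs, hdet⟩ := h7.det_eq
  rw [det_osum, det_osum, det_osum, det_sq1, det_sq1, det_diagonal, det_one,
    det_HH hF hFn hFs, discr_map_monic _ hf, Fin.prod_univ_four] at hdet
  simp only [Matrix.cons_val_zero, Matrix.cons_val_one, Matrix.cons_val] at hdet
  have hτ := hgood.t
  have hμ := hgood.m
  have hA := hgood.A
  have h8 : 2 * q.discr = 2 * algebraMap k L f.discr * μ *
      (s / (2 * τ * Aq τ μ β * μ)) ^ 2 := by
    have h2ne : (2 : L) ≠ 0 := two_ne_zero
    field_simp
    linear_combination hdet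
  have h9 : Cong (sq1 (2 * q.discr)) (sq1 (2 * algebraMap k L f.discr * μ)) := by
    refine (Cong.sq1_of_eq ?_ h8).symm
    exact div_ne_zero hs (mul_ne_zero (mul_ne_zero (mul_ne_zero two_ne_zero hτ) hA) hμ)
  refine ⟨L, τ, μ, β, hfin, hodd, hgood, ?_⟩
  rw [map_HH _ hf]
  refine h7.trans ?_
  refine Cong.osum ?_ (Cong.refl _)
  exact (Cong.osum (Cong.refl _) (Cong.osum (Cong.refl _) h9)).trans (da_reorder _ _ _ _ _ _)

end Pool.Agent.Lib.MP_12adaf_nt.TF
end

section

/-!
# From local data to global polynomials of degree 7 with a given trace form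
-/

namespace Pool.Agent.Lib.MP_12adaf_nt.TF

set_option linter.unusedSectionVars false
set_option linter.unusedVariables false

open Finset Polynomial Filter Topology Matrix

/-- Coprimality from a nonvanishing resultant. -/
private theorem isCoprime_of_resultant_ne_zero {K : Type*} [Field K] {N : ℕ} {g h : K[X]}
    (hg : g.Monic) (hgN : g.natDegree = N) (hh : h.natDegree ≤ N)
    (hR : resultant g h N N ≠ 0) : IsCoprime g h := by
  subst hgN
  obtain ⟨k, hk⟩ := Nat.exists_eq_add_of_le hh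
  have h0 : resultant g h g.natDegree (h.natDegree + k) ≠ 0 := by rwa [← hk]
  rw [resultant_add_right_deg _ _ _ _ _ le_rfl] at h0
  exact (isUnit_resultant_iff_isCoprime hg).mp (isUnit_iff_ne_zero.mpr (right_ne_zero_of_mul h0))

/-- The trace form along the odd pencil. -/
private theorem cong_fpolyO {K : Type*} [Field K] [CharZero K] {N : ℕ} {g : K[X]} (hg : g.Monic)
    (hgN : g.natDegree = N) (hsep : g.Separable) (hL : (LmatO N g).det ≠ 0)
    (hR : resultant g (hpolyO N g) N N ≠ 0) (t : K) (hfs : (fpolyO N g t).Separable) :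
    Cong (HH (N + 1) (fpolyO N g t)) (osum (HH N g) (sq1 1)) := by
  have hfm := fpolyO_monic hg hgN t
  have hgh : IsCoprime g (hpolyO N g) :=
    isCoprime_of_resultant_ne_zero hg hgN (natDegree_hpolyO_le hg hgN) hR
  exact cong_O hfm.1 hg hfm.2 hgN (natDegree_hpolyO_le hg hgN) hfs hsep hgh
    (wronskian_fpolyO hg hgN hsep hL t)

/-- The step from even to odd degree. -/
theorem odd_step {k : Type*} [Field k] [CharZero k] {ι : Type*} [Fintype ι] [Nonempty ι]
    {K : ι → Type*} [∀ i, NormedField (K i)] [∀ i, CharZero (K i)] {φ : ∀ i, k →+* K i}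
    (hdense : DenseRange (fun (q : k) (i : ι) => φ i q)) {N : ℕ} (hN : Even N) {d : k}
    (hd : d ≠ 0) (F : ∀ i, (K i)[X]) (Y : ∀ i, K i)
    (hdisc : ∀ i, (F i).discr = φ i d * Y i ^ 2) (hY : ∀ i, Y i ≠ 0)
    (g : ∀ i, (K i)[X]) (t : ∀ i, K i) (T : ∀ i, (K i)[X])
    (hloc : ∀ i, OData N (F i) (g i) (t i) (T i)) {m : Type*} [Fintype m] [DecidableEq m]
    (B : Matrix m m k)
    (happ : ∀ z : ∀ i, K i, (∀ i, (g i).discr = φ i d * z i ^ 2) → (∀ i, z i ≠ 0) →
      ApF φ N d B g z) :
    ApF φ (N + 1) d (osum B (sq1 1)) F Y := by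
  intro ε hε
  -- sequences
  have hseq : ∀ x : ∀ i, K i, ∃ u : ℕ → k, ∀ i, Tendsto (fun j => φ i (u j)) atTop (𝓝 (x i)) := by
    intro x
    have hx : x ∈ closure (Set.range fun (q : k) (i : ι) => φ i q) := hdense x
    obtain ⟨w, hw, hlim⟩ := mem_closure_iff_seq_limit.mp hx
    choose u hu using hw
    refine ⟨u, fun i => ?_⟩
    have := (tendsto_pi_nhds.mp hlim) i
    refine this.congr fun j => ?_
    rw [← hu j]
  choose hg hgN hsep hL hR hfs hT hch using hloc
  have hφd : ∀ i, φ i d ≠ 0 := fun i => (_root_.map_ne_zero (φ i)).mpr hd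
  have hfm0 : ∀ i, (fpolyO N (g i) (t i)).Monic ∧ (fpolyO N (g i) (t i)).natDegree = N + 1 :=
    fun i => fpolyO_monic (hg i) (hgN i) _
  -- the determinant
  have hBd : ∀ i, (fpolyO N (g i) (t i)).discr *
      (Bmat (N + 1) (fpolyO N (g i) (t i)) (T i)).det ^ 2 = φ i d * Y i ^ 2 := by
    intro i
    rw [← discr_charT (hfm0 i).1 (hfm0 i).2 (hfs i), hch i, hdisc i]
  have hB0 : ∀ i, (Bmat (N + 1) (fpolyO N (g i) (t i)) (T i)).det ≠ 0 := by
    intro i h
    have h1 := hBd i
    rw [h, zero_pow two_ne_zero, mul_zero] at h1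
    exact mul_ne_zero (hφd i) (pow_ne_zero 2 (hY i)) h1.symm
  -- the target for the companions
  have hz : ∀ i, ∃ z : K i, z ≠ 0 ∧ (g i).discr = φ i d * z ^ 2 ∧
      yO N (φ i d) (g i) (t i) z * (Bmat (N + 1) (fpolyO N (g i) (t i)) (T i)).det = Y i := by
    intro i
    obtain ⟨k1, k2⟩ := discr_O hN (hfm0 i).1 (hg i) (hfm0 i).2 (hgN i)
      (natDegree_hpolyO_le (hg i) (hgN i)) (wronskian_fpolyO (hg i) (hgN i) (hsep i) (hL i) (t i))
    have h0 := resultant_fg_ne_zero hN (hg i) (hgN i) (hsep i) (hL i) (hR i) (t i)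
    have h1 := discr_ne_zero_of_separable (hfm0 i).1 (hfs i)
    have hBi := hBd i
    have hB0i := hB0 i
    set f := fpolyO N (g i) (t i) with hf
    set R := resultant f (g i) (N + 1) N with hRdef
    set A := resultant f (hpolyO N (g i)) (N + 1) N with hA
    set B := resultant (g i) (hpolyO N (g i)) N N with hBdef
    set D := (Bmat (N + 1) f (T i)).det with hD
    have hA0 : A ≠ 0 := by
      intro h
      rw [h, zero_pow two_ne_zero] at k1
      exact (mul_ne_zero (mul_ne_zero (pow_ne_zero _ (neg_ne_zero.mpr one_ne_zero)) h1) h0) k1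
    have hs : ((-1 : K i) ^ (N / 2)) ^ 2 = 1 := by
      rw [← pow_mul, mul_comm, pow_mul]; simp
    have key : f.discr * (g i).discr * R ^ 2 = A ^ 2 * B ^ 2 := by
      rw [← k1, ← k2]
      linear_combination (-(f.discr * (g i).discr * R ^ 2)) * hs
    refine ⟨A * B * D / (R * φ i d * Y i), ?_, ?_, ?_⟩
    · exact div_ne_zero (mul_ne_zero (mul_ne_zero hA0 (hR i)) hB0i)
        (mul_ne_zero (mul_ne_zero h0 (hφd i)) (hY i))
    · have hne : f.discr * R ^ 2 ≠ 0 := mul_ne_zero h1 (pow_ne_zero 2 h0)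
      apply mul_left_cancel₀ hne
      have hφdi := hφd i
      have hYi := hY i
      have e1 : f.discr * R ^ 2 * (φ i d * (A * B * D / (R * φ i d * Y i)) ^ 2) =
          (f.discr * D ^ 2) * (A ^ 2 * B ^ 2) / (φ i d * Y i ^ 2) := by
        field_simp
      rw [e1, hBi, mul_div_cancel_left₀ _ (mul_ne_zero hφdi (pow_ne_zero 2 hYi)), ← key]
      ring
    · have hy : yO N (φ i d) (g i) (t i) (A * B * D / (R * φ i d * Y i)) =
          A * B / (R * (φ i d * (A * B * D / (R * φ i d * Y i)))) := rfl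
      rw [hy]
      have hφdi := hφd i
      have hYi := hY i
      have hRi : B ≠ 0 := hR i
      field_simp
  choose z hz0 hz1 hz2 using hz
  -- approximating sequences
  have happ' : ∀ j : ℕ, ∃ (P : k[X]) (y : k), P.Monic ∧ P.natDegree = N ∧ P.discr = d * y ^ 2 ∧
        y ≠ 0 ∧ Cong (HH N P) B ∧
        ∀ i, (∀ m, ‖φ i (P.coeff m) - (g i).coeff m‖ < 1 / ((j : ℝ) + 1)) ∧
          ‖φ i y - z i‖ < 1 / ((j : ℝ) + 1) :=
    fun j => happ z hz1 hz0 _ (by positivity)
  choose gq zq hgqm hgqd hgqdisc hzq0 hgqB hgz using happ'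
  have hsmall : Tendsto (fun j : ℕ => 1 / ((j : ℝ) + 1)) atTop (𝓝 0) :=
    tendsto_one_div_add_atTop_nhds_zero_nat
  have hconv : ∀ (i : ι) (u : ℕ → K i) (u0 : K i), (∀ j : ℕ, ‖u j - u0‖ < 1 / ((j : ℝ) + 1)) →
      Tendsto u atTop (𝓝 u0) := by
    intro i u u0 h
    rw [tendsto_iff_norm_sub_tendsto_zero]
    exact squeeze_zero (fun _ => norm_nonneg _) (fun j => (h j).le) hsmall
  have hzqc : ∀ i, Tendsto (fun j => φ i (zq j)) atTop (𝓝 (z i)) :=
    fun i => hconv i _ _ fun j => (hgz j i).2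
  have hCTg : ∀ i, CTB atTop (fun j => (gq j).map (φ i)) (g i) := by
    intro i
    refine ⟨fun m => ?_, N, fun j => ?_, (hgN i).le⟩
    · simp only [coeff_map]
      exact hconv i _ _ fun j => (hgz j i).1 m
    · rw [natDegree_map, hgqd]
  choose uT huT using fun m : Fin (N + 1) => hseq fun i => (T i).coeff m
  obtain ⟨us, hus⟩ := hseq t
  let Tq : ℕ → k[X] := fun j => toPoly fun m => uT m j
  have hCTT : ∀ i, CTB atTop (fun j => (Tq j).map (φ i)) (T i) := by
    intro i
    have h1 : ∀ j, (Tq j).map (φ i) = ∑ m : Fin (N + 1), C (φ i (uT m j)) * X ^ (m : ℕ) := by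
      intro j
      rw [show Tq j = toPoly fun m => uT m j from rfl, map_toPoly]
      rfl
    rw [← toPoly_coeff (hT i)]
    simp only [h1]
    exact CTB.sum _ fun m _ => (CTB.C (huT m i)).mul (CTB.const _)
  have hm' : ∀ i j, ((gq j).map (φ i)).Monic := fun i j => (hgqm j).map _
  have hd' : ∀ i j, ((gq j).map (φ i)).natDegree = N := fun i j => by
    rw [natDegree_map, hgqd]
  have hCTf : ∀ i, CTB atTop (fun j => (fpolyO N (gq j) (us j)).map (φ i))
      (fpolyO N (g i) (t i)) := by
    intro i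
    simp only [map_fpolyO (φ i) (hgqm _)]
    exact ctb_fpolyO (hCTg i) (hm' i) (hd' i) (hg i) (hgN i) (hL i) (hus i)
  have hfm : ∀ j, (fpolyO N (gq j) (us j)).Monic ∧ (fpolyO N (gq j) (us j)).natDegree = N + 1 :=
    fun j => fpolyO_monic (hgqm j) (hgqd j) _
  have hCTP : ∀ i, CT atTop (fun j => (charT (N + 1) (fpolyO N (gq j) (us j)) (Tq j)).map (φ i))
      (F i) := by
    intro i
    have h1 := ctb_charT (n := N + 1) (hCTf i) (fun j => (hfm j).1.map _)
      (fun j => by rw [natDegree_map]; exact (hfm j).2) (hfm0 i).1 (hfm0 i).2 (hCTT i)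
    rw [hch i] at h1
    intro m
    refine (h1 m).congr fun j => ?_
    dsimp only
    rw [map_charT (φ i) (hfm j).1]
  let yq : ℕ → k := fun j => yO N d (gq j) (us j) (zq j) *
    (Bmat (N + 1) (fpolyO N (gq j) (us j)) (Tq j)).det
  have hyq : ∀ i, Tendsto (fun j => φ i (yq j)) atTop (𝓝 (Y i)) := by
    intro i
    have h1 := tendsto_yO (hCTg i) (hm' i) (hd' i) (hg i) (hgN i) (hL i) (φ i d) (hφd i)
      (hus i) (hzqc i) (hz0 i)
      (resultant_fg_ne_zero hN (hg i) (hgN i) (hsep i) (hL i) (hR i) (t i))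
    have h2 := tendsto_det_Bmat (n := N + 1) (hCTf i) (fun j => (hfm j).1.map _)
      (fun j => by rw [natDegree_map]; exact (hfm j).2) (hfm0 i).1 (hfm0 i).2 (hCTT i)
    have h3 := h1.mul h2
    rw [hz2 i] at h3
    refine h3.congr fun j => ?_
    rw [map_mul, map_yO (φ i) (hgqm j), map_det_Bmat (φ i) (hfm j).1]
  -- choose a good index
  obtain ⟨i₀⟩ := ‹Nonempty ι›
  have ev1 : ∀ᶠ j in atTop, yq j ≠ 0 := by
    have := (hyq i₀).eventually_ne (hY i₀)
    filter_upwards [this] with j hj h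
    exact hj (by rw [h, map_zero])
  have ev2 : ∀ᶠ j in atTop, (LmatO N (gq j)).det ≠ 0 := by
    have h1 := (tendsto_det (tendsto_LmatO (hCTg i₀) (hm' i₀) (hd' i₀) (hg i₀)
      (hgN i₀))).eventually_ne (hL i₀)
    filter_upwards [h1] with j hj h
    apply hj
    rw [map_LmatO (φ i₀) (hgqm j)]
    rw [show ((LmatO N (gq j)).map (φ i₀)).det = φ i₀ (LmatO N (gq j)).det from by
      rw [RingHom.map_det]; rfl, h, map_zero]
  have ev4 : ∀ᶠ j in atTop, resultant (gq j) (hpolyO N (gq j)) N N ≠ 0 := by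
    have h1 := (tendsto_resultant_hpolyO (hCTg i₀) (hm' i₀) (hd' i₀) (hg i₀) (hgN i₀)
      (hL i₀)).eventually_ne (hR i₀)
    filter_upwards [h1] with j hj h
    apply hj
    rw [← map_hpolyO (φ i₀) (hgqm j), resultant_map_map, h, map_zero]
  have ev6 : ∀ᶠ j in atTop, ∀ i, ‖φ i (yq j) - Y i‖ < ε := by
    rw [eventually_all]
    intro i
    have := (Metric.tendsto_nhds.mp (hyq i)) ε hε
    simpa only [dist_eq_norm] using this
  have ev7 : ∀ᶠ j in atTop, ∀ i, ∀ m : Fin (N + 2),
      ‖φ i ((charT (N + 1) (fpolyO N (gq j) (us j)) (Tq j)).coeff m) - (F i).coeff m‖ < ε := by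
    rw [eventually_all]
    intro i
    rw [eventually_all]
    intro m
    have := (Metric.tendsto_nhds.mp (hCTP i m)) ε hε
    simpa only [dist_eq_norm, coeff_map] using this
  obtain ⟨j, hj1, hj2, hj4, hj6, hj7⟩ :=
    (ev1.and (ev2.and (ev4.and (ev6.and ev7)))).exists
  have hgsep : (gq j).Separable := by
    apply separable_of_discr_ne_zero (hgqm j)
    rw [hgqdisc j]
    exact mul_ne_zero hd (pow_ne_zero 2 (hzq0 j))
  have hfd := discr_fpolyO hN (hgqm j) (hgqd j) hgsep hj2 hj4 (us j) hd (hzq0 j) (hgqdisc j)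
  have hy1 : yO N d (gq j) (us j) (zq j) ≠ 0 := left_ne_zero_of_mul hj1
  have hfsep : (fpolyO N (gq j) (us j)).Separable := by
    apply separable_of_discr_ne_zero (hfm j).1
    rw [hfd]
    exact mul_ne_zero hd (pow_ne_zero 2 hy1)
  refine ⟨charT (N + 1) (fpolyO N (gq j) (us j)) (Tq j), yq j, charT_monic _ _ _,
    natDegree_charT _ _ _, ?_, hj1, ?_, fun i => ⟨fun m => ?_, hj6 i⟩⟩
  · rw [discr_charT (hfm j).1 (hfm j).2 hfsep, hfd]
    ring
  · have hPsep : (charT (N + 1) (fpolyO N (gq j) (us j)) (Tq j)).Separable := by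
      apply separable_of_discr_ne_zero (charT_monic _ _ _)
      rw [discr_charT (hfm j).1 (hfm j).2 hfsep, hfd]
      have h1 : (Bmat (N + 1) (fpolyO N (gq j) (us j)) (Tq j)).det ≠ 0 :=
        right_ne_zero_of_mul hj1
      exact mul_ne_zero (mul_ne_zero hd (pow_ne_zero 2 hy1)) (pow_ne_zero 2 h1)
    have c1 := cong_charT (hfm j).1 (hfm j).2 hfsep hPsep
    have c2 := cong_fpolyO (hgqm j) (hgqd j) hgsep hj2 hj4 (us j) hfsep
    exact c1.symm.trans (c2.trans (Cong.osum (hgqB j) (Cong.refl _)))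
  · by_cases hm : m < N + 2
    · exact hj7 i ⟨m, hm⟩
    · have h1 : (charT (N + 1) (fpolyO N (gq j) (us j)) (Tq j)).coeff m = 0 := by
        apply coeff_eq_zero_of_natDegree_lt
        rw [natDegree_charT]; omega
      have h2 : (F i).coeff m = 0 := by
        apply coeff_eq_zero_of_natDegree_lt
        rw [← hch i, natDegree_charT]; omega
      rw [h1, h2, map_zero, sub_zero, norm_zero]
      exact hε

theorem seven_approx {k : Type*} [Field k] [CharZero k] {ι : Type*} [Fintype ι] [Nonempty ι]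
    {K : ι → Type*} [∀ i, NormedField (K i)] [∀ i, CharZero (K i)] {φ : ∀ i, k →+* K i}
    (hdense : DenseRange (fun (q : k) (i : ι) => φ i q)) (hop : ∀ i, OpenCong (K i))
    (hnb : ∀ i, (𝓝[≠] (0 : K i)).NeBot) {a : Fin 4 → k} (ha : ∀ l, a l ≠ 0)
    {y0 u0 : Fin 4 → k} (h0 : OnS a (∏ l, a l) y0 u0) (F : ∀ i, (K i)[X]) (Y : ∀ i, K i)
    (g : ∀ i, (K i)[X]) (t : ∀ i, K i) (T : ∀ i, (K i)[X])
    (hloc : ∀ i, OData 6 (F i) (g i) (t i) (T i)) (hg : ∀ i, LocW 4 (g i))
    (hc : ∀ i, Cong (HH 7 (F i)) (stdF 1 fun l => φ i (a l)))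
    (hdisc : ∀ i, (F i).discr = φ i (2 * ∏ l, a l) * Y i ^ 2) (hY : ∀ i, Y i ≠ 0) :
    ApF φ 7 (2 * ∏ l, a l) (stdF 1 a) F Y := by
  have hd : (2 * ∏ l, a l : k) ≠ 0 :=
    mul_ne_zero two_ne_zero (Finset.prod_ne_zero_iff.mpr fun l _ => ha l)
  have hcg : ∀ i, Cong (HH 6 (g i)) (stdF 0 fun l => φ i (a l)) := by
    intro i
    obtain ⟨h1, h2, h3, h4, h5, h6, h7, h8⟩ := hloc i
    have hFsep : (F i).Separable := by
      have hFm : (F i).Monic := by rw [← h8]; exact charT_monic _ _ _
      apply separable_of_discr_ne_zero hFm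
      rw [hdisc i]
      exact mul_ne_zero ((_root_.map_ne_zero (φ i)).mpr hd) (pow_ne_zero 2 (hY i))
    have hfm := fpolyO_monic h1 h2 (t i)
    have c1 : Cong (HH 7 (fpolyO 6 (g i) (t i))) (HH 7 (F i)) := by
      have := cong_charT hfm.1 hfm.2 h6 (T := T i) (by rw [h8]; exact hFsep)
      rwa [h8] at this
    have c2 := cong_fpolyO h1 h2 h3 h4 h5 (t i) h6
    have c3 : Cong (osum (HH 6 (g i)) (sq1 1)) (osum (stdF 0 fun l => φ i (a l)) (sq1 1)) :=
      c2.symm.trans (c1.trans ((hc i).trans (stdF_succ _).symm))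
    have c4 : Cong (osum (sq1 (1 : K i)) (HH 6 (g i)))
        (osum (sq1 1) (stdF 0 fun l => φ i (a l))) :=
      (Cong.osum_comm _ _).trans (c3.trans (Cong.osum_comm _ _))
    exact witt_sq1 one_ne_zero (HH_isSymm _ _) (stdF_isSymm _ _) c4
  have hmain := odd_step hdense (N := 6) (by decide) hd F Y hdisc hY g t T hloc (stdF 0 a)
    (fun z hz1 hz0 => six_approx hdense hop hnb ha h0 g z hg hcg hz1 hz0)
  intro ε hε
  obtain ⟨P, y, h1, h2, h3, h4, h5, h6⟩ := hmain ε hε
  exact ⟨P, y, h1, h2, h3, h4, h5.trans (stdF_succ a), h6⟩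

end Pool.Agent.Lib.MP_12adaf_nt.TF
end

section

/-!
# The shape of the trace forms of rank 6 and 7
-/

namespace Pool.Agent.Lib.MP_12adaf_nt.TF

set_option linter.unusedSectionVars false
set_option linter.unusedVariables false

open Finset Polynomial Filter Topology Matrix

/-- Congruent forms represent the same values. -/
private lemma dc_rep {K : Type*} [CommRing K] {m n : Type*} [Fintype m] [DecidableEq m] [Fintype n]
    [DecidableEq n] {A : Matrix m m K} {B : Matrix n n K} (h : Cong A B) {c : K}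
    (hv : ∃ v : n → K, v ⬝ᵥ B *ᵥ v = c) : ∃ v : m → K, v ⬝ᵥ A *ᵥ v = c := by
  obtain ⟨M, M', h1, h2, rfl⟩ := h
  obtain ⟨v, hv⟩ := hv
  refine ⟨M *ᵥ v, ?_⟩
  rw [← hv, ← Matrix.mulVec_mulVec, ← Matrix.mulVec_mulVec, Matrix.dotProduct_mulVec v Mᵀ,
    Matrix.vecMul_transpose]

/-- A diagonal entry is represented. -/
private lemma dc_entry {K : Type*} [CommRing K] {n : Type*} [Fintype n] [DecidableEq n]
    (B : Matrix n n K) (i : n) : ∃ v : n → K, v ⬝ᵥ B *ᵥ v = B i i :=
  ⟨Pi.single i 1, by simp⟩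

private lemma dc_diag_rep {K : Type*} [CommRing K] {n : Type*} [Fintype n] [DecidableEq n]
    (w v : n → K) : v ⬝ᵥ (diagonal w) *ᵥ v = ∑ l, w l * v l ^ 2 := by
  simp only [dotProduct, mulVec_diagonal]
  exact Finset.sum_congr rfl fun l _ => by ring

/-- Splitting off a value which is represented over an extension of odd degree. -/
private lemma dc_split {k L : Type*} [Field k] [CharZero k] [Field L] [Algebra k L]
    [FiniteDimensional k L] (hodd : Odd (Module.finrank k L)) {n : Type*} [Fintype n]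
    [DecidableEq n] {r : ℕ} (hcard : Fintype.card n = r + 1) {A : Matrix n n k} (hA : A.IsSymm)
    (hdet : A.det ≠ 0) {c : k} (hc : c ≠ 0)
    (hv : ∃ v : n → L, v ⬝ᵥ (A.map (algebraMap k L)) *ᵥ v = algebraMap k L c) :
    ∃ u : Fin r → k, (∀ i, u i ≠ 0) ∧ Cong A (osum (sq1 c) (diagonal u)) := by
  obtain ⟨w, hw0, hw⟩ := exists_diagonal hA hdet
  have h1 := (hw.map (algebraMap k L)).symm
  rw [diagonal_map (map_zero _)] at h1
  obtain ⟨v, hv⟩ := dc_rep h1 hv
  rw [dc_diag_rep] at hv
  obtain ⟨y, hy⟩ := springer_rep hodd hw0 hc (x := v) hv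
  let e : Fin (r + 1) ≃ n := (Fintype.equivFinOfCardEq hcard).symm
  have h2 : Cong A (A.submatrix e e) := Cong.submatrix A e
  have h3 : ∃ v : Fin (r + 1) → k, v ⬝ᵥ (A.submatrix e e) *ᵥ v = c :=
    dc_rep (h2.symm.trans hw) ⟨y, by rw [dc_diag_rep]; exact hy⟩
  obtain ⟨v', hv'⟩ := h3
  have hdet' : (A.submatrix e e).det ≠ 0 := by rwa [det_submatrix_equiv_self]
  obtain ⟨u, hu0, hu⟩ := exists_split (h2.symmetric hA) hdet' hc hv'
  exact ⟨u, hu0, h2.trans hu⟩

private lemma dc_diag_isSymm {K : Type*} [CommRing K] {n : Type*} [Fintype n] [DecidableEq n]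
    (w : n → K) : (diagonal w).IsSymm := diagonal_transpose _

private lemma dc_det_ne {K : Type*} [Field K] {n : Type*} [Fintype n] [DecidableEq n]
    {w : n → K} (hw : ∀ i, w i ≠ 0) : (diagonal w).det ≠ 0 := by
  rw [det_diagonal]
  exact Finset.prod_ne_zero_iff.2 fun i _ => hw i

/-- Regrouping of the standard form. -/
private lemma dc_std {K : Type*} [CommRing K] (e : ℕ) (a : Fin 4 → K) :
    Cong (stdF e a) (osum (sq1 1) (osum (osum (sq1 2) (diagonal a))
      (1 : Matrix (Fin e) (Fin e) K))) := by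
  unfold stdF
  exact ((Cong.osum_assoc (sq1 1) (sq1 2) (diagonal a)).osum (Cong.refl _)).trans
    (Cong.osum_assoc _ _ _)

/-- The last step. -/
private lemma dc_last {k L : Type*} [Field k] [CharZero k] [Field L] [Algebra k L]
    [FiniteDimensional k L] (hodd : Odd (Module.finrank k L)) {e : ℕ} (he : e ≤ 1)
    {w : Fin (4 + e) → k} (hw : ∀ i, w i ≠ 0) {a : Fin 4 → L}
    (h : Cong (diagonal fun i => algebraMap k L (w i))
      (osum (diagonal a) (1 : Matrix (Fin e) (Fin e) L))) :
    ∃ u : Fin 4 → k, (∀ i, u i ≠ 0) ∧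
      Cong (diagonal w) (osum (diagonal u) (1 : Matrix (Fin e) (Fin e) k)) ∧
      Cong (diagonal fun i => algebraMap k L (u i)) (diagonal a) := by
  have hcL : CharZero L := charZero_of_injective_algebraMap (algebraMap k L).injective
  interval_cases e
  · refine ⟨w, hw, ?_, ?_⟩
    · have h1 := Cong.submatrix (osum (diagonal w) (1 : Matrix (Fin 0) (Fin 0) k))
        (Equiv.sumEmpty (Fin 4) (Fin 0)).symm
      refine (h1.trans (Cong.of_eq ?_)).symm
      ext i j
      simp [osum]
    · refine h.trans ?_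
      have h1 := Cong.submatrix (osum (diagonal a) (1 : Matrix (Fin 0) (Fin 0) L))
        (Equiv.sumEmpty (Fin 4) (Fin 0)).symm
      refine h1.trans (Cong.of_eq ?_)
      ext i j
      simp [osum]
  · have hrep : ∃ v : Fin 5 → L, v ⬝ᵥ ((diagonal w).map (algebraMap k L)) *ᵥ v =
        algebraMap k L 1 := by
      rw [diagonal_map (map_zero _), map_one]
      refine dc_rep h ?_
      obtain ⟨v, hv⟩ := dc_entry (osum (diagonal a) (1 : Matrix (Fin 1) (Fin 1) L)) (Sum.inr 0)
      exact ⟨v, by rw [hv]; simp [osum]⟩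
    obtain ⟨u, hu0, hu⟩ := dc_split hodd (r := 4) (n := Fin (4 + 1)) (by simp)
      (dc_diag_isSymm w) (dc_det_ne hw) one_ne_zero hrep
    refine ⟨u, hu0, ?_, ?_⟩
    · refine hu.trans ((Cong.osum_comm _ _).trans (Cong.of_eq ?_))
      rw [sq1, diagonal_one]
    · have h1 := hu.map (algebraMap k L)
      rw [map_osum, map_sq1, map_one, diagonal_map (map_zero _), diagonal_map (map_zero _)] at h1
      have h2 := h1.symm.trans h
      have h3 : Cong (osum (diagonal a) (1 : Matrix (Fin 1) (Fin 1) L))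
          (osum (sq1 1) (diagonal a)) := by
        refine (Cong.osum_comm _ _).trans (Cong.of_eq ?_)
        rw [sq1, diagonal_one]
      exact witt_sq1 one_ne_zero (dc_diag_isSymm _) (dc_diag_isSymm _) (h2.trans h3)

theorem decomp {k : Type*} [Field k] [CharZero k] {f : k[X]} (hf : f.Monic)
    (hsep : f.Separable) {e : ℕ} (he : e ≤ 1) (hn : f.natDegree = 6 + e) :
    ∃ a : Fin 4 → k, (∀ l, a l ≠ 0) ∧ (∃ y u, OnS a (∏ l, a l) y u) ∧
      Cong (HH (6 + e) f) (stdF e a) := by
  obtain ⟨L, τ, μ, β, hfd, hodd, hG, hc⟩ := decomp_aux hf hsep he hn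
  set S := HH (6 + e) f with hS
  have hSs : S.IsSymm := HH_isSymm _ _
  have hSd : S.det ≠ 0 := det_HH_ne_zero hf hn hsep
  have hdisc : f.discr ≠ 0 := by rw [← det_HH hf hn hsep]; exact hSd
  set ι := algebraMap k L with hι
  set aL : Fin 4 → L := vec4 (2 * ι f.discr) τ μ β with haL
  -- split off 1
  have hrep1 : ∃ v : Fin (6 + e) → L, v ⬝ᵥ (S.map ι) *ᵥ v = ι 1 := by
    refine dc_rep (hc.trans (dc_std e aL)) ?_
    obtain ⟨v, hv⟩ := dc_entry (osum (sq1 (1 : L)) (osum (osum (sq1 2) (diagonal aL))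
      (1 : Matrix (Fin e) (Fin e) L))) (Sum.inl 0)
    exact ⟨v, by rw [hv, map_one]; simp [osum, sq1]⟩
  obtain ⟨w1, hw1, hc1⟩ := dc_split hodd (r := 5 + e) (by rw [Fintype.card_fin]; omega) hSs hSd
    one_ne_zero hrep1
  have hL1 := hc1.map ι
  rw [map_osum, map_sq1, map_one, diagonal_map (map_zero _)] at hL1
  have hL1' : Cong (diagonal fun i => ι (w1 i)) (osum (osum (sq1 2) (diagonal aL))
      (1 : Matrix (Fin e) (Fin e) L)) :=
    witt_sq1 one_ne_zero (dc_diag_isSymm _)
      (osum_isSymm (osum_isSymm (sq1_isSymm _) (dc_diag_isSymm _)) Matrix.isSymm_one)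
      ((hL1.symm.trans hc).trans (dc_std e aL))
  have hL1'' := hL1'.trans (Cong.osum_assoc _ _ _)
  -- split off 2
  have hrep2 : ∃ v : Fin (5 + e) → L, v ⬝ᵥ ((diagonal w1).map ι) *ᵥ v = ι 2 := by
    rw [diagonal_map (map_zero _)]
    refine dc_rep hL1'' ?_
    obtain ⟨v, hv⟩ := dc_entry (osum (sq1 (2 : L)) (osum (diagonal aL)
      (1 : Matrix (Fin e) (Fin e) L))) (Sum.inl 0)
    exact ⟨v, by rw [hv, map_ofNat]; simp [osum, sq1]⟩
  obtain ⟨w2, hw2, hc2⟩ := dc_split hodd (r := 4 + e) (by rw [Fintype.card_fin]; omega)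
    (dc_diag_isSymm w1) (dc_det_ne hw1) two_ne_zero hrep2
  have hL2 := hc2.map ι
  rw [map_osum, map_sq1, map_ofNat, diagonal_map (map_zero _), diagonal_map (map_zero _)] at hL2
  have hL2' : Cong (diagonal fun i => ι (w2 i)) (osum (diagonal aL)
      (1 : Matrix (Fin e) (Fin e) L)) :=
    witt_sq1 two_ne_zero (dc_diag_isSymm _) (osum_isSymm (dc_diag_isSymm _) Matrix.isSymm_one)
      (hL2.symm.trans hL1'')
  obtain ⟨a, ha, hc3, hL3⟩ := dc_last hodd he hw2 hL2'
  have hfin : Cong S (stdF e a) := by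
    refine hc1.trans (((Cong.refl _).osum (hc2.trans ((Cong.refl _).osum hc3))).trans ?_)
    exact (((Cong.refl _).osum (Cong.osum_assoc (sq1 2) (diagonal a) 1).symm).trans
      (dc_std e a).symm)
  refine ⟨a, ha, ?_, hfin⟩
  obtain ⟨c, hc0, hdet⟩ := hfin.det_eq
  rw [det_stdF, det_HH hf hn hsep] at hdet
  have hD : (2 * ι f.discr : L) ≠ 0 := mul_ne_zero two_ne_zero ((map_ne_zero ι).2 hdisc)
  obtain ⟨y, u, v, hyu, -⟩ := exists_vectors hD hG hL3.symm
  have hs : ι (c / 2) ≠ 0 := (map_ne_zero ι).2 (div_ne_zero hc0 two_ne_zero)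
  have hprod : ι (∏ l, a l) = 2 * ι f.discr * ι (c / 2) ^ 2 := by
    have h1 : ∏ l, a l = 2 * f.discr * (c / 2) ^ 2 := by
      linear_combination (1 / 2 : k) * hdet
    rw [h1, map_mul, map_mul, map_pow, map_ofNat]
  have hp0 : ∏ l, a l ≠ 0 := Finset.prod_ne_zero_iff.2 fun l _ => ha l
  refine exists_OnS_of_odd hodd ha hp0 (y := y) (u := fun l => u l / ι (c / 2)) ?_
  refine ⟨?_, ?_⟩
  · have h1 : ∑ l, ι (a l) * (u l / ι (c / 2)) ^ 2 =
        (∑ l, ι (a l) * u l ^ 2) * (ι (c / 2) ^ 2)⁻¹ := by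
      rw [Finset.sum_mul]
      refine Finset.sum_congr rfl fun l _ => ?_
      rw [div_pow, div_eq_mul_inv, mul_assoc]
    show ∑ l, ι (a l) * y l ^ 2 + ι (∏ l, a l) * ∑ l, ι (a l) * (u l / ι (c / 2)) ^ 2 = 1
    have h2 : ∑ l, ι (a l) * y l ^ 2 + 2 * ι f.discr * ∑ l, ι (a l) * u l ^ 2 = 1 := hyu.1
    rw [h1, hprod, ← h2]
    field_simp
  · have h1 : ∑ l, ι (a l) * (y l * (u l / ι (c / 2))) =
        (∑ l, ι (a l) * (y l * u l)) * (ι (c / 2))⁻¹ := by
      rw [Finset.sum_mul]
      refine Finset.sum_congr rfl fun l _ => ?_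
      rw [div_eq_mul_inv]
      ring
    show ∑ l, ι (a l) * (y l * (u l / ι (c / 2))) = 0
    have h2 : ∑ l, ι (a l) * (y l * u l) = 0 := hyu.2
    rw [h1, h2, zero_mul]

end Pool.Agent.Lib.MP_12adaf_nt.TF
end

section

/-!
# Weak approximation at the places of a number field
-/

namespace Pool.Agent.Lib.MP_12adaf_nt.TF

set_option linter.unusedSectionVars false
set_option linter.unusedVariables false

open Finset Polynomial Filter Topology Matrix NumberField IsDedekindDomain

/-- Change of the form in the approximation statement. -/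
lemma nf_apF_change {k : Type*} [Field k] {ι : Type*} [Fintype ι] {K : ι → Type*}
    [∀ i, NormedField (K i)] {φ : ∀ i, k →+* K i} {n : ℕ} {d d' c : k} (hc : c ≠ 0)
    (hd : d' = d * c ^ 2) {m m' : Type*} [Fintype m] [DecidableEq m] [Fintype m'] [DecidableEq m']
    {B : Matrix m m k} {B' : Matrix m' m' k} (hB : Cong B B') {F : ∀ i, (K i)[X]}
    {Y : ∀ i, K i} (h : ApF φ n d' B' F fun i => Y i / φ i c) : ApF φ n d B F Y := by
  intro ε hε
  have hS : 0 < 1 + ∑ i, ‖φ i c‖ := by
    have : 0 ≤ ∑ i, ‖φ i c‖ := Finset.sum_nonneg fun i _ => norm_nonneg _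
    linarith
  have hε' : 0 < ε / (1 + ∑ i, ‖φ i c‖) := by positivity
  obtain ⟨P, y, h1, h2, h3, h4, h5, h6⟩ := h _ hε'
  have h7 : ε / (1 + ∑ i, ‖φ i c‖) ≤ ε := by
    rw [div_le_iff₀ hS]
    have : 0 ≤ ∑ i, ‖φ i c‖ := Finset.sum_nonneg fun i _ => norm_nonneg _
    nlinarith
  refine ⟨P, c * y, h1, h2, ?_, mul_ne_zero hc h4, h5.trans hB.symm, fun i => ⟨fun m => ?_, ?_⟩⟩
  · rw [h3, hd]
    ring
  · exact ((h6 i).1 m).trans_le h7
  · have hφc : φ i c ≠ 0 := (_root_.map_ne_zero _).mpr hc
    have e1 : φ i (c * y) - Y i = φ i c * (φ i y - Y i / φ i c) := by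
      rw [map_mul, mul_sub, mul_div_cancel₀ _ hφc]
    rw [e1, norm_mul]
    have h8 := (h6 i).2
    rw [lt_div_iff₀ hS] at h8
    have h9 : ‖φ i c‖ ≤ ∑ i, ‖φ i c‖ :=
      Finset.single_le_sum (f := fun i => ‖φ i c‖) (fun i _ => norm_nonneg _) (Finset.mem_univ i)
    have h10 := norm_nonneg (φ i y - Y i / φ i c)
    have h11 := norm_nonneg (φ i c)
    calc ‖φ i c‖ * ‖φ i y - Y i / φ i c‖ ≤ ‖φ i y - Y i / φ i c‖ * (1 + ∑ i, ‖φ i c‖) := by
          rw [mul_comm]
          gcongr
          linarith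
      _ < ε := h8

theorem trace_form_approx {k : Type*} [Field k] [NumberField k] {e : ℕ} (he : e ≤ 1)
    {Q : Matrix (Fin (6 + e)) (Fin (6 + e)) k} {P0 : k[X]}
    {M0 : Matrix (Fin (6 + e)) (Fin (6 + e)) k} (h0 : TPt (6 + e) Q P0 M0)
    {ι : Type*} [Fintype ι] [Nonempty ι] (f : ι → Pl k) (hf : Function.Injective f)
    (F : ∀ i, (PlC k (f i))[X]) (M : ∀ i, Matrix (Fin (6 + e)) (Fin (6 + e)) (PlC k (f i)))
    (hF : ∀ i, TPt (6 + e) (Q.map (plEmb k (f i))) (F i) (M i)) {ε : ℝ} (hε : 0 < ε) :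
    ∃ (P : k[X]) (N : Matrix (Fin (6 + e)) (Fin (6 + e)) k), TPt (6 + e) Q P N ∧
      ∀ i, (∀ m, ‖plEmb k (f i) (P.coeff m) - (F i).coeff m‖ < ε) ∧
        ∀ b c, ‖plEmb k (f i) (N b c) - M i b c‖ < ε := by
  have hM0 : IsUnit M0.det := isUnit_iff_ne_zero.mpr h0.det
  have hcQ : Cong Q (HH (6 + e) P0) :=
    ⟨M0, M0⁻¹, Matrix.mul_nonsing_inv _ hM0, Matrix.nonsing_inv_mul _ hM0, h0.eq⟩
  have hQ : Q.IsSymm := hcQ.symm.symmetric (HH_isSymm _ _)
  have hQdet : Q.det ≠ 0 := by
    intro h
    have h1 := det_HH_ne_zero h0.monic h0.deg h0.sep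
    rw [← h0.eq, det_mul, det_mul, h] at h1
    simp at h1
  have hdense := denseRange_places k f hf
  have hop : ∀ i, OpenCong (PlC k (f i)) := fun i => openCong_place (f i)
  have hnb : ∀ i, (𝓝[≠] (0 : PlC k (f i))).NeBot := fun i => neBot_place (f i)
  refine frame_approx (φ := fun i => plEmb k (f i)) hdense hop (by omega) hQ hQdet F M hF ?_ hε
  obtain ⟨a, ha, ⟨y0, u0, hons⟩, hdec⟩ := decomp h0.monic h0.sep he h0.deg
  have hcS : Cong Q (stdF e a) := hcQ.trans hdec
  obtain ⟨c, hc, hcd⟩ := hcS.det_eq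
  rw [det_stdF] at hcd
  refine nf_apF_change hc hcd hcS ?_
  -- local facts
  have hφc : ∀ i, plEmb k (f i) c ≠ 0 := fun i => (_root_.map_ne_zero _).mpr hc
  have hdisc : ∀ i, (F i).discr = plEmb k (f i) (2 * ∏ l, a l) *
      ((M i).det / plEmb k (f i) c) ^ 2 := by
    intro i
    have h1 : (Q.map (plEmb k (f i))).det = plEmb k (f i) Q.det := by
      rw [RingHom.map_det]
      rfl
    rw [← det_HH (hF i).monic (hF i).deg (hF i).sep, ← (hF i).eq, det_mul, det_mul, det_transpose,
      h1, hcd, map_mul, map_pow]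
    have := hφc i
    field_simp
  have hY : ∀ i, (M i).det / plEmb k (f i) c ≠ 0 := fun i => div_ne_zero (hF i).det (hφc i)
  have hcong : ∀ i, Cong (HH (6 + e) (F i)) (stdF e fun l => plEmb k (f i) (a l)) := by
    intro i
    have hMi : IsUnit (M i).det := isUnit_iff_ne_zero.mpr (hF i).det
    have h1 : Cong (Q.map (plEmb k (f i))) (HH (6 + e) (F i)) :=
      ⟨M i, (M i)⁻¹, Matrix.mul_nonsing_inv _ hMi, Matrix.nonsing_inv_mul _ hMi, (hF i).eq⟩
    have h2 := hcS.map (plEmb k (f i))
    rw [map_stdF] at h2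
    exact h1.symm.trans h2
  have h4 : Even 4 := ⟨2, rfl⟩
  have h6 : Even 6 := ⟨3, rfl⟩
  have hm := fun i => (hF i).monic
  have hd := fun i => (hF i).deg
  have hs := fun i => (hF i).sep
  clear hcS hdec hcd
  rcases Nat.le_one_iff_eq_zero_or_eq_one.mp he with h | h
  · subst h
    have hW : ∀ i, LocW 4 (F i) := fun i =>
      locW_place (f i) h4 (hm i) (hd i) (hs i)
        (exists_factor_of_not_dvd _ (hm i) (hd i) (by rw [hd i]; decide))
    exact six_approx hdense hop hnb ha hons F _ hW hcong hdisc hY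
  · subst h
    have hO : ∀ i, LocO 6 (F i) := fun i =>
      locO_place (f i) h6 (hm i) (hd i) (hs i)
        ⟨F i, 1, hm i, monic_one, by rw [hd i]; decide, by rw [mul_one],
          Or.inr (by rw [hd i]; decide)⟩
    choose g t T hT hgm hgN hgs hgood using hO
    have hg : ∀ i, LocW 4 (g i) := fun i =>
      locW_place (f i) h4 (hgm i) (hgN i) (hgs i) (hgood i)
    exact seven_approx hdense hop hnb ha hons F _ g t T hT hg hcong hdisc hY

end Pool.Agent.Lib.MP_12adaf_nt.TF
end
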